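import Mathlib
import Pool.Agent.Lib.AbcH1.Core1

/-!
# The transcendental core, optimised form

Auxiliary polynomial `F = ∑ c j l X^(j + m l)` with a zero of order `N1` at `1`. Only the numbers
`∑ c j l * choose (j + m l) k * β^j * α l` (`k < N2`) are evaluated; the zero estimate uses the
zero of order `N1` at `1` as well as the zero of order `N2` at `β`.
-/

namespace Pool.Agent.Lib.AbcQ

open Polynomial Finset Pool.Agent.AbcH1

attribute [local instance] Matrix.seminormedAddCommGroup Matrix.normedAddCommGroup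

/-- The divisibility statement for one point. -/
theorem point_dvd (m : ℕ → ℕ) (D d N : ℕ) (c : ℕ → ℕ → ℚ) (k : ℕ) (hkd : k ≤ d + 1)
    (hk0 : 0 < k) (e : Fin k → ℕ) (hed : ∀ i, e i ≤ d)
    (hsum : ∀ g : ℕ → ℚ[X], (∑ i : Fin k, g (e i) * ent m D c 0 (e i))
      = ∑ l ∈ range (d + 1), g l * ent m D c 0 l)
    (x : ℚ) (y : ℕ → ℚ) (hx0 : x ≠ 0) (hy0 : ∀ l ≤ d, y l ≠ 0)
    (hv : ∀ k < N, ∑ j ∈ range (D + 1), ∑ l ∈ range (d + 1),
      c j l * ((j + m l).choose k : ℚ) * x ^ j * y l = 0) :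
    (X - C x) ^ (N - d) ∣ (Matrix.of fun (q i : Fin k) => ent m D c q (e i)).det := by
  set ρ : ℕ → ℚ := fun l => y l / x ^ (m l) with hρ
  refine dvd_det_ent m D c d N k hkd hk0 e x ρ hx0
    (fun i => div_ne_zero (hy0 _ (hed i)) (pow_ne_zero _ hx0)) ?_
  have h1 : ∑ i : Fin k, C (ρ (e i)) * (X ^ (m (e i)) * ent m D c 0 (e i))
      = ∑ l ∈ range (d + 1), C (ρ l) * (X ^ (m l) * ent m D c 0 l) := by
    have h2 := hsum (fun l => C (ρ l) * X ^ (m l))
    simp only [mul_assoc] at h2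
    exact h2
  rw [h1]
  set F : ℚ[X] := ∑ l ∈ range (d + 1), C (ρ l) * (X ^ (m l) * ent m D c 0 l) with hF
  have hF2 : F = ∑ j ∈ range (D + 1), ∑ l ∈ range (d + 1),
      C (c j l * ρ l) * X ^ (j + m l) := by
    rw [hF, Finset.sum_comm]
    refine Finset.sum_congr rfl ?_
    intro l _
    unfold ent
    rw [Finset.mul_sum, Finset.mul_sum]
    refine Finset.sum_congr rfl ?_
    intro j _
    rw [pow_add, pow_zero, mul_one, C_mul]
    ring
  rw [X_sub_C_pow_dvd_iff]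
  rw [X_pow_dvd_iff]
  intro q hq
  rw [← taylor_apply, taylor_coeff]
  rw [hF2]
  simp only [map_sum, eval_finsetSum]
  have hv' := hv q hq
  have h4 : ∀ j l : ℕ, (eval x) ((hasseDeriv q) (C (c j l * ρ l) * X ^ (j + m l)))
      = (x ^ q)⁻¹ * (c j l * ((j + m l).choose q : ℚ) * x ^ j * y l) := by
    intro j l
    rw [C_mul_X_pow_eq_monomial, hasseDeriv_monomial, eval_monomial]
    rcases lt_or_ge (j + m l) q with hlt | hge
    · rw [Nat.choose_eq_zero_of_lt hlt]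
      simp
    · have h5 : x ^ (j + m l - q) = x ^ (j + m l) * (x ^ q)⁻¹ := by
        rw [eq_mul_inv_iff_mul_eq₀ (pow_ne_zero _ hx0), ← pow_add, Nat.sub_add_cancel hge]
      rw [h5, hρ, pow_add]
      have h6 : x ^ (m l) ≠ 0 := pow_ne_zero _ hx0
      field_simp
  simp only [h4]
  simp only [← Finset.mul_sum]
  rw [hv', mul_zero]

/-- **Zero estimate** with the points `1` (order `N1`) and `x` (order `N2`). -/
theorem zeroEst2 (m : ℕ → ℕ) (D d N1 N2 : ℕ) (hm : ∀ l < d, m l + D < m (l + 1))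
    (c : ℕ → ℕ → ℚ) (hc : ∃ j ≤ D, ∃ l ≤ d, c j l ≠ 0)
    (x : ℚ) (y : ℕ → ℚ) (hx0 : x ≠ 0) (hx1 : x ≠ 1) (hy0 : ∀ l ≤ d, y l ≠ 0)
    (hv1 : ∀ k < N1, ∑ j ∈ range (D + 1), ∑ l ∈ range (d + 1),
      c j l * ((j + m l).choose k : ℚ) = 0)
    (hv2 : ∀ k < N2, ∑ j ∈ range (D + 1), ∑ l ∈ range (d + 1),
      c j l * ((j + m l).choose k : ℚ) * x ^ j * y l = 0) :
    (N1 - d) + (N2 - d) ≤ (d + 1) * D := by
  classical
  set L : Finset ℕ := (range (d + 1)).filter (fun l => ent m D c 0 l ≠ 0) with hL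
  set k := L.card with hk
  have hLne : L.Nonempty := by
    obtain ⟨j, hj, l, hl, hjl⟩ := hc
    refine ⟨l, ?_⟩
    rw [hL, Finset.mem_filter, Finset.mem_range]
    refine ⟨by omega, ?_⟩
    intro h0
    have h1 : (ent m D c 0 l).coeff j = 0 := by rw [h0, coeff_zero]
    rw [coeff_ent, if_pos hj] at h1
    simp at h1
    exact hjl h1
  have hk0 : 0 < k := Finset.card_pos.2 hLne
  have hkd : k ≤ d + 1 := by
    calc k ≤ (range (d + 1)).card := Finset.card_le_card (Finset.filter_subset _ _)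
      _ = d + 1 := Finset.card_range _
  set e : Fin k → ℕ := fun i => L.orderEmbOfFin hk.symm i with he
  have heinj : Function.Injective e := (L.orderEmbOfFin hk.symm).injective
  have heL : ∀ i, e i ∈ L := fun i => L.orderEmbOfFin_mem hk.symm i
  have hec : ∀ i, ent m D c 0 (e i) ≠ 0 := fun i => (Finset.mem_filter.1 (heL i)).2
  have hed : ∀ i, e i ≤ d := fun i => by
    have h := (Finset.mem_filter.1 (heL i)).1
    rw [Finset.mem_range] at h
    omega
  have hsum : ∀ g : ℕ → ℚ[X], (∑ i : Fin k, g (e i) * ent m D c 0 (e i))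
      = ∑ l ∈ range (d + 1), g l * ent m D c 0 l := by
    intro g
    have h2 : ∑ l ∈ L, g l * ent m D c 0 l
        = ∑ l ∈ range (d + 1), g l * ent m D c 0 l := by
      rw [hL, Finset.sum_filter]
      refine Finset.sum_congr rfl ?_
      intro l _
      by_cases h : ent m D c 0 l = 0
      · simp [h]
      · simp [h]
    rw [← h2]
    have h3 : L = Finset.univ.map (L.orderEmbOfFin hk.symm).toEmbedding := by
      ext l
      simp only [Finset.mem_map, Finset.mem_univ, true_and, RelEmbedding.coe_toEmbedding]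
      constructor
      · intro hl
        have := Finset.range_orderEmbOfFin L hk.symm
        have hl' : l ∈ Set.range (L.orderEmbOfFin hk.symm) := by
          rw [this]
          exact hl
        obtain ⟨i, hi⟩ := hl'
        exact ⟨i, hi⟩
      · rintro ⟨i, rfl⟩
        exact L.orderEmbOfFin_mem hk.symm i
    conv_rhs => rw [h3]
    rw [Finset.sum_map]
    rfl
  set W := (Matrix.of fun (q i : Fin k) => ent m D c q (e i)).det with hW
  have hW0 : W ≠ 0 := det_ent_ne_zero m D d hm c k e hed heinj hec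
  have hWdeg : W.natDegree ≤ k * D := natDegree_det_ent_le m D c k e
  have hd1 : (X - C (1 : ℚ)) ^ (N1 - d) ∣ W :=
    point_dvd m D d N1 c k hkd hk0 e hed hsum 1 (fun _ => 1) one_ne_zero
      (fun _ _ => one_ne_zero) (by
        intro q hq
        have h1 := hv1 q hq
        simp only [one_pow, mul_one]
        exact h1)
  have hd2 : (X - C x) ^ (N2 - d) ∣ W :=
    point_dvd m D d N2 c k hkd hk0 e hed hsum x y hx0 hy0 hv2
  have hcop : IsCoprime ((X - C (1 : ℚ)) ^ (N1 - d)) ((X - C x) ^ (N2 - d)) := by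
    refine IsCoprime.pow ?_
    exact isCoprime_X_sub_C_of_isUnit_sub (sub_ne_zero.2 (fun h => hx1 h.symm)).isUnit
  have hprod : (X - C (1 : ℚ)) ^ (N1 - d) * (X - C x) ^ (N2 - d) ∣ W := hcop.mul_dvd hd1 hd2
  have hdeg := natDegree_le_of_dvd hprod hW0
  rw [natDegree_mul (pow_ne_zero _ (X_sub_C_ne_zero _)) (pow_ne_zero _ (X_sub_C_ne_zero _))]
    at hdeg
  simp only [natDegree_pow, natDegree_X_sub_C, mul_one] at hdeg
  calc (N1 - d) + (N2 - d) ≤ W.natDegree := hdeg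
    _ ≤ k * D := hWdeg
    _ ≤ (d + 1) * D := Nat.mul_le_mul_right _ hkd

/-- Siegel's lemma for the auxiliary polynomial, exponent `e`. -/
theorem siegel2 (m : ℕ → ℕ) (D d N E e : ℕ) (hN : 0 < N) (hmE : ∀ l ≤ d, m l + D ≤ E)
    (h : (e + 1) * N ≤ e * ((D + 1) * (d + 1))) :
    ∃ c : ℕ → ℕ → ℤ, (∃ j ≤ D, ∃ l ≤ d, c j l ≠ 0) ∧
      (∀ j l, |c j l| ≤ ((((D + 1) * (d + 1) * 2 ^ E) ^ e : ℕ) : ℤ)) ∧
      (∀ k < N, ∑ j ∈ range (D + 1), ∑ l ∈ range (d + 1),
        c j l * ((j + m l).choose k : ℤ) = 0) := by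
  classical
  have he : 0 < e := by
    rcases Nat.eq_zero_or_pos e with h0 | h0
    · rw [h0] at h
      omega
    · exact h0
  have hNlt : N < (D + 1) * (d + 1) := by
    by_contra hcon
    have h1 : e * ((D + 1) * (d + 1)) ≤ e * N := Nat.mul_le_mul_left e (by omega)
    have h2 : (e + 1) * N = e * N + N := by ring
    omega
  let A : Matrix (Fin N) (Fin (D + 1) × Fin (d + 1)) ℤ :=
    Matrix.of fun k jl => (((jl.1 : ℕ) + m (jl.2 : ℕ)).choose k : ℤ)
  have hcard : Fintype.card (Fin (D + 1) × Fin (d + 1)) = (D + 1) * (d + 1) := by simp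
  have hcard2 : Fintype.card (Fin N) = N := by simp
  obtain ⟨t, ht0, htA, htn⟩ := Int.Matrix.exists_ne_zero_int_vec_norm_le A
    (by rw [hcard, hcard2]; omega) (by rw [hcard2]; omega)
  have hAn : ‖A‖ ≤ (2 : ℝ) ^ E := by
    rw [Matrix.norm_le_iff (by positivity)]
    intro k jl
    have h1 : ((jl.1 : ℕ) + m (jl.2 : ℕ)).choose k ≤ 2 ^ E := by
      refine (Nat.choose_le_two_pow _ _).trans (Nat.pow_le_pow_right (by norm_num) ?_)
      have h2 := jl.1.2
      have h3 := hmE (jl.2 : ℕ) (by have := jl.2.2; omega)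
      omega
    have h4 : ‖A k jl‖ = ((((jl.1 : ℕ) + m (jl.2 : ℕ)).choose k : ℕ) : ℝ) := by
      simp [A]
    rw [h4]
    exact_mod_cast h1
  have hmax : max 1 ‖A‖ ≤ (2 : ℝ) ^ E :=
    max_le (one_le_pow₀ (by norm_num)) hAn
  rw [hcard, hcard2] at htn
  have hbase : (1 : ℝ) ≤ (((D + 1) * (d + 1) : ℕ) : ℝ) * max 1 ‖A‖ := by
    have h1 : (1 : ℝ) ≤ (((D + 1) * (d + 1) : ℕ) : ℝ) := by
      exact_mod_cast Nat.succ_le_of_lt (by positivity)
    have h2 : (1 : ℝ) ≤ max 1 ‖A‖ := le_max_left _ _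
    nlinarith
  have hexp : ((N : ℝ)) / ((((D + 1) * (d + 1) : ℕ) : ℝ) - (N : ℝ)) ≤ e := by
    have h1 : ((e : ℝ) + 1) * (N : ℝ) ≤ e * (((D + 1) * (d + 1) : ℕ) : ℝ) := by
      exact_mod_cast h
    have h2 : (N : ℝ) < (((D + 1) * (d + 1) : ℕ) : ℝ) := by
      exact_mod_cast hNlt
    rw [div_le_iff₀ (by linarith)]
    linarith
  have htn2 : ‖t‖ ≤ ((((D + 1) * (d + 1) : ℕ) : ℝ) * (2 : ℝ) ^ E) ^ e := by
    refine htn.trans ?_
    calc ((((D + 1) * (d + 1) : ℕ) : ℝ) * max 1 ‖A‖) ^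
          ((N : ℝ) / ((((D + 1) * (d + 1) : ℕ) : ℝ) - (N : ℝ)))
        ≤ ((((D + 1) * (d + 1) : ℕ) : ℝ) * max 1 ‖A‖) ^ (e : ℝ) :=
          Real.rpow_le_rpow_of_exponent_le hbase hexp
      _ = ((((D + 1) * (d + 1) : ℕ) : ℝ) * max 1 ‖A‖) ^ e := Real.rpow_natCast _ _
      _ ≤ _ := by gcongr
  refine ⟨fun j l => if hj : j < D + 1 then (if hl : l < d + 1 then t (⟨j, hj⟩, ⟨l, hl⟩) else 0)
    else 0, ?_, ?_, ?_⟩
  · have : ∃ jl, t jl ≠ 0 := by
      by_contra hcon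
      exact ht0 (funext fun jl => by_contra fun h => hcon ⟨jl, h⟩)
    obtain ⟨⟨⟨j, hj⟩, ⟨l, hl⟩⟩, hjl⟩ := this
    refine ⟨j, by omega, l, by omega, ?_⟩
    simp only [hj, hl, dif_pos]
    exact hjl
  · intro j l
    by_cases hj : j < D + 1
    · by_cases hl : l < d + 1
      · simp only [hj, hl, dif_pos]
        have h1 : ‖t (⟨j, hj⟩, ⟨l, hl⟩)‖ ≤ ‖t‖ := norm_le_pi_norm t _
        have h2 := h1.trans htn2
        rw [Int.norm_eq_abs] at h2
        have h3 : ((|t (⟨j, hj⟩, ⟨l, hl⟩)| : ℤ) : ℝ)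
            ≤ ((((((D + 1) * (d + 1) * 2 ^ E) ^ e : ℕ) : ℤ)) : ℝ) := by
          push_cast
          push_cast at h2
          exact h2
        exact_mod_cast h3
      · simp only [hj, hl, dif_pos, dif_neg, not_false_eq_true, abs_zero]
        positivity
    · simp only [hj, dif_neg, not_false_eq_true, abs_zero]
      positivity
  · intro k hk
    have h1 : (A.mulVec t) ⟨k, hk⟩ = 0 := by rw [htA]; rfl
    rw [Finset.sum_range]
    have h2 : ∀ j : Fin (D + 1), ∑ l ∈ range (d + 1),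
        (if hj : (j : ℕ) < D + 1 then (if hl : l < d + 1 then t (⟨j, hj⟩, ⟨l, hl⟩) else 0)
          else 0) * (((j : ℕ) + m l).choose k : ℤ)
        = ∑ l : Fin (d + 1), t (j, l) * (((j : ℕ) + m (l : ℕ)).choose k : ℤ) := by
      intro j
      rw [Finset.sum_range]
      refine Finset.sum_congr rfl ?_
      intro l _
      rw [dif_pos j.2, dif_pos l.2]
    simp only [h2]
    have h3 : (A.mulVec t) ⟨k, hk⟩ = ∑ j : Fin (D + 1), ∑ l : Fin (d + 1),
        t (j, l) * (((j : ℕ) + m (l : ℕ)).choose k : ℤ) := by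
      unfold Matrix.mulVec dotProduct
      rw [Fintype.sum_prod_type]
      refine Finset.sum_congr rfl ?_
      intro j _
      refine Finset.sum_congr rfl ?_
      intro l _
      simp [A, mul_comm]
    rw [← h3, h1]

theorem aux_dvd2 (m : ℕ → ℕ) (D d N : ℕ) (c : ℕ → ℕ → ℤ)
    (hc : ∀ k < N, ∑ j ∈ range (D + 1), ∑ l ∈ range (d + 1),
        c j l * ((j + m l).choose k : ℤ) = 0) :
    (X - C 1) ^ N ∣ aux m D d c := by
  rw [X_sub_C_pow_dvd_iff, X_pow_dvd_iff]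
  intro q hq
  rw [← taylor_apply]
  have h := taylor_coeff_aux m D d c 1 q
  rw [one_pow, one_mul] at h
  rw [h]
  simp only [one_pow, mul_one]
  exact hc q hq

/-- Vanishing modulo `M`. -/
theorem vanish2 {R : Type*} [CommRing R] (m : ℕ → ℕ) (D d N N1 N2 : ℕ) (hNN : N + N2 ≤ N1)
    (c : ℕ → ℕ → ℤ)
    (hc : ∀ k < N1, ∑ j ∈ range (D + 1), ∑ l ∈ range (d + 1),
        c j l * ((j + m l).choose k : ℤ) = 0)
    (y : R) (hy : (y - 1) ^ N = 0) (k : ℕ) (hk : k < N2) :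
    ∑ j ∈ range (D + 1), ∑ l ∈ range (d + 1),
        (c j l : R) * ((j + m l).choose k : R) * y ^ (j + m l) = 0 := by
  obtain ⟨G, hG⟩ := aux_dvd2 m D d N1 c hc
  have h1 := taylor_coeff_aux m D d (fun j l => ((c j l : ℤ) : R)) y k
  rw [← h1]
  have h2 : aux m D d (fun j l => ((c j l : ℤ) : R))
      = (X - C 1) ^ N1 * G.map (Int.castRingHom R) := by
    have h3 := aux_map (Int.castRingHom R) m D d c
    have h4 : (fun j l => (Int.castRingHom R) (c j l)) = (fun j l => ((c j l : ℤ) : R)) := by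
      funext j l
      simp
    rw [h4] at h3
    rw [← h3, hG]
    simp
  rw [h2]
  have h5 : taylor y ((X - C (1 : R)) ^ N1 * G.map (Int.castRingHom R))
      = (X + C (y - 1)) ^ N1 * taylor y (G.map (Int.castRingHom R)) := by
    rw [taylor_mul, taylor_pow]
    congr 2
    rw [map_sub, taylor_X, taylor_C, C_sub]
    ring
  rw [h5, coeff_mul]
  have h6 : ∑ x ∈ antidiagonal k, ((X + C (y - 1)) ^ N1).coeff x.1 *
      (taylor y (G.map (Int.castRingHom R))).coeff x.2 = 0 := by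
    refine Finset.sum_eq_zero ?_
    intro x hx
    have hx' : x.1 + x.2 = k := Finset.HasAntidiagonal.mem_antidiagonal.1 hx
    rw [coeff_X_add_C_pow]
    have h7 : (y - 1) ^ (N1 - x.1) = 0 := by
      have : N1 - x.1 = N + (N1 - x.1 - N) := by omega
      rw [this, pow_add, hy, zero_mul]
    rw [h7]
    ring
  rw [h6, mul_zero]

/-- The integer whose smallness and divisibility is used. -/
def bigJ (m : ℕ → ℕ) (D d : ℕ) (c : ℕ → ℕ → ℤ) (B1 B2 : ℤ) (a : ℕ → ℤ) (k : ℕ) : ℤ :=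
  ∑ j ∈ range (D + 1), ∑ l ∈ range (d + 1), c j l * ((j + m l).choose k : ℤ) *
    (B2 ^ j * B1 ^ (D - j)) * a l

theorem bigJ_dvd (m : ℕ → ℕ) (D d N N1 N2 M M0 : ℕ) (hNN : N + N2 ≤ N1) (c : ℕ → ℕ → ℤ)
    (hc : ∀ k < N1, ∑ j ∈ range (D + 1), ∑ l ∈ range (d + 1),
        c j l * ((j + m l).choose k : ℤ) = 0)
    (B1 B2 V : ℤ) (a : ℕ → ℤ) (hM : M ∣ M0 ^ N) (hB : (M0 : ℤ) ∣ B1 - B2)
    (hrel : ∀ l ≤ d, (M : ℤ) ∣ a l * B1 ^ (m l) - V * B2 ^ (m l))
    (hMB : IsCoprime (M : ℤ) B1) (k : ℕ) (hk : k < N2) :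
    (M : ℤ) ∣ bigJ m D d c B1 B2 a k := by
  rw [← ZMod.intCast_zmod_eq_zero_iff_dvd]
  have huB : IsUnit ((B1 : ℤ) : ZMod M) := isUnit_of_isCoprime hMB
  obtain ⟨b, hb⟩ := huB.dvd (a := ((B2 : ℤ) : ZMod M))
  have hab : ∀ l ≤ d, ((a l : ℤ) : ZMod M) = (V : ZMod M) * b ^ (m l) := by
    intro l hl
    have h1 : (((a l * B1 ^ (m l) - V * B2 ^ (m l) : ℤ)) : ZMod M) = 0 :=
      (ZMod.intCast_zmod_eq_zero_iff_dvd _ _).2 (hrel l hl)
    push_cast at h1
    rw [hb, mul_pow] at h1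
    have h2 : ((B1 : ℤ) : ZMod M) ^ (m l) * (((a l : ℤ) : ZMod M) - (V : ZMod M) * b ^ (m l))
        = 0 := by
      linear_combination h1
    have h3 := ((huB.pow (m l)).mul_right_eq_zero).1 h2
    exact sub_eq_zero.1 h3
  have hb1 : (b - 1) ^ N = 0 := by
    obtain ⟨q, hq⟩ := hB
    have h1 : ((B1 : ℤ) : ZMod M) * (b - 1) = -((M0 : ZMod M) * ((q : ℤ) : ZMod M)) := by
      have h2 : (((B1 - B2 : ℤ)) : ZMod M) = (((M0 : ℤ) * q : ℤ) : ZMod M) := by rw [hq]
      push_cast at h2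
      rw [hb] at h2
      linear_combination -h2
    have h3 : ((M0 : ZMod M)) ^ N = 0 := by
      have h4 : ((M0 ^ N : ℕ) : ZMod M) = 0 := (ZMod.natCast_eq_zero_iff _ _).2 hM
      push_cast at h4
      exact h4
    have h6 : ((B1 : ℤ) : ZMod M) ^ N * (b - 1) ^ N = 0 := by
      rw [← mul_pow, h1, neg_pow, mul_pow, h3]
      ring
    exact ((huB.pow N).mul_right_eq_zero).1 h6
  have hv := vanish2 m D d N N1 N2 hNN c hc b hb1 k hk
  have hI : ((bigJ m D d c B1 B2 a k : ℤ) : ZMod M)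
      = ((B1 : ℤ) : ZMod M) ^ D * (V : ZMod M) *
        ∑ j ∈ range (D + 1), ∑ l ∈ range (d + 1),
          ((c j l : ℤ) : ZMod M) * ((j + m l).choose k : ZMod M) * b ^ (j + m l) := by
    unfold bigJ
    push_cast
    rw [Finset.mul_sum]
    refine Finset.sum_congr rfl ?_
    intro j hj
    rw [Finset.mul_sum]
    refine Finset.sum_congr rfl ?_
    intro l hl
    rw [Finset.mem_range] at hj hl
    rw [hab l (by omega), hb]
    have e1 : D = j + (D - j) := by omega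
    conv_rhs => rw [e1, pow_add]
    rw [mul_pow, pow_add]
    ring
  rw [hI, hv, mul_zero]

theorem bigJ_abs_le (m : ℕ → ℕ) (D d E : ℕ) (hmE : ∀ l ≤ d, m l + D ≤ E)
    (c : ℕ → ℕ → ℤ) (K : ℕ)
    (hK : ∀ j l, |c j l| ≤ (K : ℤ)) (B1 B2 A : ℕ) (a : ℕ → ℤ)
    (haA : ∀ l ≤ d, |a l| ≤ (A : ℤ)) (k : ℕ) :
    |bigJ m D d c B1 B2 a k| ≤
      (((D + 1) * (d + 1) * (K * 2 ^ E) * (max B1 B2) ^ D * A : ℕ) : ℤ) := by
  unfold bigJ
  refine (Finset.abs_sum_le_sum_abs _ _).trans ?_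
  have hterm : ∀ j ∈ range (D + 1), |∑ l ∈ range (d + 1), c j l * ((j + m l).choose k : ℤ) *
      ((B2 : ℤ) ^ j * (B1 : ℤ) ^ (D - j)) * a l|
      ≤ (((d + 1) * (K * 2 ^ E * (max B1 B2) ^ D * A) : ℕ) : ℤ) := by
    intro j hj
    rw [Finset.mem_range] at hj
    refine (Finset.abs_sum_le_sum_abs _ _).trans ?_
    have hin : ∀ l ∈ range (d + 1), |c j l * ((j + m l).choose k : ℤ) *
        ((B2 : ℤ) ^ j * (B1 : ℤ) ^ (D - j)) * a l|
        ≤ ((K * 2 ^ E * (max B1 B2) ^ D * A : ℕ) : ℤ) := by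
      intro l hl
      rw [Finset.mem_range] at hl
      rw [abs_mul, abs_mul, abs_mul]
      have h1 : |(((j + m l).choose k : ℕ) : ℤ)| ≤ ((2 ^ E : ℕ) : ℤ) := by
        rw [abs_of_nonneg (by positivity)]
        have h1' : (j + m l).choose k ≤ 2 ^ E := by
          refine (Nat.choose_le_two_pow _ _).trans (Nat.pow_le_pow_right (by norm_num) ?_)
          have h3 := hmE l (by omega)
          omega
        exact_mod_cast h1'
      have h2 : |(B2 : ℤ) ^ j * (B1 : ℤ) ^ (D - j)|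
          ≤ (((max B1 B2) ^ D : ℕ) : ℤ) := by
        rw [abs_of_nonneg (by positivity)]
        have h2' : B2 ^ j * B1 ^ (D - j) ≤ (max B1 B2) ^ D := by
          calc B2 ^ j * B1 ^ (D - j)
              ≤ (max B1 B2) ^ j * (max B1 B2) ^ (D - j) :=
                Nat.mul_le_mul (Nat.pow_le_pow_left (le_max_right _ _) _)
                  (Nat.pow_le_pow_left (le_max_left _ _) _)
            _ = (max B1 B2) ^ D := by
                rw [← pow_add]; congr 1; omega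
        exact_mod_cast h2'
      have h3 := haA l (by omega)
      push_cast
      push_cast at h1 h2 h3
      have h0 := hK j l
      gcongr
    refine (Finset.sum_le_card_nsmul _ _ _ hin).trans ?_
    rw [Finset.card_range, nsmul_eq_mul]
    push_cast
    exact le_refl _
  refine (Finset.sum_le_card_nsmul _ _ _ hterm).trans ?_
  rw [Finset.card_range, nsmul_eq_mul]
  apply le_of_eq
  push_cast
  ring

/-- **The transcendental core**, optimised form. -/
theorem core2 (m : ℕ → ℕ) (a : ℕ → ℤ) (D d N N1 N2 M M0 B1 B2 V E A e : ℕ)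
    (hB1 : 0 < B1) (hB2 : 0 < B2) (hV : 0 < V) (ha : ∀ l ≤ d, a l ≠ 0)
    (haA : ∀ l ≤ d, |a l| ≤ (A : ℤ))
    (hm : ∀ l < d, m l + D < m (l + 1)) (hmE : m d + D ≤ E) (hNN : N + N2 ≤ N1) (hN1 : 0 < N1)
    (hSieg : (e + 1) * N1 ≤ e * ((D + 1) * (d + 1)))
    (hM : M ∣ M0 ^ N) (hB : (M0 : ℤ) ∣ (B1 : ℤ) - B2) (hne : B1 ≠ B2)
    (hrel : ∀ l ≤ d, (M : ℤ) ∣ a l * B1 ^ (m l) - V * B2 ^ (m l))
    (hMB : Nat.Coprime M B1)
    (hsize : ((D + 1) * (d + 1) * 2 ^ E) ^ (e + 1) * (max B1 B2) ^ D * A < M)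
    (hzero : (d + 1) * D < (N1 - d) + (N2 - d)) : False := by
  have hmE' : ∀ l ≤ d, m l + D ≤ E := by
    intro l hl
    have := m_mono m D d hm hl le_rfl
    omega
  obtain ⟨c, hc0, hcK, hc⟩ := siegel2 m D d N1 E e hN1 hmE' hSieg
  have hI0 : ∀ k < N2, bigJ m D d c B1 B2 a k = 0 := by
    intro k hk
    refine Int.eq_zero_of_abs_lt_dvd (bigJ_dvd m D d N N1 N2 M M0 hNN c hc B1 B2 V a
      hM hB hrel (Nat.isCoprime_iff_coprime.2 hMB) k hk) ?_
    refine lt_of_le_of_lt (bigJ_abs_le m D d E hmE' c _ hcK B1 B2 A a haA k) ?_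
    have h1 : (D + 1) * (d + 1) * (((D + 1) * (d + 1) * 2 ^ E) ^ e * 2 ^ E) *
        (max B1 B2) ^ D * A
        = ((D + 1) * (d + 1) * 2 ^ E) ^ (e + 1) * (max B1 B2) ^ D * A := by
      rw [pow_succ]
      ring
    rw [h1]
    exact_mod_cast hsize
  set β : ℚ := (B2 : ℚ) / B1 with hβ
  have hB1q : (B1 : ℚ) ≠ 0 := by exact_mod_cast hB1.ne'
  have hB2q : (B2 : ℚ) ≠ 0 := by exact_mod_cast hB2.ne'
  have hβ0 : 0 < β := by
    rw [hβ]
    positivity
  have hβ1 : β ≠ 1 := by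
    rw [hβ]
    intro h
    rw [div_eq_one_iff_eq hB1q] at h
    exact hne (by exact_mod_cast h.symm)
  have hz := zeroEst2 m D d N1 N2 hm (fun j l => ((c j l : ℤ) : ℚ)) (by
      obtain ⟨j, hj, l, hl, hjl⟩ := hc0
      exact ⟨j, hj, l, hl, by exact_mod_cast hjl⟩)
    β (fun l => (a l : ℚ)) hβ0.ne' hβ1 (fun l hl => by exact_mod_cast ha l hl)
    (by
      intro k hk
      have h1 := hc k hk
      exact_mod_cast h1)
    (by
      intro k hk
      have h1 := hI0 k hk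
      have h2 : ((bigJ m D d c B1 B2 a k : ℤ) : ℚ) = 0 := by rw [h1]; simp
      have h3 : ((bigJ m D d c B1 B2 a k : ℤ) : ℚ)
          = (B1 : ℚ) ^ D *
            ∑ j ∈ range (D + 1), ∑ l ∈ range (d + 1),
              ((c j l : ℤ) : ℚ) * ((j + m l).choose k : ℚ) * β ^ j * (a l : ℚ) := by
        unfold bigJ
        push_cast
        rw [Finset.mul_sum]
        refine Finset.sum_congr rfl ?_
        intro j hj
        rw [Finset.mul_sum]
        refine Finset.sum_congr rfl ?_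
        intro l hl
        rw [Finset.mem_range] at hj hl
        have e1 : D = j + (D - j) := by omega
        have e3 : (B2 : ℚ) ^ j = (B1 : ℚ) ^ j * β ^ j := by
          rw [← mul_pow, hβ, mul_div_cancel₀ _ hB1q]
        conv_rhs => rw [e1, pow_add (B1 : ℚ)]
        rw [e3]
        ring
      rw [h3] at h2
      exact (mul_eq_zero.1 h2).resolve_left (pow_ne_zero _ hB1q))
  omega

end Pool.Agent.Lib.AbcQ
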