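import Mathlib
import Pool.Agent.Lib.AbcQ.Core2

/-!
# The transcendental core modulo the square of `M`

The auxiliary polynomial `F = ∑ c j l X^(j + m l)` has a zero of order `N1` at `1` and
`∑ l * c j l X^(j + m l)` has a zero of order `N1'` there. The numbers
`∑ c j l * choose (j + m l) k * β^j * α l` (`k < N2`), `α l` congruent to `β^(m l) * ζ^l`, are
divisible by `M ^ 2` when `M` divides `ζ - 1` and `(β - 1)^N`.
-/

namespace Pool.Agent.Lib.AbcQ

open Polynomial Finset Pool.Agent.AbcH1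

attribute [local instance] Matrix.seminormedAddCommGroup Matrix.normedAddCommGroup

/-- A weighted combination of the columns, divisibility by a power of `X - x`. -/
theorem wsum_dvd (m : ℕ → ℕ) (D d N : ℕ) (c : ℕ → ℕ → ℚ) (x : ℚ) (y : ℕ → ℚ) (hx0 : x ≠ 0)
    (hv : ∀ k < N, ∑ j ∈ range (D + 1), ∑ l ∈ range (d + 1),
      c j l * ((j + m l).choose k : ℚ) * x ^ j * y l = 0) :
    (X - C x) ^ N ∣ ∑ l ∈ range (d + 1), C (y l / x ^ (m l)) * (X ^ (m l) * ent m D c 0 l) := by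
  set ρ : ℕ → ℚ := fun l => y l / x ^ (m l) with hρ
  set F : ℚ[X] := ∑ l ∈ range (d + 1), C (y l / x ^ (m l)) * (X ^ (m l) * ent m D c 0 l) with hF
  have hF2 : F = ∑ j ∈ range (D + 1), ∑ l ∈ range (d + 1),
      C (c j l * ρ l) * X ^ (j + m l) := by
    rw [hF, Finset.sum_comm]
    refine Finset.sum_congr rfl ?_
    intro l _
    unfold ent
    rw [Finset.mul_sum, Finset.mul_sum]
    refine Finset.sum_congr rfl ?_
    intro j _
    rw [pow_add, pow_zero, mul_one, C_mul]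
    ring
  rw [X_sub_C_pow_dvd_iff]
  rw [X_pow_dvd_iff]
  intro q hq
  rw [← taylor_apply, taylor_coeff]
  rw [hF2]
  simp only [map_sum, eval_finsetSum]
  have hv' := hv q hq
  have h4 : ∀ j l : ℕ, (eval x) ((hasseDeriv q) (C (c j l * ρ l) * X ^ (j + m l)))
      = (x ^ q)⁻¹ * (c j l * ((j + m l).choose q : ℚ) * x ^ j * y l) := by
    intro j l
    rw [C_mul_X_pow_eq_monomial, hasseDeriv_monomial, eval_monomial]
    rcases lt_or_ge (j + m l) q with hlt | hge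
    · rw [Nat.choose_eq_zero_of_lt hlt]
      simp
    · have h5 : x ^ (j + m l - q) = x ^ (j + m l) * (x ^ q)⁻¹ := by
        rw [eq_mul_inv_iff_mul_eq₀ (pow_ne_zero _ hx0), ← pow_add, Nat.sub_add_cancel hge]
      rw [h5, hρ, pow_add]
      have h6 : x ^ (m l) ≠ 0 := pow_ne_zero _ hx0
      field_simp
  simp only [h4]
  simp only [← Finset.mul_sum]
  rw [hv', mul_zero]

/-- The combinations of the rows below the first one. -/
theorem col_dvd (m : ℕ → ℕ) (D : ℕ) (c : ℕ → ℕ → ℚ) (d N : ℕ) (k : ℕ)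
    (e : Fin k → ℕ) (x : ℚ) (w : Fin k → ℚ)
    (hF : (X - C x) ^ N ∣ ∑ i : Fin k, C (w i) * (X ^ (m (e i)) * ent m D c 0 (e i)))
    (q : ℕ) (hq : q ≤ d) :
    (X - C x) ^ (N - d) ∣ ∑ i : Fin k, C (w i) * (X ^ (m (e i)) * ent m D c q (e i)) := by
  have hθ : ∀ (q : ℕ) (l : ℕ), theta^[q] (X ^ (m l) * ent m D c 0 l)
      = X ^ (m l) * ent m D c q l := by
    intro q l
    have h1 : ∀ q' : ℕ, X ^ (m l) * ent m D c q' l
        = ∑ j ∈ range (D + 1), C (c j l * ((j + m l : ℕ) : ℚ) ^ q') * X ^ (j + m l) := by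
      intro q'
      unfold ent
      rw [Finset.mul_sum]
      refine Finset.sum_congr rfl ?_
      intro j _
      rw [pow_add]
      ring
    rw [h1 q]
    have h2 : X ^ (m l) * ent m D c 0 l
        = ∑ j ∈ range (D + 1), C (c j l) * X ^ (j + m l) := by
      rw [h1 0]
      simp
    rw [h2]
    exact theta_iter_sum ℕ (range (D + 1)) (fun j => c j l) (fun j => j + m l) q
  have hθadd : ∀ (q : ℕ) (s : Finset (Fin k)) (f : Fin k → ℚ[X]) (w : Fin k → ℚ),
      theta^[q] (∑ i ∈ s, C (w i) * f i) = ∑ i ∈ s, C (w i) * theta^[q] (f i) := by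
    intro q s f w
    induction q with
    | zero => simp
    | succ q ih =>
      rw [Function.iterate_succ_apply', ih]
      unfold theta
      rw [derivative_sum, Finset.mul_sum]
      refine Finset.sum_congr rfl ?_
      intro i _
      rw [derivative_C_mul, Function.iterate_succ_apply']
      ring
  have h1 : ∑ i : Fin k, C (w i) * (X ^ (m (e i)) * ent m D c q (e i))
      = theta^[q] (∑ i : Fin k, C (w i) * (X ^ (m (e i)) * ent m D c 0 (e i))) := by
    rw [hθadd]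
    refine Finset.sum_congr rfl ?_
    intro i _
    rw [hθ]
  rw [h1]
  rcases le_or_gt N d with hNd | hNd
  · rw [Nat.sub_eq_zero_of_le hNd, pow_zero]
    exact one_dvd _
  · apply theta_iter_dvd
    refine (pow_dvd_pow _ ?_).trans hF
    omega

/-- Two columns with a common factor each. -/
theorem dvd_det_two {R : Type*} [CommRing R] {k : ℕ} (A : Matrix (Fin k) (Fin k) R)
    (i0 i1 : Fin k) (hi : i0 ≠ i1) (s0 s1 : R) (h0 : ∀ q, s0 ∣ A q i0) (h1 : ∀ q, s1 ∣ A q i1) :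
    s0 * s1 ∣ A.det := by
  classical
  choose u0 hu0 using h0
  choose u1 hu1 using h1
  set v : Fin k → R := fun j => if j = i0 then s0 else if j = i1 then s1 else 1 with hv
  set B : Matrix (Fin k) (Fin k) R := Matrix.of fun q j =>
    if j = i0 then u0 q else if j = i1 then u1 q else A q j with hB
  have hA : A = Matrix.of fun q j => v j * B q j := by
    ext q j
    simp only [Matrix.of_apply, hv, hB]
    by_cases hj0 : j = i0
    · rw [hj0, if_pos rfl, if_pos rfl]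
      exact hu0 q
    · rw [if_neg hj0, if_neg hj0]
      by_cases hj1 : j = i1
      · rw [hj1, if_pos rfl, if_pos rfl]
        exact hu1 q
      · rw [if_neg hj1, if_neg hj1, one_mul]
  have hdet : A.det = (∏ j, v j) * B.det := by
    rw [← Matrix.det_mul_row v B, ← hA]
  rw [hdet]
  have hprod : ∏ j, v j = s0 * s1 := by
    have h2 : ∀ j ∈ (Finset.univ : Finset (Fin k)), j ∉ ({i0, i1} : Finset (Fin k)) → v j = 1 := by
      intro j _ hj
      rw [Finset.mem_insert, Finset.mem_singleton, not_or] at hj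
      simp only [hv]
      rw [if_neg hj.1, if_neg hj.2]
    rw [← Finset.prod_subset (Finset.subset_univ ({i0, i1} : Finset (Fin k))) h2,
      Finset.prod_pair hi]
    have e0 : v i0 = s0 := if_pos rfl
    have e1 : v i1 = s1 := by
      have h3 : v i1 = if i1 = i1 then s1 else 1 := if_neg (Ne.symm hi)
      rw [h3, if_pos rfl]
    rw [e0, e1]
  rw [hprod]
  exact Dvd.intro _ rfl

/-- The divisibility at the point `1`, two columns. -/
theorem one_dvd_det (m : ℕ → ℕ) (D : ℕ) (c : ℕ → ℕ → ℚ) (d N1 N1' : ℕ) (hNN : N1' ≤ N1)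
    (k : ℕ) (hkd : k ≤ d + 1) (e : Fin k → ℕ) (i0 i1 : Fin k) (hi : e i0 ≠ e i1)
    (hF0 : (X - C (1 : ℚ)) ^ N1 ∣ ∑ i : Fin k, X ^ (m (e i)) * ent m D c 0 (e i))
    (hF1 : (X - C (1 : ℚ)) ^ N1' ∣
      ∑ i : Fin k, C ((e i : ℕ) : ℚ) * (X ^ (m (e i)) * ent m D c 0 (e i))) :
    (X - C (1 : ℚ)) ^ ((N1 - d) + (N1' - d)) ∣
      (Matrix.of fun (q i : Fin k) => ent m D c q (e i)).det := by
  classical
  have hi' : i0 ≠ i1 := fun h => hi (by rw [h])
  set G : Matrix (Fin k) (Fin k) ℚ[X] :=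
    Matrix.of fun (q i : Fin k) => X ^ (m (e i)) * ent m D c q (e i) with hG
  set G1 : Matrix (Fin k) (Fin k) ℚ[X] := G.updateCol i0 (fun q => ∑ i, (1 : ℚ[X]) • G q i)
    with hG1
  have hdet1 : G1.det = G.det := by
    rw [hG1, Matrix.det_updateCol_sum G i0 (fun _ => (1 : ℚ[X])), one_smul]
  set g : Fin k → ℚ[X] := fun i => C (((e i : ℕ) : ℚ) - ((e i0 : ℕ) : ℚ)) with hg
  set G2 : Matrix (Fin k) (Fin k) ℚ[X] := G1.updateCol i1 (fun q => ∑ i, g i • G1 q i)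
    with hG2
  have hdet2 : G2.det = g i1 • G1.det := by
    rw [hG2, Matrix.det_updateCol_sum G1 i1 g]
  have hc0 : ∀ q : Fin k, G2 q i0 = ∑ i, G q i := by
    intro q
    rw [hG2, Matrix.updateCol_ne hi', hG1, Matrix.updateCol_self]
    simp
  have hc1 : ∀ q : Fin k, G2 q i1 = ∑ i, g i * G q i := by
    intro q
    rw [hG2, Matrix.updateCol_self]
    refine Finset.sum_congr rfl ?_
    intro i _
    by_cases hii : i = i0
    · have : g i = 0 := by
        rw [hii, hg]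
        simp
      rw [this, zero_smul, zero_mul]
    · rw [hG1, Matrix.updateCol_ne hii, smul_eq_mul]
  have hF0' : (X - C (1 : ℚ)) ^ N1 ∣
      ∑ i : Fin k, C (1 : ℚ) * (X ^ (m (e i)) * ent m D c 0 (e i)) := by
    simpa using hF0
  have hF1' : (X - C (1 : ℚ)) ^ N1' ∣
      ∑ i : Fin k, C (((e i : ℕ) : ℚ) - ((e i0 : ℕ) : ℚ)) *
        (X ^ (m (e i)) * ent m D c 0 (e i)) := by
    have h1 : ∑ i : Fin k, C (((e i : ℕ) : ℚ) - ((e i0 : ℕ) : ℚ)) *
        (X ^ (m (e i)) * ent m D c 0 (e i))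
        = ∑ i : Fin k, C ((e i : ℕ) : ℚ) * (X ^ (m (e i)) * ent m D c 0 (e i))
          - C ((e i0 : ℕ) : ℚ) * ∑ i : Fin k, X ^ (m (e i)) * ent m D c 0 (e i) := by
      rw [Finset.mul_sum, ← Finset.sum_sub_distrib]
      refine Finset.sum_congr rfl ?_
      intro i _
      rw [C_sub]
      ring
    rw [h1]
    exact dvd_sub hF1 (((pow_dvd_pow _ hNN).trans hF0).mul_left _)
  have hq : ∀ q : Fin k, (q : ℕ) ≤ d := fun q => by have := q.2; omega
  have hd0 : ∀ q : Fin k, (X - C (1 : ℚ)) ^ (N1 - d) ∣ G2 q i0 := by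
    intro q
    rw [hc0 q]
    have h1 := col_dvd m D c d N1 k e 1 (fun _ => 1) hF0' q (hq q)
    simpa [hG] using h1
  have hd1 : ∀ q : Fin k, (X - C (1 : ℚ)) ^ (N1' - d) ∣ G2 q i1 := by
    intro q
    rw [hc1 q]
    exact col_dvd m D c d N1' k e 1 (fun i => ((e i : ℕ) : ℚ) - ((e i0 : ℕ) : ℚ)) hF1' q (hq q)
  have hdvd2 := dvd_det_two G2 i0 i1 hi' _ _ hd0 hd1
  rw [← pow_add, hdet2, hdet1, smul_eq_mul] at hdvd2
  have hu : IsUnit (g i1) := by
    rw [hg]
    refine isUnit_C.2 (sub_ne_zero.2 ?_).isUnit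
    intro h
    exact hi (by exact_mod_cast h.symm)
  have hdet : (X - C (1 : ℚ)) ^ ((N1 - d) + (N1' - d)) ∣ G.det := (hu.dvd_mul_left).1 hdvd2
  have hfac : G.det = (∏ i, (X : ℚ[X]) ^ (m (e i))) *
      (Matrix.of fun (q i : Fin k) => ent m D c q (e i)).det := by
    have := Matrix.det_mul_row (fun i : Fin k => (X : ℚ[X]) ^ (m (e i)))
      (Matrix.of fun (q i : Fin k) => ent m D c q (e i))
    rw [← this]
    rfl
  rw [hfac] at hdet
  refine IsCoprime.dvd_of_dvd_mul_left ?_ hdet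
  refine IsCoprime.pow_left ?_
  refine IsCoprime.prod_right ?_
  intro i _
  refine IsCoprime.pow_right ?_
  refine ⟨-1, 1, ?_⟩
  rw [C_1]
  ring

/-- **Zero estimate** with the point `1` (two polynomials, orders `N1` and `N1'`) and the point
`x` (order `N2`). -/
theorem zeroEst3 (m : ℕ → ℕ) (D d N1 N1' N2 : ℕ) (hm : ∀ l < d, m l + D < m (l + 1))
    (hNN : N1' ≤ N1)
    (c : ℕ → ℕ → ℚ) (hc : ∃ j ≤ D, ∃ l ≤ d, c j l ≠ 0)
    (x : ℚ) (y : ℕ → ℚ) (hx0 : x ≠ 0) (hx1 : x ≠ 1) (hy0 : ∀ l ≤ d, y l ≠ 0)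
    (hv1 : ∀ k < N1, ∑ j ∈ range (D + 1), ∑ l ∈ range (d + 1),
      c j l * ((j + m l).choose k : ℚ) = 0)
    (hv1' : ∀ k < N1', ∑ j ∈ range (D + 1), ∑ l ∈ range (d + 1),
      (l : ℚ) * c j l * ((j + m l).choose k : ℚ) = 0)
    (hv2 : ∀ k < N2, ∑ j ∈ range (D + 1), ∑ l ∈ range (d + 1),
      c j l * ((j + m l).choose k : ℚ) * x ^ j * y l = 0) :
    N1 - d ≤ D ∨ (N1 - d) + (N1' - d) + (N2 - d) ≤ (d + 1) * D := by
  classical
  set L : Finset ℕ := (range (d + 1)).filter (fun l => ent m D c 0 l ≠ 0) with hL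
  set k := L.card with hk
  have hLne : L.Nonempty := by
    obtain ⟨j, hj, l, hl, hjl⟩ := hc
    refine ⟨l, ?_⟩
    rw [hL, Finset.mem_filter, Finset.mem_range]
    refine ⟨by omega, ?_⟩
    intro h0
    have h1 : (ent m D c 0 l).coeff j = 0 := by rw [h0, coeff_zero]
    rw [coeff_ent, if_pos hj] at h1
    simp at h1
    exact hjl h1
  have hk0 : 0 < k := Finset.card_pos.2 hLne
  have hkd : k ≤ d + 1 := by
    calc k ≤ (range (d + 1)).card := Finset.card_le_card (Finset.filter_subset _ _)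
      _ = d + 1 := Finset.card_range _
  set e : Fin k → ℕ := fun i => L.orderEmbOfFin hk.symm i with he
  have heinj : Function.Injective e := (L.orderEmbOfFin hk.symm).injective
  have heL : ∀ i, e i ∈ L := fun i => L.orderEmbOfFin_mem hk.symm i
  have hec : ∀ i, ent m D c 0 (e i) ≠ 0 := fun i => (Finset.mem_filter.1 (heL i)).2
  have hed : ∀ i, e i ≤ d := fun i => by
    have h := (Finset.mem_filter.1 (heL i)).1
    rw [Finset.mem_range] at h
    omega
  have hsum : ∀ g : ℕ → ℚ[X], (∑ i : Fin k, g (e i) * ent m D c 0 (e i))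
      = ∑ l ∈ range (d + 1), g l * ent m D c 0 l := by
    intro g
    have h2 : ∑ l ∈ L, g l * ent m D c 0 l
        = ∑ l ∈ range (d + 1), g l * ent m D c 0 l := by
      rw [hL, Finset.sum_filter]
      refine Finset.sum_congr rfl ?_
      intro l _
      by_cases h : ent m D c 0 l = 0
      · simp [h]
      · simp [h]
    rw [← h2]
    have h3 : L = Finset.univ.map (L.orderEmbOfFin hk.symm).toEmbedding := by
      ext l
      simp only [Finset.mem_map, Finset.mem_univ, true_and, RelEmbedding.coe_toEmbedding]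
      constructor
      · intro hl
        have := Finset.range_orderEmbOfFin L hk.symm
        have hl' : l ∈ Set.range (L.orderEmbOfFin hk.symm) := by
          rw [this]
          exact hl
        obtain ⟨i, hi⟩ := hl'
        exact ⟨i, hi⟩
      · rintro ⟨i, rfl⟩
        exact L.orderEmbOfFin_mem hk.symm i
    conv_rhs => rw [h3]
    rw [Finset.sum_map]
    rfl
  set W := (Matrix.of fun (q i : Fin k) => ent m D c q (e i)).det with hW
  have hW0 : W ≠ 0 := det_ent_ne_zero m D d hm c k e hed heinj hec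
  have hWdeg : W.natDegree ≤ k * D := natDegree_det_ent_le m D c k e
  have hv1x : ∀ q < N1, ∑ j ∈ range (D + 1), ∑ l ∈ range (d + 1),
      c j l * ((j + m l).choose q : ℚ) * (1 : ℚ) ^ j * (1 : ℚ) = 0 := by
    intro q hq
    have h1 := hv1 q hq
    simp only [one_pow, mul_one]
    exact h1
  rcases Nat.lt_or_ge k 2 with hk2 | hk2
  · left
    have hd1 : (X - C (1 : ℚ)) ^ (N1 - d) ∣ W :=
      point_dvd m D d N1 c k hkd hk0 e hed hsum 1 (fun _ => 1) one_ne_zero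
        (fun _ _ => one_ne_zero) hv1x
    have hdeg := natDegree_le_of_dvd hd1 hW0
    rw [natDegree_pow, natDegree_X_sub_C, mul_one] at hdeg
    have hk1 : k = 1 := by omega
    rw [hk1, one_mul] at hWdeg
    omega
  · right
    have hF0 : (X - C (1 : ℚ)) ^ N1 ∣ ∑ i : Fin k, X ^ (m (e i)) * ent m D c 0 (e i) := by
      rw [hsum (fun l => X ^ (m l))]
      have h1 := wsum_dvd m D d N1 c 1 (fun _ => 1) one_ne_zero hv1x
      simpa using h1
    have hF1 : (X - C (1 : ℚ)) ^ N1' ∣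
        ∑ i : Fin k, C ((e i : ℕ) : ℚ) * (X ^ (m (e i)) * ent m D c 0 (e i)) := by
      have h0 : ∑ i : Fin k, C ((e i : ℕ) : ℚ) * (X ^ (m (e i)) * ent m D c 0 (e i))
          = ∑ l ∈ range (d + 1), C ((l : ℕ) : ℚ) * (X ^ (m l) * ent m D c 0 l) := by
        have h2 := hsum (fun l => C ((l : ℕ) : ℚ) * X ^ (m l))
        simp only [mul_assoc] at h2
        exact h2
      rw [h0]
      have h1 := wsum_dvd m D d N1' c 1 (fun l => (l : ℚ)) one_ne_zero (by
        intro q hq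
        have h1 := hv1' q hq
        rw [← h1]
        refine Finset.sum_congr rfl ?_
        intro j _
        refine Finset.sum_congr rfl ?_
        intro l _
        rw [one_pow]
        ring)
      simpa only [one_pow, div_one] using h1
    have hd1 : (X - C (1 : ℚ)) ^ ((N1 - d) + (N1' - d)) ∣ W :=
      one_dvd_det m D c d N1 N1' hNN k hkd e ⟨0, by omega⟩ ⟨1, by omega⟩
        (fun h => by
          have h1 := heinj h
          rw [Fin.mk.injEq] at h1
          omega) hF0 hF1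
    have hd2 : (X - C x) ^ (N2 - d) ∣ W :=
      point_dvd m D d N2 c k hkd hk0 e hed hsum x y hx0 hy0 hv2
    have hcop : IsCoprime ((X - C (1 : ℚ)) ^ ((N1 - d) + (N1' - d))) ((X - C x) ^ (N2 - d)) := by
      refine IsCoprime.pow ?_
      exact isCoprime_X_sub_C_of_isUnit_sub (sub_ne_zero.2 (fun h => hx1 h.symm)).isUnit
    have hprod : (X - C (1 : ℚ)) ^ ((N1 - d) + (N1' - d)) * (X - C x) ^ (N2 - d) ∣ W :=
      hcop.mul_dvd hd1 hd2
    have hdeg := natDegree_le_of_dvd hprod hW0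
    rw [natDegree_mul (pow_ne_zero _ (X_sub_C_ne_zero _)) (pow_ne_zero _ (X_sub_C_ne_zero _))]
      at hdeg
    simp only [natDegree_pow, natDegree_X_sub_C, mul_one] at hdeg
    calc (N1 - d) + (N1' - d) + (N2 - d) ≤ W.natDegree := hdeg
      _ ≤ k * D := hWdeg
      _ ≤ (d + 1) * D := Nat.mul_le_mul_right _ hkd

/-- Siegel's lemma for the two families of conditions, exponent `e`. -/
theorem siegel3 (m : ℕ → ℕ) (D d N N' E e : ℕ) (hN : 0 < N) (hmE : ∀ l ≤ d, m l + D ≤ E)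
    (hdE : d ≤ E) (h : (e + 1) * (N + N') ≤ e * ((D + 1) * (d + 1))) :
    ∃ c : ℕ → ℕ → ℤ, (∃ j ≤ D, ∃ l ≤ d, c j l ≠ 0) ∧
      (∀ j l, |c j l| ≤ ((((D + 1) * (d + 1) * 4 ^ E) ^ e : ℕ) : ℤ)) ∧
      (∀ k < N, ∑ j ∈ range (D + 1), ∑ l ∈ range (d + 1),
        c j l * ((j + m l).choose k : ℤ) = 0) ∧
      (∀ k < N', ∑ j ∈ range (D + 1), ∑ l ∈ range (d + 1),
        (l : ℤ) * c j l * ((j + m l).choose k : ℤ) = 0) := by
  classical
  have he : 0 < e := by
    rcases Nat.eq_zero_or_pos e with h0 | h0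
    · rw [h0] at h
      omega
    · exact h0
  have hNlt : N + N' < (D + 1) * (d + 1) := by
    by_contra hcon
    have h1 : e * ((D + 1) * (d + 1)) ≤ e * (N + N') := Nat.mul_le_mul_left e (by omega)
    have h2 : (e + 1) * (N + N') = e * (N + N') + (N + N') := by ring
    omega
  let A : Matrix (Fin N ⊕ Fin N') (Fin (D + 1) × Fin (d + 1)) ℤ :=
    Matrix.of fun k jl => Sum.elim
      (fun k : Fin N => (((jl.1 : ℕ) + m (jl.2 : ℕ)).choose k : ℤ))
      (fun k : Fin N' => ((jl.2 : ℕ) : ℤ) * (((jl.1 : ℕ) + m (jl.2 : ℕ)).choose k : ℤ)) k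
  have hcard : Fintype.card (Fin (D + 1) × Fin (d + 1)) = (D + 1) * (d + 1) := by simp
  have hcard2 : Fintype.card (Fin N ⊕ Fin N') = N + N' := by simp
  obtain ⟨t, ht0, htA, htn⟩ := Int.Matrix.exists_ne_zero_int_vec_norm_le A
    (by rw [hcard, hcard2]; omega) (by rw [hcard2]; omega)
  have hch : ∀ (jl : Fin (D + 1) × Fin (d + 1)) (k : ℕ),
      ((jl.1 : ℕ) + m (jl.2 : ℕ)).choose k ≤ 2 ^ E := by
    intro jl k
    refine (Nat.choose_le_two_pow _ _).trans (Nat.pow_le_pow_right (by norm_num) ?_)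
    have h2 := jl.1.2
    have h3 := hmE (jl.2 : ℕ) (by have := jl.2.2; omega)
    omega
  have h24 : (2 : ℕ) ^ E ≤ 4 ^ E := Nat.pow_le_pow_left (by norm_num) _
  have hAn : ‖A‖ ≤ (4 : ℝ) ^ E := by
    rw [Matrix.norm_le_iff (by positivity)]
    intro k jl
    rcases k with k | k
    · have h4 : ‖A (Sum.inl k) jl‖ = ((((jl.1 : ℕ) + m (jl.2 : ℕ)).choose k : ℕ) : ℝ) := by
        simp [A]
      rw [h4]
      exact_mod_cast (hch jl k).trans h24
    · have h4 : ‖A (Sum.inr k) jl‖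
          = (((jl.2 : ℕ) * ((jl.1 : ℕ) + m (jl.2 : ℕ)).choose k : ℕ) : ℝ) := by
        simp [A]
      rw [h4]
      have h5 : (jl.2 : ℕ) * ((jl.1 : ℕ) + m (jl.2 : ℕ)).choose k ≤ 4 ^ E := by
        have h6 : (jl.2 : ℕ) ≤ 2 ^ E := by
          have h7 := jl.2.2
          have h8 : E < 2 ^ E := Nat.lt_two_pow_self
          omega
        calc (jl.2 : ℕ) * ((jl.1 : ℕ) + m (jl.2 : ℕ)).choose k ≤ 2 ^ E * 2 ^ E :=
              Nat.mul_le_mul h6 (hch jl k)
          _ = 4 ^ E := by rw [← mul_pow]; norm_num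
      exact_mod_cast h5
  have hmax : max 1 ‖A‖ ≤ (4 : ℝ) ^ E :=
    max_le (one_le_pow₀ (by norm_num)) hAn
  rw [hcard, hcard2] at htn
  have hbase : (1 : ℝ) ≤ (((D + 1) * (d + 1) : ℕ) : ℝ) * max 1 ‖A‖ := by
    have h1 : (1 : ℝ) ≤ (((D + 1) * (d + 1) : ℕ) : ℝ) := by
      exact_mod_cast Nat.succ_le_of_lt (by positivity)
    have h2 : (1 : ℝ) ≤ max 1 ‖A‖ := le_max_left _ _
    nlinarith
  have hexp : (((N + N' : ℕ) : ℝ)) / ((((D + 1) * (d + 1) : ℕ) : ℝ) - ((N + N' : ℕ) : ℝ)) ≤ e := by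
    have h1 : ((e : ℝ) + 1) * ((N + N' : ℕ) : ℝ) ≤ e * (((D + 1) * (d + 1) : ℕ) : ℝ) := by
      exact_mod_cast h
    have h2 : ((N + N' : ℕ) : ℝ) < (((D + 1) * (d + 1) : ℕ) : ℝ) := by
      exact_mod_cast hNlt
    rw [div_le_iff₀ (by linarith)]
    linarith
  have htn2 : ‖t‖ ≤ ((((D + 1) * (d + 1) : ℕ) : ℝ) * (4 : ℝ) ^ E) ^ e := by
    refine htn.trans ?_
    calc ((((D + 1) * (d + 1) : ℕ) : ℝ) * max 1 ‖A‖) ^
          (((N + N' : ℕ) : ℝ) / ((((D + 1) * (d + 1) : ℕ) : ℝ) - ((N + N' : ℕ) : ℝ)))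
        ≤ ((((D + 1) * (d + 1) : ℕ) : ℝ) * max 1 ‖A‖) ^ (e : ℝ) :=
          Real.rpow_le_rpow_of_exponent_le hbase hexp
      _ = ((((D + 1) * (d + 1) : ℕ) : ℝ) * max 1 ‖A‖) ^ e := Real.rpow_natCast _ _
      _ ≤ _ := by gcongr
  refine ⟨fun j l => if hj : j < D + 1 then (if hl : l < d + 1 then t (⟨j, hj⟩, ⟨l, hl⟩) else 0)
    else 0, ?_, ?_, ?_, ?_⟩
  · have : ∃ jl, t jl ≠ 0 := by
      by_contra hcon
      exact ht0 (funext fun jl => by_contra fun h => hcon ⟨jl, h⟩)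
    obtain ⟨⟨⟨j, hj⟩, ⟨l, hl⟩⟩, hjl⟩ := this
    refine ⟨j, by omega, l, by omega, ?_⟩
    simp only [hj, hl, dif_pos]
    exact hjl
  · intro j l
    by_cases hj : j < D + 1
    · by_cases hl : l < d + 1
      · simp only [hj, hl, dif_pos]
        have h1 : ‖t (⟨j, hj⟩, ⟨l, hl⟩)‖ ≤ ‖t‖ := norm_le_pi_norm t _
        have h2 := h1.trans htn2
        rw [Int.norm_eq_abs] at h2
        have h3 : ((|t (⟨j, hj⟩, ⟨l, hl⟩)| : ℤ) : ℝ)
            ≤ ((((((D + 1) * (d + 1) * 4 ^ E) ^ e : ℕ) : ℤ)) : ℝ) := by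
          push_cast
          push_cast at h2
          exact h2
        exact_mod_cast h3
      · simp only [hj, hl, dif_pos, dif_neg, not_false_eq_true, abs_zero]
        positivity
    · simp only [hj, dif_neg, not_false_eq_true, abs_zero]
      positivity
  · intro k hk
    have h1 : (A.mulVec t) (Sum.inl ⟨k, hk⟩) = 0 := by rw [htA]; rfl
    rw [Finset.sum_range]
    have h2 : ∀ j : Fin (D + 1), ∑ l ∈ range (d + 1),
        (if hj : (j : ℕ) < D + 1 then (if hl : l < d + 1 then t (⟨j, hj⟩, ⟨l, hl⟩) else 0)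
          else 0) * (((j : ℕ) + m l).choose k : ℤ)
        = ∑ l : Fin (d + 1), t (j, l) * (((j : ℕ) + m (l : ℕ)).choose k : ℤ) := by
      intro j
      rw [Finset.sum_range]
      refine Finset.sum_congr rfl ?_
      intro l _
      rw [dif_pos j.2, dif_pos l.2]
    simp only [h2]
    have h3 : (A.mulVec t) (Sum.inl ⟨k, hk⟩) = ∑ j : Fin (D + 1), ∑ l : Fin (d + 1),
        t (j, l) * (((j : ℕ) + m (l : ℕ)).choose k : ℤ) := by
      unfold Matrix.mulVec dotProduct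
      rw [Fintype.sum_prod_type]
      refine Finset.sum_congr rfl ?_
      intro j _
      refine Finset.sum_congr rfl ?_
      intro l _
      simp [A, mul_comm]
    rw [← h3, h1]
  · intro k hk
    have h1 : (A.mulVec t) (Sum.inr ⟨k, hk⟩) = 0 := by rw [htA]; rfl
    rw [Finset.sum_range]
    have h2 : ∀ j : Fin (D + 1), ∑ l ∈ range (d + 1),
        (l : ℤ) * (if hj : (j : ℕ) < D + 1 then
          (if hl : l < d + 1 then t (⟨j, hj⟩, ⟨l, hl⟩) else 0)
          else 0) * (((j : ℕ) + m l).choose k : ℤ)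
        = ∑ l : Fin (d + 1), ((l : ℕ) : ℤ) * t (j, l) * (((j : ℕ) + m (l : ℕ)).choose k : ℤ) := by
      intro j
      rw [Finset.sum_range]
      refine Finset.sum_congr rfl ?_
      intro l _
      rw [dif_pos j.2, dif_pos l.2]
    simp only [h2]
    have h3 : (A.mulVec t) (Sum.inr ⟨k, hk⟩) = ∑ j : Fin (D + 1), ∑ l : Fin (d + 1),
        ((l : ℕ) : ℤ) * t (j, l) * (((j : ℕ) + m (l : ℕ)).choose k : ℤ) := by
      unfold Matrix.mulVec dotProduct
      rw [Fintype.sum_prod_type]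
      refine Finset.sum_congr rfl ?_
      intro j _
      refine Finset.sum_congr rfl ?_
      intro l _
      simp only [A, Matrix.of_apply, Sum.elim_inr]
      ring
    rw [← h3, h1]

/-- Vanishing, with a multiplier. -/
theorem vanish3 {R : Type*} [CommRing R] (m : ℕ → ℕ) (D d N N1 N2 : ℕ) (hNN : N + N2 ≤ N1)
    (c : ℕ → ℕ → ℤ)
    (hc : ∀ k < N1, ∑ j ∈ range (D + 1), ∑ l ∈ range (d + 1),
        c j l * ((j + m l).choose k : ℤ) = 0)
    (y u : R) (hy : u * (y - 1) ^ N = 0) (k : ℕ) (hk : k < N2) :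
    u * ∑ j ∈ range (D + 1), ∑ l ∈ range (d + 1),
        (c j l : R) * ((j + m l).choose k : R) * y ^ (j + m l) = 0 := by
  obtain ⟨G, hG⟩ := aux_dvd2 m D d N1 c hc
  have h1 := taylor_coeff_aux m D d (fun j l => ((c j l : ℤ) : R)) y k
  rw [← h1]
  have h2 : aux m D d (fun j l => ((c j l : ℤ) : R))
      = (X - C 1) ^ N1 * G.map (Int.castRingHom R) := by
    have h3 := aux_map (Int.castRingHom R) m D d c
    have h4 : (fun j l => (Int.castRingHom R) (c j l)) = (fun j l => ((c j l : ℤ) : R)) := by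
      funext j l
      simp
    rw [h4] at h3
    rw [← h3, hG]
    simp
  rw [h2]
  have h5 : taylor y ((X - C (1 : R)) ^ N1 * G.map (Int.castRingHom R))
      = (X + C (y - 1)) ^ N1 * taylor y (G.map (Int.castRingHom R)) := by
    rw [taylor_mul, taylor_pow]
    congr 2
    rw [map_sub, taylor_X, taylor_C, C_sub]
    ring
  rw [h5, coeff_mul]
  have h6 : u * ∑ x ∈ antidiagonal k, ((X + C (y - 1)) ^ N1).coeff x.1 *
      (taylor y (G.map (Int.castRingHom R))).coeff x.2 = 0 := by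
    rw [Finset.mul_sum]
    refine Finset.sum_eq_zero ?_
    intro x hx
    have hx' : x.1 + x.2 = k := Finset.HasAntidiagonal.mem_antidiagonal.1 hx
    rw [coeff_X_add_C_pow]
    have h7 : u * (y - 1) ^ (N1 - x.1) = 0 := by
      have : N1 - x.1 = N + (N1 - x.1 - N) := by omega
      rw [this, pow_add, ← mul_assoc, hy, zero_mul]
    linear_combination (N1.choose x.1 : R) *
      (taylor y (G.map (Int.castRingHom R))).coeff x.2 * h7
  linear_combination y ^ k * h6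

theorem one_add_pow_sq_zero {R : Type*} [CommRing R] (w : R) (hw : w * w = 0) (l : ℕ) :
    (1 + w) ^ l = 1 + (l : R) * w := by
  induction l with
  | zero => simp
  | succ l ih =>
    rw [pow_succ, ih]
    push_cast
    linear_combination (l : R) * hw

theorem bigJ_dvd3 (m : ℕ → ℕ) (D d N N1 N1' N2 M M0 : ℕ) (hNN : 2 * N + N2 ≤ N1)
    (hNN' : N + N2 ≤ N1') (c : ℕ → ℕ → ℤ)
    (hc : ∀ k < N1, ∑ j ∈ range (D + 1), ∑ l ∈ range (d + 1),
        c j l * ((j + m l).choose k : ℤ) = 0)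
    (hc' : ∀ k < N1', ∑ j ∈ range (D + 1), ∑ l ∈ range (d + 1),
        (l : ℤ) * c j l * ((j + m l).choose k : ℤ) = 0)
    (B1 B2 V Y1 Y2 : ℤ) (a : ℕ → ℤ) (hM : M ∣ M0 ^ N) (hB : (M0 : ℤ) ∣ B1 - B2)
    (hrel : ∀ l ≤ d, a l * B1 ^ (m l) * Y2 ^ l = V * B2 ^ (m l) * Y1 ^ l)
    (hY : (M : ℤ) ∣ Y1 - Y2) (hYM : IsCoprime (M : ℤ) Y2)
    (hMB : IsCoprime (M : ℤ) B1) (k : ℕ) (hk : k < N2) :
    ((M ^ 2 : ℕ) : ℤ) ∣ bigJ m D d c B1 B2 a k := by
  rw [← ZMod.intCast_zmod_eq_zero_iff_dvd]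
  have huB : IsUnit ((B1 : ℤ) : ZMod (M ^ 2)) :=
    isUnit_of_isCoprime (by push_cast; exact hMB.pow_left)
  have huY : IsUnit ((Y2 : ℤ) : ZMod (M ^ 2)) :=
    isUnit_of_isCoprime (by push_cast; exact hYM.pow_left)
  obtain ⟨b, hb⟩ := huB.dvd (a := ((B2 : ℤ) : ZMod (M ^ 2)))
  obtain ⟨z, hz⟩ := huY.dvd (a := ((Y1 : ℤ) : ZMod (M ^ 2)))
  have hM2 : (M : ZMod (M ^ 2)) * M = 0 := by
    have h4 : ((M ^ 2 : ℕ) : ZMod (M ^ 2)) = 0 := ZMod.natCast_self _
    push_cast at h4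
    rw [← h4]
    ring
  set w : ZMod (M ^ 2) := z - 1 with hw
  obtain ⟨r, hr⟩ := hY
  have hYw : ((Y2 : ℤ) : ZMod (M ^ 2)) * w = (M : ZMod (M ^ 2)) * ((r : ℤ) : ZMod (M ^ 2)) := by
    have h2 : (((Y1 - Y2 : ℤ)) : ZMod (M ^ 2)) = (((M : ℤ) * r : ℤ) : ZMod (M ^ 2)) := by rw [hr]
    push_cast at h2
    rw [hz] at h2
    rw [hw]
    linear_combination h2
  have hww : w * w = 0 := by
    have h1 : (((Y2 : ℤ) : ZMod (M ^ 2)) ^ 2) * (w * w) = 0 := by
      have h2 : (((Y2 : ℤ) : ZMod (M ^ 2)) ^ 2) * (w * w)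
          = (((Y2 : ℤ) : ZMod (M ^ 2)) * w) * (((Y2 : ℤ) : ZMod (M ^ 2)) * w) := by ring
      rw [h2, hYw]
      linear_combination ((r : ℤ) : ZMod (M ^ 2)) ^ 2 * hM2
    exact ((huY.pow 2).mul_right_eq_zero).1 h1
  obtain ⟨q, hq⟩ := hB
  have hb0 : ((B1 : ℤ) : ZMod (M ^ 2)) * (b - 1)
      = -((M0 : ZMod (M ^ 2)) * ((q : ℤ) : ZMod (M ^ 2))) := by
    have h2 : (((B1 - B2 : ℤ)) : ZMod (M ^ 2)) = (((M0 : ℤ) * q : ℤ) : ZMod (M ^ 2)) := by rw [hq]
    push_cast at h2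
    rw [hb] at h2
    linear_combination -h2
  obtain ⟨n, hn⟩ := hM
  have hM0 : (M0 : ZMod (M ^ 2)) ^ N = (M : ZMod (M ^ 2)) * (n : ZMod (M ^ 2)) := by
    have h1 : ((M0 ^ N : ℕ) : ZMod (M ^ 2)) = ((M * n : ℕ) : ZMod (M ^ 2)) := by rw [hn]
    push_cast at h1
    exact h1
  have hbN : ((B1 : ℤ) : ZMod (M ^ 2)) ^ N * (b - 1) ^ N
      = (-1) ^ N * ((M : ZMod (M ^ 2)) * (n : ZMod (M ^ 2)) * ((q : ℤ) : ZMod (M ^ 2)) ^ N) := by
    rw [← mul_pow, hb0, neg_pow, mul_pow, hM0]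
  have hb2N : (1 : ZMod (M ^ 2)) * (b - 1) ^ (2 * N) = 0 := by
    have h1 : ((B1 : ℤ) : ZMod (M ^ 2)) ^ (2 * N) * (b - 1) ^ (2 * N) = 0 := by
      have h2 : ((B1 : ℤ) : ZMod (M ^ 2)) ^ (2 * N) * (b - 1) ^ (2 * N)
          = (((B1 : ℤ) : ZMod (M ^ 2)) ^ N * (b - 1) ^ N) *
            (((B1 : ℤ) : ZMod (M ^ 2)) ^ N * (b - 1) ^ N) := by
        rw [two_mul, pow_add, pow_add]
        ring
      rw [h2, hbN]
      linear_combination ((-1) ^ N * ((n : ZMod (M ^ 2)) * ((q : ℤ) : ZMod (M ^ 2)) ^ N)) ^ 2 *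
        hM2
    rw [one_mul]
    exact ((huB.pow (2 * N)).mul_right_eq_zero).1 h1
  have hwb : w * (b - 1) ^ N = 0 := by
    have h1 : (((Y2 : ℤ) : ZMod (M ^ 2)) * ((B1 : ℤ) : ZMod (M ^ 2)) ^ N) * (w * (b - 1) ^ N)
        = 0 := by
      have h2 : (((Y2 : ℤ) : ZMod (M ^ 2)) * ((B1 : ℤ) : ZMod (M ^ 2)) ^ N) * (w * (b - 1) ^ N)
          = (((Y2 : ℤ) : ZMod (M ^ 2)) * w) * (((B1 : ℤ) : ZMod (M ^ 2)) ^ N * (b - 1) ^ N) := by
        ring
      rw [h2, hbN, hYw]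
      linear_combination ((r : ℤ) : ZMod (M ^ 2)) * (-1) ^ N * (n : ZMod (M ^ 2)) *
        ((q : ℤ) : ZMod (M ^ 2)) ^ N * hM2
    exact ((huY.mul (huB.pow N)).mul_right_eq_zero).1 h1
  have hab : ∀ l ≤ d, ((a l : ℤ) : ZMod (M ^ 2)) = (V : ZMod (M ^ 2)) * b ^ (m l) *
      (1 + (l : ZMod (M ^ 2)) * w) := by
    intro l hl
    have h1 : (((a l * B1 ^ (m l) * Y2 ^ l : ℤ)) : ZMod (M ^ 2))
        = ((V * B2 ^ (m l) * Y1 ^ l : ℤ) : ZMod (M ^ 2)) := by rw [hrel l hl]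
    push_cast at h1
    rw [hb, hz, mul_pow, mul_pow] at h1
    have hzl : z ^ l = 1 + (l : ZMod (M ^ 2)) * w := by
      have : z = 1 + w := by rw [hw]; ring
      rw [this]
      exact one_add_pow_sq_zero w hww l
    rw [hzl] at h1
    have h2 : (((B1 : ℤ) : ZMod (M ^ 2)) ^ (m l) * ((Y2 : ℤ) : ZMod (M ^ 2)) ^ l) *
        (((a l : ℤ) : ZMod (M ^ 2)) - (V : ZMod (M ^ 2)) * b ^ (m l) *
          (1 + (l : ZMod (M ^ 2)) * w)) = 0 := by
      linear_combination h1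
    have h3 := (((huB.pow (m l)).mul (huY.pow l)).mul_right_eq_zero).1 h2
    exact sub_eq_zero.1 h3
  have hv0 := vanish3 m D d (2 * N) N1 N2 hNN c hc b 1 hb2N k hk
  have hv1 := vanish3 m D d N N1' N2 hNN' (fun j l => (l : ℤ) * c j l) hc' b w hwb k hk
  have hI : ((bigJ m D d c B1 B2 a k : ℤ) : ZMod (M ^ 2))
      = ((B1 : ℤ) : ZMod (M ^ 2)) ^ D * (V : ZMod (M ^ 2)) *
        ((1 * ∑ j ∈ range (D + 1), ∑ l ∈ range (d + 1),
          ((c j l : ℤ) : ZMod (M ^ 2)) * ((j + m l).choose k : ZMod (M ^ 2)) * b ^ (j + m l)) +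
        (w * ∑ j ∈ range (D + 1), ∑ l ∈ range (d + 1),
          ((((l : ℤ) * c j l : ℤ)) : ZMod (M ^ 2)) * ((j + m l).choose k : ZMod (M ^ 2)) *
            b ^ (j + m l))) := by
    unfold bigJ
    push_cast
    rw [one_mul, Finset.mul_sum (a := w), ← Finset.sum_add_distrib, Finset.mul_sum]
    refine Finset.sum_congr rfl ?_
    intro j hj
    rw [Finset.mul_sum, ← Finset.sum_add_distrib, Finset.mul_sum]
    refine Finset.sum_congr rfl ?_
    intro l hl
    rw [Finset.mem_range] at hj hl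
    rw [hab l (by omega), hb]
    have e1 : D = j + (D - j) := by omega
    conv_rhs => rw [e1, pow_add]
    rw [mul_pow, pow_add]
    ring
  rw [hI, hv0, hv1, add_zero, mul_zero]

/-- **The transcendental core** modulo `M ^ 2`. -/
theorem core3 (m : ℕ → ℕ) (a : ℕ → ℤ) (D d N N1 N1' N2 M M0 B1 B2 V E A e : ℕ) (Y1 Y2 : ℤ)
    (hB1 : 0 < B1) (hB2 : 0 < B2) (ha : ∀ l ≤ d, a l ≠ 0)
    (haA : ∀ l ≤ d, |a l| ≤ (A : ℤ))
    (hm : ∀ l < d, m l + D < m (l + 1)) (hmE : m d + D ≤ E)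
    (hNN : 2 * N + N2 ≤ N1) (hNN' : N + N2 ≤ N1') (hN1N1' : N1' ≤ N1) (hN1 : 0 < N1)
    (hSieg : (e + 1) * (N1 + N1') ≤ e * ((D + 1) * (d + 1)))
    (hM : M ∣ M0 ^ N) (hB : (M0 : ℤ) ∣ (B1 : ℤ) - B2) (hne : B1 ≠ B2)
    (hrel : ∀ l ≤ d, a l * (B1 : ℤ) ^ (m l) * Y2 ^ l = V * (B2 : ℤ) ^ (m l) * Y1 ^ l)
    (hY : (M : ℤ) ∣ Y1 - Y2) (hYM : IsCoprime (M : ℤ) Y2)
    (hMB : Nat.Coprime M B1)
    (hsize : ((D + 1) * (d + 1) * 4 ^ E) ^ (e + 1) * (max B1 B2) ^ D * A < M ^ 2)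
    (hzero1 : D < N1 - d)
    (hzero : (d + 1) * D < (N1 - d) + (N1' - d) + (N2 - d)) : False := by
  have hmE' : ∀ l ≤ d, m l + D ≤ E := by
    intro l hl
    have := m_mono m D d hm hl le_rfl
    omega
  have hdm : ∀ l ≤ d, l ≤ m l := by
    intro l
    induction l with
    | zero => intro _; exact Nat.zero_le _
    | succ l ih =>
      intro hl
      have h1 := ih (by omega)
      have h2 := hm l (by omega)
      omega
  have hdE : d ≤ E := by
    have := hdm d le_rfl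
    omega
  obtain ⟨c, hc0, hcK, hc, hc'⟩ := siegel3 m D d N1 N1' E e hN1 hmE' hdE hSieg
  have hI0 : ∀ k < N2, bigJ m D d c B1 B2 a k = 0 := by
    intro k hk
    refine Int.eq_zero_of_abs_lt_dvd (bigJ_dvd3 m D d N N1 N1' N2 M M0 hNN hNN' c hc hc' B1 B2 V
      Y1 Y2 a hM hB hrel hY hYM (Nat.isCoprime_iff_coprime.2 hMB) k hk) ?_
    refine lt_of_le_of_lt (bigJ_abs_le m D d E hmE' c _ hcK B1 B2 A a haA k) ?_
    have h1 : (D + 1) * (d + 1) * (((D + 1) * (d + 1) * 4 ^ E) ^ e * 2 ^ E) *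
        (max B1 B2) ^ D * A
        ≤ ((D + 1) * (d + 1) * 4 ^ E) ^ (e + 1) * (max B1 B2) ^ D * A := by
      have h24 : (2 : ℕ) ^ E ≤ 4 ^ E := Nat.pow_le_pow_left (by norm_num) _
      calc (D + 1) * (d + 1) * (((D + 1) * (d + 1) * 4 ^ E) ^ e * 2 ^ E) *
            (max B1 B2) ^ D * A
          ≤ (D + 1) * (d + 1) * (((D + 1) * (d + 1) * 4 ^ E) ^ e * 4 ^ E) *
            (max B1 B2) ^ D * A := by gcongr
        _ = _ := by
          rw [pow_succ]
          ring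
    exact_mod_cast h1.trans_lt hsize
  set β : ℚ := (B2 : ℚ) / B1 with hβ
  have hB1q : (B1 : ℚ) ≠ 0 := by exact_mod_cast hB1.ne'
  have hB2q : (B2 : ℚ) ≠ 0 := by exact_mod_cast hB2.ne'
  have hβ0 : 0 < β := by
    rw [hβ]
    positivity
  have hβ1 : β ≠ 1 := by
    rw [hβ]
    intro h
    rw [div_eq_one_iff_eq hB1q] at h
    exact hne (by exact_mod_cast h.symm)
  have hz := zeroEst3 m D d N1 N1' N2 hm hN1N1' (fun j l => ((c j l : ℤ) : ℚ)) (by
      obtain ⟨j, hj, l, hl, hjl⟩ := hc0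
      exact ⟨j, hj, l, hl, by exact_mod_cast hjl⟩)
    β (fun l => (a l : ℚ)) hβ0.ne' hβ1 (fun l hl => by exact_mod_cast ha l hl)
    (by
      intro k hk
      have h1 := hc k hk
      exact_mod_cast h1)
    (by
      intro k hk
      have h1 := hc' k hk
      exact_mod_cast h1)
    (by
      intro k hk
      have h1 := hI0 k hk
      have h2 : ((bigJ m D d c B1 B2 a k : ℤ) : ℚ) = 0 := by rw [h1]; simp
      have h3 : ((bigJ m D d c B1 B2 a k : ℤ) : ℚ)
          = (B1 : ℚ) ^ D *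
            ∑ j ∈ range (D + 1), ∑ l ∈ range (d + 1),
              ((c j l : ℤ) : ℚ) * ((j + m l).choose k : ℚ) * β ^ j * (a l : ℚ) := by
        unfold bigJ
        push_cast
        rw [Finset.mul_sum]
        refine Finset.sum_congr rfl ?_
        intro j hj
        rw [Finset.mul_sum]
        refine Finset.sum_congr rfl ?_
        intro l hl
        rw [Finset.mem_range] at hj hl
        have e1 : D = j + (D - j) := by omega
        have e3 : (B2 : ℚ) ^ j = (B1 : ℚ) ^ j * β ^ j := by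
          rw [← mul_pow, hβ, mul_div_cancel₀ _ hB1q]
        conv_rhs => rw [e1, pow_add (B1 : ℚ)]
        rw [e3]
        ring
      rw [h3] at h2
      exact (mul_eq_zero.1 h2).resolve_left (pow_ne_zero _ hB1q))
  rcases hz with hz | hz <;> omega

end Pool.Agent.Lib.AbcQ
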