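import Mathlib
import Pool.Agent.Lib.AbcO.Final
import Pool.Agent.Lib.AbcO.None

/-!
# Every abc-triple: `log c ≤ K rad (abc) ^ (1/4 + ε)`
-/

namespace Pool.Agent.Lib.AbcQ

open Finset Pool.Agent.Lib.Pabc2 Pool.Agent.Lib.AbcH Pool.Agent.Lib.AbcO

/-- The statement of Theorem P (modulus a power of one large prime). -/
def ThmP : Prop := ∀ theta kappa eta : ℝ, 0 < theta → 0 < kappa → kappa < 1 / 4 → 0 < eta →
  ∃ delta : ℝ, 0 < delta ∧ ∃ K : ℝ, 0 < K ∧ ∃ p0 : ℕ, ∀ (p u Z1 Z2 : ℕ) (s : ℤ) (T : ℝ),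
    p.Prime → p0 ≤ p → 0 < Z1 → 0 < Z2 → Nat.Coprime Z1 Z2 → (s = 1 ∨ s = -1) →
    (Z1 : ℤ) ≠ s * Z2 → ((p ^ u : ℕ) : ℤ) ∣ (Z1 : ℤ) - s * Z2 →
    Real.log Z1 ≤ (1 + delta) * (u * Real.log p) →
    Real.log Z2 ≤ (1 + delta) * (u * Real.log p) →
    ∏ q ∈ (Z1 * Z2).primeFactors, (q : ℝ) ≤ T → T ^ theta ≤ p →
    (u : ℝ) ≤ K * (p : ℝ) ^ (1 - kappa) * T ^ eta

/-- The height is at most the prime carrying a member, up to a small power of `r`. -/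
theorem small_prime {κ : ℕ} (hκ : κ ≤ 2) (hE : ThmE2 κ) (δ η : ℝ) (hδ : 0 < δ) (hδ1 : δ ≤ 1)
    (hη : 0 < η) :
    ∃ K : ℝ, 0 < K ∧ ∀ (r : ℕ) (t : ℕ × ℕ) (l : Fin 3) (p : ℕ), 0 < r → IsT t →
      (N t).primeFactors ⊆ r.primeFactors → p.Prime →
      δ * ht t < ((comp t l).factorization p : ℝ) * Real.log p →
      ht t ≤ K * (r : ℝ) ^ (3 * η) * (p : ℝ) ^ κ := by
  classical
  obtain ⟨K, hK, h⟩ := member_light hκ hE δ η hδ hδ1 hη
  refine ⟨K + 1000, by linarith, ?_⟩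
  intro r t l p hr hT hsub hp hmass
  have hr1 : (1 : ℝ) ≤ r := by exact_mod_cast hr
  have hp1 : (1 : ℝ) ≤ p := by exact_mod_cast hp.one_lt.le
  have hh := ht_pos hT
  have e1 : (1 : ℝ) ≤ (r : ℝ) ^ (3 * η) * (p : ℝ) ^ κ :=
    one_le_mul_of_one_le_of_one_le (Real.one_le_rpow hr1 (by positivity)) (one_le_pow₀ hp1)
  have e2 : (K + 1000) * (r : ℝ) ^ (3 * η) * (p : ℝ) ^ κ =
      K * (r : ℝ) ^ (3 * η) * (p : ℝ) ^ κ + 1000 * ((r : ℝ) ^ (3 * η) * (p : ℝ) ^ κ) := by ring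
  have e3 : 0 ≤ K * (r : ℝ) ^ (3 * η) * (p : ℝ) ^ κ := by positivity
  rw [e2]
  by_cases hb : 1000 ≤ ht t
  · have hpd : p ∣ comp t l := by
      by_contra hnd
      rw [Nat.factorization_eq_zero_of_not_dvd hnd] at hmass
      have : 0 < δ * ht t := by positivity
      simp at hmass
      linarith
    have hpN : p ∈ (N t).primeFactors := by
      rw [Nat.mem_primeFactors]
      refine ⟨hp, hpd.trans ?_, hT.N_ne⟩
      have hl : l = 0 ∨ l = 1 ∨ l = 2 := by omega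
      unfold N
      rcases hl with rfl | rfl | rfl
      · simp only [comp, if_true]
        exact ⟨t.2 * (t.1 + t.2), by ring⟩
      · simp only [comp, one_ne_zero, if_false, if_true]
        exact ⟨t.1 * (t.1 + t.2), by ring⟩
      · have f1 : (2 : Fin 3) ≠ 0 := by decide
        have f2 : (2 : Fin 3) ≠ 1 := by decide
        simp only [comp, f1, f2, if_false]
        exact Dvd.intro_left _ rfl
    have h1 := h r (r.primeFactors.erase p) p t l hr hp1 hT hsub (by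
      intro q hq hqS
      by_cases hqp : q = p
      · rw [hqp]
      · exact absurd (Finset.mem_erase.2 ⟨hqp, hq⟩) hqS) hb (by
      refine lt_of_lt_of_le hmass ?_
      have hmem : p ∈ (N t).primeFactors \ r.primeFactors.erase p :=
        Finset.mem_sdiff.2 ⟨hpN, Finset.notMem_erase _ _⟩
      exact Finset.single_le_sum (f := fun q : ℕ => ((comp t l).factorization q : ℝ) * Real.log q)
        (fun q _ => mul_nonneg (Nat.cast_nonneg _) (Real.log_natCast_nonneg _)) hmem)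
    linarith
  · push Not at hb
    linarith

/-- For each member `m` of an abc-triple the other two members, with a sign. -/
theorem signs {t : ℕ × ℕ} (hT : IsT t) {l l1 l2 : Fin 3} (h01 : l ≠ l1) (h12 : l1 ≠ l2)
    (h02 : l ≠ l2) : ∃ s : ℤ, (s = 1 ∨ s = -1) ∧ (comp t l1 : ℤ) ≠ s * comp t l2 ∧
      ((comp t l : ℤ) ∣ (comp t l1 : ℤ) - s * comp t l2) := by
  have ha := hT.1
  have hb := hT.pos2
  have e1 : l = 0 ∨ l = 1 ∨ l = 2 := by omega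
  have e2 : l1 = 0 ∨ l1 = 1 ∨ l1 = 2 := by omega
  have e3 : l2 = 0 ∨ l2 = 1 ∨ l2 = 2 := by omega
  have c0 : comp t 0 = t.1 := rfl
  have c1 : comp t 1 = t.2 := rfl
  have c2 : comp t 2 = t.1 + t.2 := rfl
  rcases e1 with rfl | rfl | rfl <;> rcases e2 with rfl | rfl | rfl <;>
    rcases e3 with rfl | rfl | rfl <;>
    first
    | exact absurd rfl h01
    | exact absurd rfl h12
    | exact absurd rfl h02
    | (rw [c0, c1, c2]
       first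
       | refine ⟨1, Or.inl rfl, by push_cast; omega, ⟨1, by push_cast; ring1⟩⟩
       | refine ⟨1, Or.inl rfl, by push_cast; omega, ⟨-1, by push_cast; ring1⟩⟩
       | refine ⟨-1, Or.inr rfl, by push_cast; omega, ⟨1, by push_cast; ring1⟩⟩)

theorem comp_dvd_N (t : ℕ × ℕ) (l : Fin 3) : comp t l ∣ N t := by
  have hl : l = 0 ∨ l = 1 ∨ l = 2 := by omega
  unfold N
  rcases hl with h | h | h <;> rw [h]
  · simp only [comp, if_true]
    exact ⟨t.2 * (t.1 + t.2), by ring⟩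
  · simp only [comp, one_ne_zero, if_false, if_true]
    exact ⟨t.1 * (t.1 + t.2), by ring⟩
  · have f1 : (2 : Fin 3) ≠ 0 := by decide
    have f2 : (2 : Fin 3) ≠ 1 := by decide
    simp only [comp, f1, f2, if_false]
    exact Dvd.intro_left _ rfl

/-- Each of the three primes bounds the height of a concentrated triple. -/
theorem conc_bound (hE : ThmE2 1) (hP : ThmP) (ε : ℝ) (hε : 0 < ε) :
    ∃ δ : ℝ, 0 < δ ∧ δ ≤ 1 / 10 ∧ ∃ K : ℝ, 0 < K ∧ ∀ (r : ℕ) (P : Fin 3 → ℕ) (t : ℕ × ℕ)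
      (σ : Equiv.Perm (Fin 3)), 0 < r → IsT t → (N t).primeFactors ⊆ r.primeFactors →
      Conc δ (ht t) P (fun i => comp t (σ i)) →
      ∀ i, P i ∣ r ∧ ht t ≤ K * (r : ℝ) ^ ε * (P i : ℝ) ^ (3 / 4 : ℝ) := by
  set η : ℝ := min (ε / 8) (1 / 8) with hη
  have hη0 : 0 < η := lt_min (by positivity) (by norm_num)
  have hη1 : η ≤ ε / 8 := min_le_left _ _
  have hη2 : η ≤ 1 / 8 := min_le_right _ _
  obtain ⟨δ1, hδ1, K1, hK1, p0, h1⟩ := hP η (1 / 4 - η) η hη0 (by linarith) (by linarith) hη0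
  obtain ⟨K2, hK2, h2⟩ := small_prime (by norm_num) hE (1 / 2) η (by norm_num) (by norm_num) hη0
  set δ : ℝ := min (δ1 / 2) (1 / 10) with hδ
  have hδ0 : 0 < δ := lt_min (by positivity) (by norm_num)
  have hδa : δ ≤ δ1 / 2 := min_le_left _ _
  have hδb : δ ≤ 1 / 10 := min_le_right _ _
  refine ⟨δ, hδ0, hδb, K2 * (p0 + 1) + 2 * K1 / η, by positivity, ?_⟩
  intro r P t σ hr hT hsub H i
  have hh := ht_pos hT
  have hr1 : (1 : ℝ) ≤ r := by exact_mod_cast hr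
  have hr0 : (0 : ℝ) < r := by linarith
  have hpr := H.prime i
  have hp1 : (1 : ℝ) ≤ (P i : ℝ) := by exact_mod_cast hpr.one_lt.le
  have hp0 : (0 : ℝ) < (P i : ℝ) := by linarith
  have hup := H.ev_pos (by linarith) hh i
  have hdc : P i ∣ comp t (σ i) := (dvd_pow_self _ hup.ne').trans (H.dvd_pow i)
  have hPr : P i ∣ r := Nat.dvd_of_mem_primeFactors
    (hsub (Nat.mem_primeFactors.2 ⟨hpr, hdc.trans (comp_dvd_N t (σ i)), hT.N_ne⟩))
  refine ⟨hPr, ?_⟩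
  have hPle : (P i : ℝ) ≤ r := by exact_mod_cast Nat.le_of_dvd hr hPr
  have hlb : (1 - δ) * ht t ≤ (ev P (fun i => comp t (σ i)) i : ℝ) * Real.log (P i) := H.lb i
  have hlb9 : 9 / 10 * ht t ≤ (ev P (fun i => comp t (σ i)) i : ℝ) * Real.log (P i) := by
    have : 9 / 10 * ht t ≤ (1 - δ) * ht t := mul_le_mul_of_nonneg_right (by linarith) hh.le
    linarith
  have h3 := h2 r t (σ i) (P i) hr hT hsub hpr (by
    have : (ev P (fun i => comp t (σ i)) i : ℝ) = ((comp t (σ i)).factorization (P i) : ℝ) := rfl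
    rw [← this]
    linarith)
  rw [pow_one] at h3
  have q1 : (1 : ℝ) ≤ (P i : ℝ) ^ (3 / 4 : ℝ) := Real.one_le_rpow hp1 (by norm_num)
  have q2 : (1 : ℝ) ≤ (r : ℝ) ^ ε := Real.one_le_rpow hr1 hε.le
  have q3 : 0 ≤ (r : ℝ) ^ ε * (P i : ℝ) ^ (3 / 4 : ℝ) := by positivity
  have hp00 : (0 : ℝ) ≤ (p0 : ℝ) := Nat.cast_nonneg _
  have hsplit : (K2 * (p0 + 1) + 2 * K1 / η) * (r : ℝ) ^ ε * (P i : ℝ) ^ (3 / 4 : ℝ) =
      K2 * p0 * ((r : ℝ) ^ ε * (P i : ℝ) ^ (3 / 4 : ℝ)) +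
      K2 * ((r : ℝ) ^ ε * (P i : ℝ) ^ (3 / 4 : ℝ)) +
      2 * K1 / η * ((r : ℝ) ^ ε * (P i : ℝ) ^ (3 / 4 : ℝ)) := by ring
  have n1 : 0 ≤ K2 * p0 * ((r : ℝ) ^ ε * (P i : ℝ) ^ (3 / 4 : ℝ)) := by positivity
  have n2 : 0 ≤ K2 * ((r : ℝ) ^ ε * (P i : ℝ) ^ (3 / 4 : ℝ)) := by positivity
  have n3 : 0 ≤ 2 * K1 / η * ((r : ℝ) ^ ε * (P i : ℝ) ^ (3 / 4 : ℝ)) := by positivity
  rw [hsplit]
  have hpow : ∀ x : ℝ, x ≤ 8 * η → (r : ℝ) ^ x ≤ (r : ℝ) ^ ε := fun x hx =>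
    Real.rpow_le_rpow_of_exponent_le hr1 (by linarith)
  by_cases hc1 : P i < p0
  · have hc1' : (P i : ℝ) ≤ p0 := by exact_mod_cast hc1.le
    have : K2 * (r : ℝ) ^ (3 * η) * (P i : ℝ) ≤
        K2 * p0 * ((r : ℝ) ^ ε * (P i : ℝ) ^ (3 / 4 : ℝ)) := by
      calc K2 * (r : ℝ) ^ (3 * η) * (P i : ℝ) ≤ K2 * (r : ℝ) ^ ε * p0 := by
            gcongr
            linarith
        _ = K2 * p0 * ((r : ℝ) ^ ε * 1) := by ring
        _ ≤ _ := by gcongr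
    linarith
  · push Not at hc1
    by_cases hc2 : (P i : ℝ) < (r : ℝ) ^ η
    · have : K2 * (r : ℝ) ^ (3 * η) * (P i : ℝ) ≤
          K2 * ((r : ℝ) ^ ε * (P i : ℝ) ^ (3 / 4 : ℝ)) := by
        calc K2 * (r : ℝ) ^ (3 * η) * (P i : ℝ) ≤ K2 * (r : ℝ) ^ (3 * η) * (r : ℝ) ^ η := by
              gcongr
          _ = K2 * (r : ℝ) ^ (3 * η + η) := by
              rw [mul_assoc, ← Real.rpow_add hr0]
          _ ≤ K2 * ((r : ℝ) ^ ε * 1) := by
              rw [mul_one]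
              gcongr
              linarith
          _ ≤ _ := by gcongr
      linarith
    · push Not at hc2
      -- the other two members
      obtain ⟨j, k, hij, hjk, hik⟩ : ∃ j k : Fin 3, i ≠ j ∧ j ≠ k ∧ i ≠ k := by
        have : i = 0 ∨ i = 1 ∨ i = 2 := by omega
        rcases this with rfl | rfl | rfl
        · exact ⟨1, 2, by decide, by decide, by decide⟩
        · exact ⟨0, 2, by decide, by decide, by decide⟩
        · exact ⟨0, 1, by decide, by decide, by decide⟩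
      obtain ⟨s, hs, hne, hdvd⟩ := signs hT (σ.injective.ne hij) (σ.injective.ne hjk)
        (σ.injective.ne hik)
      have hlogle : ∀ l : Fin 3, Real.log (comp t (σ l) : ℝ) ≤
          (1 + δ1) * ((ev P (fun i => comp t (σ i)) i : ℝ) * Real.log (P i)) := by
        intro l
        have e1 : Real.log (comp t (σ l) : ℝ) ≤ ht t := H.ub l
        have e2 : 1 ≤ (1 + δ1) * (1 - δ) := by nlinarith
        calc Real.log (comp t (σ l) : ℝ) ≤ 1 * ht t := by linarith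
          _ ≤ (1 + δ1) * (1 - δ) * ht t := mul_le_mul_of_nonneg_right e2 hh.le
          _ = (1 + δ1) * ((1 - δ) * ht t) := by ring
          _ ≤ _ := mul_le_mul_of_nonneg_left hlb (by linarith)
      have h4 := h1 (P i) (ev P (fun i => comp t (σ i)) i) (comp t (σ j)) (comp t (σ k)) s r
        hpr hc1 (comp_pos hT _) (comp_pos hT _) (comp_cop hT (σ.injective.ne hjk)) hs hne
        ((Int.natCast_dvd_natCast.2 (H.dvd_pow i)).trans hdvd) (hlogle j) (hlogle k) (by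
          apply prod_primeFactors_le hr
          intro q hq
          apply hsub
          have hq' := Nat.mem_primeFactors.1 hq
          refine Nat.mem_primeFactors.2 ⟨hq'.1, ?_, hT.N_ne⟩
          rcases (hq'.1.dvd_mul).1 hq'.2.1 with h | h
          · exact h.trans (comp_dvd_N t _)
          · exact h.trans (comp_dvd_N t _)) hc2
      have h5 : Real.log (P i) ≤ (r : ℝ) ^ η / η :=
        (Real.log_le_log hp0 hPle).trans (Real.log_le_rpow_div hr0.le hη0)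
      have h6 : (P i : ℝ) ^ (1 - (1 / 4 - η)) ≤ (P i : ℝ) ^ (3 / 4 : ℝ) * (r : ℝ) ^ η := by
        rw [show 1 - (1 / 4 - η) = 3 / 4 + η by ring, Real.rpow_add hp0]
        gcongr
      have h7 : 9 / 10 * ht t ≤ K1 / η * ((r : ℝ) ^ ε * (P i : ℝ) ^ (3 / 4 : ℝ)) := by
        calc 9 / 10 * ht t ≤ (ev P (fun i => comp t (σ i)) i : ℝ) * Real.log (P i) := hlb9
          _ ≤ (K1 * (P i : ℝ) ^ (1 - (1 / 4 - η)) * (r : ℝ) ^ η) * ((r : ℝ) ^ η / η) := by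
              apply mul_le_mul h4 h5 (Real.log_nonneg hp1) (by positivity)
          _ ≤ (K1 * ((P i : ℝ) ^ (3 / 4 : ℝ) * (r : ℝ) ^ η) * (r : ℝ) ^ η) *
              ((r : ℝ) ^ η / η) := by gcongr
          _ = K1 / η * (((r : ℝ) ^ η * (r : ℝ) ^ η * (r : ℝ) ^ η) * (P i : ℝ) ^ (3 / 4 : ℝ)) := by
              field_simp
          _ = K1 / η * ((r : ℝ) ^ (η + η + η) * (P i : ℝ) ^ (3 / 4 : ℝ)) := by
              rw [Real.rpow_add hr0, Real.rpow_add hr0]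
          _ ≤ _ := by
              gcongr
              linarith
      have h8 : 2 * K1 / η * ((r : ℝ) ^ ε * (P i : ℝ) ^ (3 / 4 : ℝ)) =
          2 * (K1 / η * ((r : ℝ) ^ ε * (P i : ℝ) ^ (3 / 4 : ℝ))) := by ring
      rw [h8]
      linarith

/-- **No exception**, for pairs: `Pb` bounds the prime factors of `r` outside a set `S` of at most
three primes, and `q ∈ S`. -/
theorem quarter_pair (hE : ThmE2 1) (hI : HInf) (hP : ThmP) (ε : ℝ) (hε : 0 < ε) :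
    ∃ K : ℝ, 0 < K ∧ ∀ (r : ℕ) (S : Finset ℕ) (Pb : ℝ) (q : ℕ) (t : ℕ × ℕ), 0 < r → 1 ≤ Pb →
      S.card ≤ 3 → (∀ p ∈ S, p.Prime) → q ∈ S → (∀ p ∈ r.primeFactors, p ∉ S → (p : ℝ) ≤ Pb) →
      IsT t → (N t).primeFactors ⊆ r.primeFactors →
      ht t ≤ K * (r : ℝ) ^ ε * max Pb ((q : ℝ) ^ (3 / 4 : ℝ)) := by
  obtain ⟨δ, hδ, hδ1, K1, hK1, h1⟩ := conc_bound hE hP ε hε
  obtain ⟨K2, hK2, h2⟩ := struct (by norm_num) hE hI δ (ε / 3) hδ hδ1 (by positivity)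
  refine ⟨K1 + K2, by positivity, ?_⟩
  intro r S Pb q t hr hPb hS hSp hqS hPS hT hsub
  have hr1 : (1 : ℝ) ≤ r := by exact_mod_cast hr
  have hr0 : (0 : ℝ) < r := by linarith
  have hq1 : (1 : ℝ) ≤ q := by exact_mod_cast (hSp q hqS).one_lt.le
  have m1 : Pb ≤ max Pb ((q : ℝ) ^ (3 / 4 : ℝ)) := le_max_left _ _
  have m2 : (q : ℝ) ^ (3 / 4 : ℝ) ≤ max Pb ((q : ℝ) ^ (3 / 4 : ℝ)) := le_max_right _ _
  have m0 : 0 ≤ max Pb ((q : ℝ) ^ (3 / 4 : ℝ)) := by linarith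
  have hsplit : (K1 + K2) * (r : ℝ) ^ ε * max Pb ((q : ℝ) ^ (3 / 4 : ℝ)) =
      K1 * (r : ℝ) ^ ε * max Pb ((q : ℝ) ^ (3 / 4 : ℝ)) +
      K2 * (r : ℝ) ^ ε * max Pb ((q : ℝ) ^ (3 / 4 : ℝ)) := by ring
  have n1 : 0 ≤ K1 * (r : ℝ) ^ ε * max Pb ((q : ℝ) ^ (3 / 4 : ℝ)) := by positivity
  have n2 : 0 ≤ K2 * (r : ℝ) ^ ε * max Pb ((q : ℝ) ^ (3 / 4 : ℝ)) := by positivity
  rw [hsplit]
  obtain ⟨P, hPp, hPinj, hPS'⟩ := exists_three S hSp hS
  have hP' : ∀ p ∈ r.primeFactors, (∀ i, p ≠ P i) → (p : ℝ) ≤ Pb := by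
    intro p hp hne
    apply hPS p hp
    intro hpS
    obtain ⟨i, hi⟩ := hPS' p hpS
    exact hne i hi.symm
  by_cases hb : K2 * (r : ℝ) ^ (3 * (ε / 3)) * Pb ^ 1 < ht t
  · obtain ⟨σ, H⟩ := h2 r P Pb t hr hPb hPp hPinj hP' hT hsub hb
    obtain ⟨i, hi⟩ := hPS' q hqS
    obtain ⟨_, h3⟩ := h1 r P t σ hr hT hsub H i
    rw [hi] at h3
    have : K1 * (r : ℝ) ^ ε * (q : ℝ) ^ (3 / 4 : ℝ) ≤
        K1 * (r : ℝ) ^ ε * max Pb ((q : ℝ) ^ (3 / 4 : ℝ)) := by gcongr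
    linarith
  · push Not at hb
    rw [show 3 * (ε / 3) = ε by ring, pow_one] at hb
    have : K2 * (r : ℝ) ^ ε * Pb ≤ K2 * (r : ℝ) ^ ε * max Pb ((q : ℝ) ^ (3 / 4 : ℝ)) := by
      gcongr
    linarith

/-- **No exception**: at most three prime factors of `r` exceed `P` and at most two exceed `Q`. -/
theorem quarter_P (hE : ThmE2 1) (hI : HInf) (hP : ThmP) (ε : ℝ) (hε : 0 < ε) :
    ∃ K : ℝ, 0 < K ∧ ∀ (r : ℕ) (P Q : ℝ), 0 < r → 1 ≤ P → 0 ≤ Q → exc r P ≤ 3 → exc r Q ≤ 2 →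
      high r (K * (r : ℝ) ^ ε * max P (Q ^ (3 / 4 : ℝ))) = ∅ := by
  classical
  obtain ⟨K1, hK1, h1⟩ := quarter_pair hE hI hP ε hε
  obtain ⟨K2, hK2, h2⟩ := none_P (by norm_num) hE hI ε hε
  refine ⟨K1 + K2, by positivity, ?_⟩
  intro r P Q hr hP1 hQ hex hex2
  have hr1 : (1 : ℝ) ≤ r := by exact_mod_cast hr
  have hr0 : (0 : ℝ) < r := by linarith
  have m1 : P ≤ max P (Q ^ (3 / 4 : ℝ)) := le_max_left _ _
  have m2 : Q ^ (3 / 4 : ℝ) ≤ max P (Q ^ (3 / 4 : ℝ)) := le_max_right _ _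
  have m0 : 0 ≤ max P (Q ^ (3 / 4 : ℝ)) := by linarith
  have hsplit : (K1 + K2) * (r : ℝ) ^ ε * max P (Q ^ (3 / 4 : ℝ)) =
      K1 * (r : ℝ) ^ ε * max P (Q ^ (3 / 4 : ℝ)) +
      K2 * (r : ℝ) ^ ε * max P (Q ^ (3 / 4 : ℝ)) := by ring
  have n1 : 0 ≤ K1 * (r : ℝ) ^ ε * max P (Q ^ (3 / 4 : ℝ)) := by positivity
  have n2 : 0 ≤ K2 * (r : ℝ) ^ ε * max P (Q ^ (3 / 4 : ℝ)) := by positivity
  rw [hsplit]
  set S := r.primeFactors.filter (fun p : ℕ => P < p) with hS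
  have hSP : ∀ p ∈ r.primeFactors, p ∉ S → (p : ℝ) ≤ P := by
    intro p hp hpS
    by_contra hcon
    push Not at hcon
    exact hpS (Finset.mem_filter.2 ⟨hp, hcon⟩)
  by_cases hc : S.card ≤ 2
  · have h3 := h2 r S P hr hP1 hc hSP
    rw [pow_one] at h3
    rw [Set.eq_empty_iff_forall_notMem] at h3 ⊢
    intro t ht
    apply h3 t
    refine high_anti r ?_ ht
    have : K2 * (r : ℝ) ^ ε * P ≤ K2 * (r : ℝ) ^ ε * max P (Q ^ (3 / 4 : ℝ)) := by gcongr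
    linarith
  · obtain ⟨q, hqS, hqQ⟩ : ∃ q ∈ S, (q : ℝ) ≤ Q := by
      by_contra hcon
      push Not at hcon
      apply hc
      refine (Finset.card_le_card ?_).trans hex2
      intro p hp
      exact Finset.mem_filter.2 ⟨Finset.filter_subset _ _ hp, hcon p hp⟩
    rw [Set.eq_empty_iff_forall_notMem]
    rintro ⟨a, b, c⟩ h
    obtain ⟨t1, t2, t3⟩ := toPair hr h
    have h3 := h1 r S P q _ hr hP1 hex
      (fun p hp => Nat.prime_of_mem_primeFactors (Finset.filter_subset _ _ hp)) hqS hSP t1 t2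
    have : K1 * (r : ℝ) ^ ε * max P ((q : ℝ) ^ (3 / 4 : ℝ)) ≤
        K1 * (r : ℝ) ^ ε * max P (Q ^ (3 / 4 : ℝ)) := by gcongr
    linarith

/-- **No exception**: every abc-triple composed of primes of `r` has
`log c ≤ K r ^ (1 / 4 + ε)`. -/
theorem quarter (hE : ThmE2 1) (hI : HInf) (hP : ThmP) (ε : ℝ) (hε : 0 < ε) :
    ∃ K : ℝ, 0 < K ∧ ∀ r : ℕ, 0 < r → high r (K * (r : ℝ) ^ (1 / 4 + ε)) = ∅ := by
  obtain ⟨K, hK, h1⟩ := quarter_P hE hI hP ε hε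
  refine ⟨K, hK, ?_⟩
  intro r hr
  have hr1 : (1 : ℝ) ≤ r := by exact_mod_cast hr
  have hr0 : (0 : ℝ) < r := by linarith
  have h3 := card_large r 3 hr
  have h2 := card_large r 2 hr
  norm_num at h3 h2
  have h5 := h1 r ((r : ℝ) ^ ((1 : ℝ) / 4)) ((r : ℝ) ^ ((1 : ℝ) / 3)) hr
    (Real.one_le_rpow hr1 (by norm_num)) (by positivity) h3 h2
  rw [← Real.rpow_mul hr0.le, show (1 : ℝ) / 3 * (3 / 4) = 1 / 4 by norm_num, max_self, mul_assoc,
    ← Real.rpow_add hr0, add_comm ε] at h5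
  exact h5

/-- **Every abc-triple** has `log c ≤ K rad (abc) ^ (1 / 4 + ε)`. -/
theorem quarter_abs (hE : ThmE2 1) (hI : HInf) (hP : ThmP) (ε : ℝ) (hε : 0 < ε) :
    ∃ K : ℝ, 0 < K ∧ ∀ a b c : ℕ, AbcTriple a b c →
      Real.log c ≤ K * (rad (a * b * c) : ℝ) ^ (1 / 4 + ε) := by
  obtain ⟨K, hK, h1⟩ := quarter hE hI hP ε hε
  refine ⟨K, hK, ?_⟩
  intro a b c h
  have hc : 0 < c := by have := h.1; have := h.2.2.1; omega
  have hne : a * b * c ≠ 0 := by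
    have := h.1
    have := h.2.1
    positivity
  by_contra hcon
  push Not at hcon
  have h2 := h1 (rad (a * b * c)) (rad_pos _)
  rw [Set.eq_empty_iff_forall_notMem] at h2
  exact h2 (a, b, c) ⟨h, (rad_dvd_iff hne).1 dvd_rfl, hcon⟩

end Pool.Agent.Lib.AbcQ
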