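import Mathlib
import Pool.Agent.Lib.AbcO.Final
import Pool.Agent.Lib.AbcO.None
import Pool.Agent.Lib.AbcQ.Final

/-!
# From the prime power bound to all abc-triples, member by member
-/

namespace Pool.Agent.Lib.AbcQ

open Finset Pool.Agent.Lib.Pabc2 Pool.Agent.Lib.AbcH Pool.Agent.Lib.AbcO

/-- The statement of Theorem P with all exponents `1 - kappa`, `kappa < κs`. -/
def ThmPk (κs : ℝ) : Prop := ∀ theta kappa eta : ℝ, 0 < theta → 0 < kappa → kappa < κs → 0 < eta →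
  ∃ delta : ℝ, 0 < delta ∧ ∃ K : ℝ, 0 < K ∧ ∃ p0 : ℕ, ∀ (p u Z1 Z2 : ℕ) (s : ℤ) (T : ℝ),
    p.Prime → p0 ≤ p → 0 < Z1 → 0 < Z2 → Nat.Coprime Z1 Z2 → (s = 1 ∨ s = -1) →
    (Z1 : ℤ) ≠ s * Z2 → ((p ^ u : ℕ) : ℤ) ∣ (Z1 : ℤ) - s * Z2 →
    Real.log Z1 ≤ (1 + delta) * (u * Real.log p) →
    Real.log Z2 ≤ (1 + delta) * (u * Real.log p) →
    ∏ q ∈ (Z1 * Z2).primeFactors, (q : ℝ) ≤ T → T ^ theta ≤ p →
    (u : ℝ) ≤ K * (p : ℝ) ^ (1 - kappa) * T ^ eta

/-- A member which is essentially a power of the prime `p`: the prime `p` bounds the height. -/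
theorem pure_bound (κs : ℝ) (hκ0 : 0 < κs) (hκ1 : κs ≤ 1 / 2) (hE : ThmE2 1) (hP : ThmPk κs)
    (ε : ℝ) (hε : 0 < ε) :
    ∃ δ : ℝ, 0 < δ ∧ δ ≤ 1 / 10 ∧ ∃ K : ℝ, 0 < K ∧ ∀ (r : ℕ) (t : ℕ × ℕ) (l : Fin 3) (p : ℕ),
      0 < r → IsT t → (N t).primeFactors ⊆ r.primeFactors → p.Prime →
      (1 - δ) * ht t ≤ ((comp t l).factorization p : ℝ) * Real.log p →
      ht t ≤ K * (r : ℝ) ^ ε * (p : ℝ) ^ (1 - κs) := by
  set η : ℝ := min (ε / 8) (κs / 2) with hη
  have hη0 : 0 < η := lt_min (by positivity) (by positivity)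
  have hη1 : η ≤ ε / 8 := min_le_left _ _
  have hη2 : η ≤ κs / 2 := min_le_right _ _
  obtain ⟨δ1, hδ1, K1, hK1, p0, h1⟩ := hP η (κs - η) η hη0 (by linarith) (by linarith) hη0
  obtain ⟨K2, hK2, h2⟩ := small_prime (by norm_num) hE (1 / 2) η (by norm_num) (by norm_num) hη0
  set δ : ℝ := min (δ1 / 2) (1 / 10) with hδ
  have hδ0 : 0 < δ := lt_min (by positivity) (by norm_num)
  have hδa : δ ≤ δ1 / 2 := min_le_left _ _
  have hδb : δ ≤ 1 / 10 := min_le_right _ _
  refine ⟨δ, hδ0, hδb, K2 * (p0 + 1) + 2 * K1 / η, by positivity, ?_⟩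
  intro r t l p hr hT hsub hpr hlb
  have hh := ht_pos hT
  have hr1 : (1 : ℝ) ≤ r := by exact_mod_cast hr
  have hr0 : (0 : ℝ) < r := by linarith
  have hp1 : (1 : ℝ) ≤ (p : ℝ) := by exact_mod_cast hpr.one_lt.le
  have hp0 : (0 : ℝ) < (p : ℝ) := by linarith
  set u : ℕ := (comp t l).factorization p with hu
  have hlb9 : 9 / 10 * ht t ≤ (u : ℝ) * Real.log p := by
    have : 9 / 10 * ht t ≤ (1 - δ) * ht t := mul_le_mul_of_nonneg_right (by linarith) hh.le
    linarith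
  have hpd : p ∣ comp t l := by
    by_contra hnd
    rw [hu, Nat.factorization_eq_zero_of_not_dvd hnd] at hlb9
    have : 0 < 9 / 10 * ht t := by positivity
    simp at hlb9
    linarith
  have hPr : p ∣ r := Nat.dvd_of_mem_primeFactors
    (hsub (Nat.mem_primeFactors.2 ⟨hpr, hpd.trans (comp_dvd_N t l), hT.N_ne⟩))
  have hPle : (p : ℝ) ≤ r := by exact_mod_cast Nat.le_of_dvd hr hPr
  have h3 := h2 r t l p hr hT hsub hpr (by linarith)
  rw [pow_one] at h3
  have hx0 : (0 : ℝ) ≤ 1 - κs := by linarith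
  have q1 : (1 : ℝ) ≤ (p : ℝ) ^ (1 - κs) := Real.one_le_rpow hp1 hx0
  have q2 : (1 : ℝ) ≤ (r : ℝ) ^ ε := Real.one_le_rpow hr1 hε.le
  have q3 : 0 ≤ (r : ℝ) ^ ε * (p : ℝ) ^ (1 - κs) := by positivity
  have hp00 : (0 : ℝ) ≤ (p0 : ℝ) := Nat.cast_nonneg _
  have hsplit : (K2 * (p0 + 1) + 2 * K1 / η) * (r : ℝ) ^ ε * (p : ℝ) ^ (1 - κs) =
      K2 * p0 * ((r : ℝ) ^ ε * (p : ℝ) ^ (1 - κs)) +
      K2 * ((r : ℝ) ^ ε * (p : ℝ) ^ (1 - κs)) +
      2 * K1 / η * ((r : ℝ) ^ ε * (p : ℝ) ^ (1 - κs)) := by ring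
  have n1 : 0 ≤ K2 * p0 * ((r : ℝ) ^ ε * (p : ℝ) ^ (1 - κs)) := by positivity
  have n2 : 0 ≤ K2 * ((r : ℝ) ^ ε * (p : ℝ) ^ (1 - κs)) := by positivity
  have n3 : 0 ≤ 2 * K1 / η * ((r : ℝ) ^ ε * (p : ℝ) ^ (1 - κs)) := by positivity
  rw [hsplit]
  by_cases hc1 : p < p0
  · have hc1' : (p : ℝ) ≤ p0 := by exact_mod_cast hc1.le
    have : K2 * (r : ℝ) ^ (3 * η) * (p : ℝ) ≤
        K2 * p0 * ((r : ℝ) ^ ε * (p : ℝ) ^ (1 - κs)) := by
      calc K2 * (r : ℝ) ^ (3 * η) * (p : ℝ) ≤ K2 * (r : ℝ) ^ ε * p0 := by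
            gcongr
            linarith
        _ = K2 * p0 * ((r : ℝ) ^ ε * 1) := by ring
        _ ≤ _ := by gcongr
    linarith
  · push Not at hc1
    by_cases hc2 : (p : ℝ) < (r : ℝ) ^ η
    · have : K2 * (r : ℝ) ^ (3 * η) * (p : ℝ) ≤
          K2 * ((r : ℝ) ^ ε * (p : ℝ) ^ (1 - κs)) := by
        calc K2 * (r : ℝ) ^ (3 * η) * (p : ℝ) ≤ K2 * (r : ℝ) ^ (3 * η) * (r : ℝ) ^ η := by
              gcongr
          _ = K2 * (r : ℝ) ^ (3 * η + η) := by
              rw [mul_assoc, ← Real.rpow_add hr0]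
          _ ≤ K2 * ((r : ℝ) ^ ε * 1) := by
              rw [mul_one]
              gcongr
              linarith
          _ ≤ _ := by gcongr
      linarith
    · push Not at hc2
      -- the other two members
      obtain ⟨j, k, hij, hjk, hik⟩ : ∃ j k : Fin 3, l ≠ j ∧ j ≠ k ∧ l ≠ k := by
        have : l = 0 ∨ l = 1 ∨ l = 2 := by omega
        rcases this with rfl | rfl | rfl
        · exact ⟨1, 2, by decide, by decide, by decide⟩
        · exact ⟨0, 2, by decide, by decide, by decide⟩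
        · exact ⟨0, 1, by decide, by decide, by decide⟩
      obtain ⟨s, hs, hne, hdvd⟩ := signs hT hij hjk hik
      have hlogc : ∀ m : Fin 3, Real.log (comp t m : ℝ) ≤ ht t := by
        intro m
        have hpos : (0 : ℝ) < (comp t m : ℝ) := by exact_mod_cast comp_pos hT m
        unfold ht
        apply Real.log_le_log hpos
        have hle : comp t m ≤ t.1 + t.2 := by
          have : m = 0 ∨ m = 1 ∨ m = 2 := by omega
          rcases this with rfl | rfl | rfl
          · show t.1 ≤ t.1 + t.2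
            omega
          · show t.2 ≤ t.1 + t.2
            omega
          · exact le_rfl
        exact_mod_cast hle
      have hlogle : ∀ m : Fin 3, Real.log (comp t m : ℝ) ≤
          (1 + δ1) * ((u : ℝ) * Real.log p) := by
        intro m
        have e1 := hlogc m
        have e2 : 1 ≤ (1 + δ1) * (1 - δ) := by nlinarith
        calc Real.log (comp t m : ℝ) ≤ 1 * ht t := by linarith
          _ ≤ (1 + δ1) * (1 - δ) * ht t := mul_le_mul_of_nonneg_right e2 hh.le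
          _ = (1 + δ1) * ((1 - δ) * ht t) := by ring
          _ ≤ _ := mul_le_mul_of_nonneg_left hlb (by linarith)
      have h4 := h1 p u (comp t j) (comp t k) s r
        hpr hc1 (comp_pos hT _) (comp_pos hT _) (comp_cop hT hjk) hs hne
        ((Int.natCast_dvd_natCast.2 (Nat.ordProj_dvd _ _)).trans hdvd) (hlogle j) (hlogle k) (by
          apply prod_primeFactors_le hr
          intro q hq
          apply hsub
          have hq' := Nat.mem_primeFactors.1 hq
          refine Nat.mem_primeFactors.2 ⟨hq'.1, ?_, hT.N_ne⟩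
          rcases (hq'.1.dvd_mul).1 hq'.2.1 with h | h
          · exact h.trans (comp_dvd_N t _)
          · exact h.trans (comp_dvd_N t _)) hc2
      have h5 : Real.log p ≤ (r : ℝ) ^ η / η :=
        (Real.log_le_log hp0 hPle).trans (Real.log_le_rpow_div hr0.le hη0)
      have h6 : (p : ℝ) ^ (1 - (κs - η)) ≤ (p : ℝ) ^ (1 - κs) * (r : ℝ) ^ η := by
        rw [show 1 - (κs - η) = (1 - κs) + η by ring, Real.rpow_add hp0]
        gcongr
      have h7 : 9 / 10 * ht t ≤ K1 / η * ((r : ℝ) ^ ε * (p : ℝ) ^ (1 - κs)) := by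
        calc 9 / 10 * ht t ≤ (u : ℝ) * Real.log p := hlb9
          _ ≤ (K1 * (p : ℝ) ^ (1 - (κs - η)) * (r : ℝ) ^ η) * ((r : ℝ) ^ η / η) := by
              apply mul_le_mul h4 h5 (Real.log_nonneg hp1) (by positivity)
          _ ≤ (K1 * ((p : ℝ) ^ (1 - κs) * (r : ℝ) ^ η) * (r : ℝ) ^ η) *
              ((r : ℝ) ^ η / η) := by gcongr
          _ = K1 / η * (((r : ℝ) ^ η * (r : ℝ) ^ η * (r : ℝ) ^ η) * (p : ℝ) ^ (1 - κs)) := by
              field_simp
          _ = K1 / η * ((r : ℝ) ^ (η + η + η) * (p : ℝ) ^ (1 - κs)) := by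
              rw [Real.rpow_add hr0, Real.rpow_add hr0]
          _ ≤ _ := by
              gcongr
              linarith
      have h8 : 2 * K1 / η * ((r : ℝ) ^ ε * (p : ℝ) ^ (1 - κs)) =
          2 * (K1 / η * ((r : ℝ) ^ ε * (p : ℝ) ^ (1 - κs))) := by ring
      rw [h8]
      linarith

theorem log_comp_le {t : ℕ × ℕ} (hT : IsT t) (m : Fin 3) : Real.log (comp t m : ℝ) ≤ ht t := by
  have hpos : (0 : ℝ) < (comp t m : ℝ) := by exact_mod_cast comp_pos hT m
  unfold ht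
  apply Real.log_le_log hpos
  have hle : comp t m ≤ t.1 + t.2 := by
    have : m = 0 ∨ m = 1 ∨ m = 2 := by omega
    rcases this with rfl | rfl | rfl
    · show t.1 ≤ t.1 + t.2
      omega
    · show t.2 ≤ t.1 + t.2
      omega
    · exact le_rfl
  exact_mod_cast hle

/-- Every member of a tall triple is almost as large as `c`. -/
theorem member_large (hI : HInf) (δ η : ℝ) (hδ : 0 < δ) (hδ1 : δ ≤ 1 / 2) (hη : 0 < η) :
    ∃ K : ℝ, 0 < K ∧ ∀ (r : ℕ) (t : ℕ × ℕ) (l : Fin 3), 0 < r → IsT t →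
      (N t).primeFactors ⊆ r.primeFactors → K * (r : ℝ) ^ η < ht t →
      (1 - δ) * ht t ≤ Real.log (comp t l) := by
  obtain ⟨K, hK, h⟩ := hI δ η hδ hη
  refine ⟨K + 1 / δ, by positivity, ?_⟩
  intro r t l hr hT hsub hb
  have hr1 : (1 : ℝ) ≤ r := by exact_mod_cast hr
  have e1 : (1 : ℝ) ≤ (r : ℝ) ^ η := Real.one_le_rpow hr1 hη.le
  have hh := ht_pos hT
  have hKr : 0 < K * (r : ℝ) ^ η := by positivity
  have hδr : 1 / δ ≤ 1 / δ * (r : ℝ) ^ η := le_mul_of_one_le_right (by positivity) e1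
  have hb' : K * (r : ℝ) ^ η + 1 / δ * (r : ℝ) ^ η < ht t := by
    rw [← add_mul]
    exact hb
  have hδh : 1 ≤ δ * ht t := by
    have : 1 / δ ≤ ht t := by linarith
    rw [div_le_iff₀ hδ] at this
    linarith
  obtain ⟨ha, hab, hcop⟩ := id hT
  have hbp : 0 < t.2 := hT.pos2
  have ha0 : (0 : ℝ) < t.1 := by exact_mod_cast ha
  have hb0 : (0 : ℝ) < t.2 := by exact_mod_cast hbp
  have hht : ht t = Real.log ((t.1 : ℝ) + t.2) := rfl
  have hsp : (1 - δ) * ht t = ht t - δ * ht t := by ring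
  have hl : l = 0 ∨ l = 1 ∨ l = 2 := by omega
  rcases hl with rfl | rfl | rfl
  · simp only [comp, if_true]
    by_contra hcon
    push Not at hcon
    have h1 := h (t.1 + t.2) t.2 hbp (by omega) (by
      rw [Nat.coprime_add_self_left]
      exact hcop) (by
      push_cast
      rw [add_sub_cancel_right]
      rw [hht] at hcon
      rw [Real.rpow_def_of_pos (by positivity)]
      calc (t.1 : ℝ) = Real.exp (Real.log t.1) := (Real.exp_log ha0).symm
        _ ≤ _ := Real.exp_le_exp.2 (by linarith))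
    have h3 : ∏ p ∈ ((t.1 + t.2) * t.2).primeFactors, (p : ℝ) ≤ r := by
      apply prod_primeFactors_le hr
      refine (Nat.primeFactors_mono (n := N t) ?_ hT.N_ne).trans hsub
      exact ⟨t.1, by unfold N; ring⟩
    have h4 : (∏ p ∈ ((t.1 + t.2) * t.2).primeFactors, (p : ℝ)) ^ η ≤ (r : ℝ) ^ η :=
      Real.rpow_le_rpow (Finset.prod_nonneg fun p _ => Nat.cast_nonneg p) h3 hη.le
    have h6 : ht t ≤ K * (r : ℝ) ^ η := by
      rw [hht]
      push_cast at h1
      exact h1.trans (mul_le_mul_of_nonneg_left h4 hK.le)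
    have : 0 < 1 / δ * (r : ℝ) ^ η := by positivity
    linarith
  · simp only [comp, one_ne_zero, if_false, if_true]
    have h1 : ht t ≤ Real.log 2 + Real.log t.2 := by
      rw [hht, ← Real.log_mul (by norm_num) hb0.ne']
      apply Real.log_le_log (by positivity)
      have : (t.1 : ℝ) ≤ t.2 := by exact_mod_cast hab
      linarith
    have := Real.log_two_lt_d9
    linarith
  · have f1 : (2 : Fin 3) ≠ 0 := by decide
    have f2 : (2 : Fin 3) ≠ 1 := by decide
    simp only [comp, f1, f2, if_false]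
    push_cast
    rw [← hht]
    linarith

/-- the logarithm of a member as a sum over the primes -/
theorem log_member {t : ℕ × ℕ} (hT : IsT t) (l : Fin 3) : Real.log (comp t l) =
    ∑ p ∈ (N t).primeFactors, ((comp t l).factorization p : ℝ) * Real.log p := by
  have hm0 : comp t l ≠ 0 := (comp_pos hT l).ne'
  have h2 : (comp t l : ℝ) = ∏ p ∈ (N t).primeFactors, (p : ℝ) ^ (comp t l).factorization p := by
    have h3 : ∏ p ∈ (N t).primeFactors, p ^ (comp t l).factorization p = comp t l := by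
      conv_rhs => rw [← Nat.prod_factorization_pow_eq_self hm0]
      rw [Finsupp.prod, Nat.support_factorization]
      symm
      apply Finset.prod_subset (Nat.primeFactors_mono (comp_dvd_N t l) hT.N_ne)
      intro q _ hq
      rw [← Nat.support_factorization, Finsupp.notMem_support_iff] at hq
      rw [hq, pow_zero]
    exact_mod_cast h3.symm
  rw [h2, Real.log_prod]
  · apply Finset.sum_congr rfl
    intro p _
    rw [Real.log_pow]
  · intro p hp
    have := (Nat.prime_of_mem_primeFactors hp).pos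
    positivity

/-- **Every member of every triple bounds the height.** -/
theorem member_bound (κs : ℝ) (hκ0 : 0 < κs) (hκ1 : κs ≤ 1 / 2) (hE : ThmE2 1) (hI : HInf)
    (hP : ThmPk κs) (ε : ℝ) (hε : 0 < ε) :
    ∃ K : ℝ, 0 < K ∧ ∀ (r : ℕ) (t : ℕ × ℕ) (l : Fin 3), 0 < r → IsT t →
      (N t).primeFactors ⊆ r.primeFactors →
      ht t ≤ K * (r : ℝ) ^ ε * (rad (comp t l) : ℝ) ^ (1 - κs) := by
  classical
  obtain ⟨δ, hδ, hδ1, K1, hK1, h1⟩ := pure_bound κs hκ0 hκ1 hE hP ε hε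
  obtain ⟨K2, hK2, h2⟩ := member_light (κ := 1) (by norm_num) hE (δ / 2) (ε / 3) (by positivity)
    (by linarith) (by positivity)
  obtain ⟨K3, hK3, h3⟩ := member_large hI (δ / 2) ε (by positivity) (by linarith) hε
  refine ⟨K1 + 2 * K2 + K3 + 1000, by positivity, ?_⟩
  intro r t l hr hT hsub
  have hh := ht_pos hT
  have hr1 : (1 : ℝ) ≤ r := by exact_mod_cast hr
  have hr0 : (0 : ℝ) < r := by linarith
  have hm0 : comp t l ≠ 0 := (comp_pos hT l).ne'
  have hradN : 1 ≤ rad (comp t l) := rad_pos _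
  have hrad1 : (1 : ℝ) ≤ rad (comp t l) := by exact_mod_cast hradN
  have hx0 : (0 : ℝ) ≤ 1 - κs := by linarith
  have q1 : (1 : ℝ) ≤ (rad (comp t l) : ℝ) ^ (1 - κs) := Real.one_le_rpow hrad1 hx0
  have q2 : (1 : ℝ) ≤ (r : ℝ) ^ ε := Real.one_le_rpow hr1 hε.le
  set Y : ℝ := (r : ℝ) ^ ε * (rad (comp t l) : ℝ) ^ (1 - κs) with hY
  have hY1 : 1 ≤ Y := one_le_mul_of_one_le_of_one_le q2 q1
  have hrY : (r : ℝ) ^ ε ≤ Y := le_mul_of_one_le_right (by positivity) q1
  have hgoal : (K1 + 2 * K2 + K3 + 1000) * (r : ℝ) ^ ε * (rad (comp t l) : ℝ) ^ (1 - κs) =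
      K1 * Y + 2 * K2 * Y + K3 * Y + 1000 * Y := by
    rw [hY]
    ring
  rw [hgoal]
  have n1 : 0 ≤ K1 * Y := by positivity
  have n2 : 0 ≤ 2 * K2 * Y := by positivity
  have n3 : 0 ≤ K3 * Y := by positivity
  have n4 : 0 ≤ 1000 * Y := by positivity
  by_contra hcon
  push Not at hcon
  -- the height exceeds each of the bounds
  have hb1 : 1000 ≤ ht t := by nlinarith
  have hlarge := h3 r t l hr hT hsub (by
    have : K3 * (r : ℝ) ^ ε ≤ K3 * Y := mul_le_mul_of_nonneg_left hrY hK3.le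
    linarith)
  -- the threshold
  set P : ℝ := ht t / (2 * K2 * (r : ℝ) ^ ε) with hP'
  have hden : 0 < 2 * K2 * (r : ℝ) ^ ε := by positivity
  have hP1 : 1 ≤ P := by
    rw [hP', le_div_iff₀ hden]
    have : 2 * K2 * (r : ℝ) ^ ε ≤ 2 * K2 * Y := mul_le_mul_of_nonneg_left hrY (by positivity)
    linarith
  have hP0 : 0 < P := by linarith
  have hPh : 2 * K2 * (r : ℝ) ^ ε * P = ht t := by
    rw [hP']
    field_simp
  set S : Finset ℕ := r.primeFactors.filter (fun p : ℕ => P < p) with hS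
  have hSP : ∀ p ∈ r.primeFactors, p ∉ S → (p : ℝ) ≤ P := by
    intro p hp hpS
    by_contra hc
    push Not at hc
    exact hpS (Finset.mem_filter.2 ⟨hp, hc⟩)
  have hout : ∑ p ∈ (N t).primeFactors \ S, ((comp t l).factorization p : ℝ) * Real.log p ≤
      δ / 2 * ht t := by
    by_contra hc
    push Not at hc
    have h4 := h2 r S P t l hr hP1 hT hsub hSP hb1 hc
    rw [show 3 * (ε / 3) = ε by ring, pow_one] at h4
    have h5 : K2 * (r : ℝ) ^ ε * P = ht t / 2 := by linarith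
    linarith
  -- mass on `S`
  have hin : (1 - δ) * ht t ≤
      ∑ p ∈ (N t).primeFactors ∩ S, ((comp t l).factorization p : ℝ) * Real.log p := by
    have h4 := log_member hT l
    rw [← Finset.sum_inter_add_sum_sdiff (N t).primeFactors S] at h4
    have h5 : (1 - δ) * ht t = (1 - δ / 2) * ht t - δ / 2 * ht t := by ring
    linarith
  set H : Finset ℕ := (comp t l).primeFactors ∩ S with hH
  have hsumH : ∑ p ∈ (N t).primeFactors ∩ S, ((comp t l).factorization p : ℝ) * Real.log p =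
      ∑ p ∈ H, ((comp t l).factorization p : ℝ) * Real.log p := by
    symm
    apply Finset.sum_subset
    · intro p hp
      rw [hH, Finset.mem_inter] at hp
      exact Finset.mem_inter.2 ⟨Nat.primeFactors_mono (comp_dvd_N t l) hT.N_ne hp.1, hp.2⟩
    · intro p hp hpH
      have hp' := Finset.mem_inter.1 hp
      have : p ∉ (comp t l).primeFactors := fun h => hpH (Finset.mem_inter.2 ⟨h, hp'.2⟩)
      rw [← Nat.support_factorization, Finsupp.notMem_support_iff] at this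
      rw [this]
      simp
  rw [hsumH] at hin
  have hHprime : ∀ p ∈ H, p.Prime := fun p hp =>
    Nat.prime_of_mem_primeFactors (Finset.mem_inter.1 hp).1
  have hHP : ∀ p ∈ H, P < (p : ℝ) := fun p hp =>
    (Finset.mem_filter.1 (Finset.mem_inter.1 hp).2).2
  have hpos : 0 < (1 - δ) * ht t := mul_pos (by linarith) hh
  have hHne : H.Nonempty := by
    rw [Finset.nonempty_iff_ne_empty]
    intro h0
    rw [h0, Finset.sum_empty] at hin
    linarith
  obtain ⟨p, hpH⟩ := hHne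
  by_cases hone : H = {p}
  · -- one heavy prime
    rw [hone, Finset.sum_singleton] at hin
    have hpr := hHprime p hpH
    have h4 := h1 r t l p hr hT hsub hpr hin
    have hpd : p ∣ rad (comp t l) :=
      Finset.dvd_prod_of_mem _ (Finset.mem_inter.1 hpH).1
    have hple : (p : ℝ) ≤ rad (comp t l) := by
      exact_mod_cast Nat.le_of_dvd hradN hpd
    have h5 : (p : ℝ) ^ (1 - κs) ≤ (rad (comp t l) : ℝ) ^ (1 - κs) :=
      Real.rpow_le_rpow (Nat.cast_nonneg _) hple hx0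
    have h6 : K1 * (r : ℝ) ^ ε * (p : ℝ) ^ (1 - κs) ≤ K1 * Y := by
      rw [hY, mul_assoc]
      gcongr
    linarith
  · -- two heavy primes
    obtain ⟨q, hqH, hqp⟩ : ∃ q ∈ H, q ≠ p := by
      by_contra hc
      push Not at hc
      apply hone
      ext x
      rw [Finset.mem_singleton]
      exact ⟨fun hx => hc x hx, fun hx => hx ▸ hpH⟩
    have hsub2 : ({p, q} : Finset ℕ) ⊆ (comp t l).primeFactors := by
      intro x hx
      rcases Finset.mem_insert.1 hx with rfl | hx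
      · exact (Finset.mem_inter.1 hpH).1
      · rw [Finset.mem_singleton.1 hx]
        exact (Finset.mem_inter.1 hqH).1
    have hpq : p * q ≤ rad (comp t l) := by
      have h4 : ∏ x ∈ ({p, q} : Finset ℕ), x ≤ ∏ x ∈ (comp t l).primeFactors, x :=
        Finset.prod_le_prod_of_subset_of_one_le' hsub2 fun x hx _ =>
          (Nat.prime_of_mem_primeFactors hx).one_lt.le
      rwa [Finset.prod_pair (Ne.symm hqp)] at h4
    have hpq' : (p : ℝ) * q ≤ rad (comp t l) := by exact_mod_cast hpq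
    have hPP : P ^ 2 ≤ rad (comp t l) := by
      have h4 := hHP p hpH
      have h5 := hHP q hqH
      have h6 : P * P ≤ (p : ℝ) * q := mul_le_mul h4.le h5.le hP0.le (by linarith)
      nlinarith
    have hPr : P ≤ (rad (comp t l) : ℝ) ^ (1 - κs) := by
      have h4 : P ≤ (rad (comp t l) : ℝ) ^ (1 / 2 : ℝ) := by
        rw [← Real.sqrt_eq_rpow]
        exact Real.le_sqrt_of_sq_le hPP
      refine h4.trans (Real.rpow_le_rpow_of_exponent_le hrad1 (by linarith))
    have h6 : 2 * K2 * (r : ℝ) ^ ε * P ≤ 2 * K2 * Y := by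
      rw [hY, mul_assoc (2 * K2)]
      gcongr
    linarith

/-- the member form for triples `(a, b, c)` composed of primes of `r` -/
theorem members_r (κs : ℝ) (hκ0 : 0 < κs) (hκ1 : κs ≤ 1 / 2) (hE : ThmE2 1) (hI : HInf)
    (hP : ThmPk κs) (ε : ℝ) (hε : 0 < ε) :
    ∃ K : ℝ, 0 < K ∧ ∀ r a b c : ℕ, 0 < r → AbcTriple a b c →
      (∀ p : ℕ, p.Prime → p ∣ a * b * c → p ∣ r) →
      Real.log c ≤ K * (r : ℝ) ^ ε * (rad a : ℝ) ^ (1 - κs) ∧
      Real.log c ≤ K * (r : ℝ) ^ ε * (rad b : ℝ) ^ (1 - κs) ∧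
      Real.log c ≤ K * (r : ℝ) ^ ε * (rad c : ℝ) ^ (1 - κs) := by
  obtain ⟨K, hK, h1⟩ := member_bound κs hκ0 hκ1 hE hI hP ε hε
  refine ⟨K, hK, ?_⟩
  have key : ∀ r a b c : ℕ, 0 < r → AbcTriple a b c →
      (∀ p : ℕ, p.Prime → p ∣ a * b * c → p ∣ r) → a ≤ b →
      Real.log c ≤ K * (r : ℝ) ^ ε * (rad a : ℝ) ^ (1 - κs) ∧
      Real.log c ≤ K * (r : ℝ) ^ ε * (rad b : ℝ) ^ (1 - κs) ∧
      Real.log c ≤ K * (r : ℝ) ^ ε * (rad c : ℝ) ^ (1 - κs) := by
    intro r a b c hr h hdiv hab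
    obtain ⟨ha, hb, habc, hcop⟩ := h
    have hT : IsT (a, b) := ⟨ha, hab, hcop⟩
    have hsub := primeFactors_sub (c := c) ha hb hr habc hdiv
    have hht : ht (a, b) = Real.log c := by
      unfold ht
      have : ((a : ℝ) + (b : ℝ)) = (c : ℝ) := by exact_mod_cast habc
      simp only
      rw [this]
    have c0 : comp (a, b) 0 = a := rfl
    have c1 : comp (a, b) 1 = b := rfl
    have c2 : comp (a, b) 2 = c := habc
    have e0 := h1 r (a, b) 0 hr hT hsub
    have e1 := h1 r (a, b) 1 hr hT hsub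
    have e2 := h1 r (a, b) 2 hr hT hsub
    rw [hht, c0] at e0
    rw [hht, c1] at e1
    rw [hht, c2] at e2
    exact ⟨e0, e1, e2⟩
  intro r a b c hr h hdiv
  rcases le_total a b with hab | hab
  · exact key r a b c hr h hdiv hab
  · obtain ⟨ha, hb, habc, hcop⟩ := h
    obtain ⟨e0, e1, e2⟩ := key r b a c hr ⟨hb, ha, by omega, hcop.symm⟩ (by
      intro p hp hpd
      apply hdiv p hp
      rwa [mul_comm a b]) hab
    exact ⟨e1, e0, e2⟩

/-- **Members**: `log c` is at most `K rad (abc) ^ ε` times the power `1 - κs` of the radical of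
each of `a`, `b`, `c`. -/
theorem members_abs (κs : ℝ) (hκ0 : 0 < κs) (hκ1 : κs ≤ 1 / 2) (hE : ThmE2 1) (hI : HInf)
    (hP : ThmPk κs) (ε : ℝ) (hε : 0 < ε) :
    ∃ K : ℝ, 0 < K ∧ ∀ a b c : ℕ, AbcTriple a b c →
      Real.log c ≤ K * (rad (a * b * c) : ℝ) ^ ε * (rad a : ℝ) ^ (1 - κs) ∧
      Real.log c ≤ K * (rad (a * b * c) : ℝ) ^ ε * (rad b : ℝ) ^ (1 - κs) ∧
      Real.log c ≤ K * (rad (a * b * c) : ℝ) ^ ε * (rad c : ℝ) ^ (1 - κs) := by
  obtain ⟨K, hK, h1⟩ := members_r κs hκ0 hκ1 hE hI hP ε hε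
  refine ⟨K, hK, ?_⟩
  intro a b c h
  have hc : 0 < c := by have := h.1; have := h.2.2.1; omega
  have hne : a * b * c ≠ 0 := by
    have := h.1
    have := h.2.1
    positivity
  exact h1 _ a b c (rad_pos _) h ((rad_dvd_iff hne).1 dvd_rfl)

theorem rad_mul3 {a b c : ℕ} (h : AbcTriple a b c) : rad (a * b * c) = rad a * rad b * rad c := by
  obtain ⟨ha, hb, habc, hcop⟩ := h
  have hc : 0 < c := by omega
  have hac : Nat.Coprime a c := by
    rw [← habc, Nat.coprime_self_add_right]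
    exact hcop
  have hbc : Nat.Coprime b c := by
    rw [← habc, Nat.coprime_add_self_right]
    exact hcop.symm
  have habc' : Nat.Coprime (a * b) c := Nat.Coprime.mul_left hac hbc
  unfold rad
  rw [habc'.primeFactors_mul, Finset.prod_union habc'.disjoint_primeFactors,
    hcop.primeFactors_mul, Finset.prod_union hcop.disjoint_primeFactors]

/-- **Every abc-triple** has `log c ≤ K rad (abc) ^ ((1 - κs) / 3 + ε)`. -/
theorem third_abs (κs : ℝ) (hκ0 : 0 < κs) (hκ1 : κs ≤ 1 / 2) (hE : ThmE2 1) (hI : HInf)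
    (hP : ThmPk κs) (ε : ℝ) (hε : 0 < ε) :
    ∃ K : ℝ, 0 < K ∧ ∀ a b c : ℕ, AbcTriple a b c →
      Real.log c ≤ K * (rad (a * b * c) : ℝ) ^ ((1 - κs) / 3 + ε) := by
  obtain ⟨K, hK, h1⟩ := members_abs κs hκ0 hκ1 hE hI hP ε hε
  refine ⟨K, hK, ?_⟩
  intro a b c h
  obtain ⟨e0, e1, e2⟩ := h1 a b c h
  have hR : (0 : ℝ) < (rad (a * b * c) : ℝ) := by exact_mod_cast rad_pos _
  have h3 : (rad (a * b * c) : ℝ) = rad a * rad b * rad c := by exact_mod_cast rad_mul3 h
  have p0 : (0 : ℝ) ≤ (rad a : ℝ) := Nat.cast_nonneg _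
  have p1 : (0 : ℝ) ≤ (rad b : ℝ) := Nat.cast_nonneg _
  have p2 : (0 : ℝ) ≤ (rad c : ℝ) := Nat.cast_nonneg _
  have hx0 : (0 : ℝ) ≤ 1 - κs := by linarith
  -- the smallest of the three radicals
  obtain ⟨m, hm0, hm3, hm⟩ : ∃ m : ℝ, 0 ≤ m ∧ m ^ 3 ≤ (rad (a * b * c) : ℝ) ∧
      Real.log c ≤ K * (rad (a * b * c) : ℝ) ^ ε * m ^ (1 - κs) := by
    rcases le_total (rad a : ℝ) (rad b) with h01 | h01
    · rcases le_total (rad a : ℝ) (rad c) with h02 | h02
      · refine ⟨rad a, p0, ?_, e0⟩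
        rw [h3]
        calc (rad a : ℝ) ^ 3 = rad a * rad a * rad a := by ring
          _ ≤ _ := by gcongr
      · refine ⟨rad c, p2, ?_, e2⟩
        rw [h3]
        have h03 : (rad c : ℝ) ≤ rad b := h02.trans h01
        calc (rad c : ℝ) ^ 3 = rad c * rad c * rad c := by ring
          _ ≤ _ := mul_le_mul_of_nonneg_right (mul_le_mul h02 h03 p2 p0) p2
    · rcases le_total (rad b : ℝ) (rad c) with h12 | h12
      · refine ⟨rad b, p1, ?_, e1⟩
        rw [h3]
        calc (rad b : ℝ) ^ 3 = rad b * rad b * rad b := by ring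
          _ ≤ _ := by gcongr
      · refine ⟨rad c, p2, ?_, e2⟩
        rw [h3]
        have h03 : (rad c : ℝ) ≤ rad a := h12.trans h01
        calc (rad c : ℝ) ^ 3 = rad c * rad c * rad c := by ring
          _ ≤ _ := mul_le_mul_of_nonneg_right (mul_le_mul h03 h12 p2 p0) p2
  have h4 : m ^ (1 - κs) ≤ (rad (a * b * c) : ℝ) ^ ((1 - κs) / 3) := by
    have h5 : m ≤ (rad (a * b * c) : ℝ) ^ ((1 : ℝ) / 3) := by
      have h6 : m = (m ^ 3) ^ ((1 : ℝ) / 3) := by
        rw [← Real.rpow_natCast, ← Real.rpow_mul hm0]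
        norm_num
      rw [h6]
      exact Real.rpow_le_rpow (by positivity) hm3 (by norm_num)
    calc m ^ (1 - κs) ≤ ((rad (a * b * c) : ℝ) ^ ((1 : ℝ) / 3)) ^ (1 - κs) :=
          Real.rpow_le_rpow hm0 h5 hx0
      _ = (rad (a * b * c) : ℝ) ^ ((1 - κs) / 3) := by
          rw [← Real.rpow_mul hR.le]
          congr 1
          ring
  calc Real.log c ≤ K * (rad (a * b * c) : ℝ) ^ ε * m ^ (1 - κs) := hm
    _ ≤ K * (rad (a * b * c) : ℝ) ^ ε * (rad (a * b * c) : ℝ) ^ ((1 - κs) / 3) := by gcongr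
    _ = K * (rad (a * b * c) : ℝ) ^ ((1 - κs) / 3 + ε) := by
        rw [mul_assoc, ← Real.rpow_add hR]
        congr 2
        ring

end Pool.Agent.Lib.AbcQ
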