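import Mathlib
import Pool.Agent.Lib.AbcE.Pigeon

/-!
# Pigeonhole step with small multipliers

The approximate quotient of an exponent vector is congruent to a quotient of two small integers
modulo a prime: only `q / H` residue classes have to be fought.
-/

set_option autoImplicit false

namespace Pool.Agent.Lib.AbcQ

open Finset Pool.Agent.AbcE

variable {ι : Type*} [Fintype ι]

/-- **Pigeonhole with small multipliers.** -/
theorem pigeonB (p : ι → ℕ) (q : ℕ) (hq : q.Prime) (hcop : ∀ i, (p i).Coprime q)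
    (e : ι → ℤ) (W Q g0 H G : ℕ) (hW : 0 < W) (hQ : 0 < Q) (hg0 : 0 < g0) (hH : 0 < H)
    (hHq : H < q) (hG : Q ^ Fintype.card ι * (q - 1) < (G + 1) * H) :
    ∃ γ b1 b2 : ℕ, g0 ≤ γ ∧ γ ≤ g0 * G ∧ 1 ≤ b1 ∧ b1 ≤ H ∧ 1 ≤ b2 ∧ b2 ≤ H ∧ ∃ f : ι → ℤ,
      (∀ i, |(γ : ℤ) * e i - W * f i| * Q < W) ∧
      (q : ℤ) ∣ (b2 : ℤ) * posP p f - b1 * negP p f := by
  classical
  have : Fact q.Prime := ⟨hq⟩
  have : NeZero H := ⟨hH.ne'⟩
  -- units
  let u : ι → (ZMod q)ˣ := fun i => ZMod.unitOfCoprime (p i) (hcop i)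
  have hbcop : ∀ b : Fin H, ((b : ℕ) + 1).Coprime q := by
    intro b
    rw [Nat.coprime_comm, Nat.Prime.coprime_iff_not_dvd hq]
    intro hd
    have h1 := Nat.le_of_dvd (by omega) hd
    have h2 := b.2
    omega
  let w : Fin H → (ZMod q)ˣ := fun b => ZMod.unitOfCoprime ((b : ℕ) + 1) (hbcop b)
  have hwval : ∀ b : Fin H, ((w b : (ZMod q)ˣ) : ZMod q) = (((b : ℕ) + 1 : ℕ) : ZMod q) :=
    fun b => ZMod.coe_unitOfCoprime _ _
  have hWz : (0 : ℤ) < W := by exact_mod_cast hW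
  have hbox : ∀ (g : ℕ) (i : ι), ((Q : ℤ) * (((g : ℤ) * e i) % W) / W).toNat < Q := by
    intro g i
    have h1 : 0 ≤ ((g : ℤ) * e i) % W := Int.emod_nonneg _ hWz.ne'
    have h2 : ((g : ℤ) * e i) % W < W := Int.emod_lt_of_pos _ hWz
    have hQz : (0 : ℤ) < Q := by exact_mod_cast hQ
    have h3 : (Q : ℤ) * (((g : ℤ) * e i) % W) / W < Q := by
      apply Int.ediv_lt_of_lt_mul hWz
      exact mul_lt_mul_of_pos_left h2 hQz
    have h4 : 0 ≤ (Q : ℤ) * (((g : ℤ) * e i) % W) / W :=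
      Int.ediv_nonneg (by positivity) hWz.le
    omega
  let F : Fin (G + 1) × Fin H → (ZMod q)ˣ × (ι → Fin Q) := fun x =>
    (w x.2 * ∏ i, u i ^ (((g0 * (x.1 : ℕ) : ℕ) : ℤ) * e i / W),
      fun i => ⟨((Q : ℤ) * ((((g0 * (x.1 : ℕ) : ℕ) : ℤ) * e i) % W) / W).toNat, hbox _ i⟩)
  have hcard : Fintype.card ((ZMod q)ˣ × (ι → Fin Q)) < Fintype.card (Fin (G + 1) × Fin H) := by
    rw [Fintype.card_prod, Fintype.card_fun, Fintype.card_prod, Fintype.card_fin, Fintype.card_fin,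
      Fintype.card_fin, ZMod.card_units_eq_totient, Nat.totient_prime hq, mul_comm]
    exact hG
  obtain ⟨x1, x2, hne, hF⟩ := Fintype.exists_ne_map_eq_of_card_lt F hcard
  have key : ∀ x x' : Fin (G + 1) × Fin H, x.1 < x'.1 → F x = F x' →
      ∃ γ b1 b2 : ℕ, g0 ≤ γ ∧ γ ≤ g0 * G ∧ 1 ≤ b1 ∧ b1 ≤ H ∧ 1 ≤ b2 ∧ b2 ≤ H ∧ ∃ f : ι → ℤ,
      (∀ i, |(γ : ℤ) * e i - W * f i| * Q < W) ∧
      (q : ℤ) ∣ (b2 : ℤ) * posP p f - b1 * negP p f := by
    intro x x' hlt hFF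
    obtain ⟨g, b⟩ := x
    obtain ⟨g', b'⟩ := x'
    simp only at hlt
    have hF1 := congrArg Prod.fst hFF
    have hF2 := congrArg Prod.snd hFF
    have hlt' : (g : ℕ) < (g' : ℕ) := hlt
    have hle : g0 * (g : ℕ) ≤ g0 * (g' : ℕ) := Nat.mul_le_mul_left _ hlt'.le
    refine ⟨g0 * (g' : ℕ) - g0 * (g : ℕ), (b : ℕ) + 1, (b' : ℕ) + 1, ?_, ?_, by omega,
      b.2, by omega, b'.2, fun i => ((g0 * (g' : ℕ) : ℕ) : ℤ) * e i / W -
        ((g0 * (g : ℕ) : ℕ) : ℤ) * e i / W, ?_, ?_⟩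
    · have h1 : g0 * ((g : ℕ) + 1) ≤ g0 * (g' : ℕ) := Nat.mul_le_mul_left _ hlt'
      rw [Nat.mul_add, Nat.mul_one] at h1
      omega
    · have h1 : g0 * (g' : ℕ) ≤ g0 * G := Nat.mul_le_mul_left _ (by have := g'.2; omega)
      omega
    · intro i
      have h1 : ((Q : ℤ) * ((((g0 * (g : ℕ) : ℕ) : ℤ) * e i) % W) / W).toNat
          = ((Q : ℤ) * ((((g0 * (g' : ℕ) : ℕ) : ℤ) * e i) % W) / W).toNat := by
        have := congrFun hF2 i
        exact congrArg Fin.val this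
      have hn1 : 0 ≤ (((g0 * (g : ℕ) : ℕ) : ℤ) * e i) % W := Int.emod_nonneg _ hWz.ne'
      have hn2 : 0 ≤ (((g0 * (g' : ℕ) : ℕ) : ℤ) * e i) % W := Int.emod_nonneg _ hWz.ne'
      have hd1 : 0 ≤ (Q : ℤ) * ((((g0 * (g : ℕ) : ℕ) : ℤ) * e i) % W) / W :=
        Int.ediv_nonneg (by positivity) hWz.le
      have hd2 : 0 ≤ (Q : ℤ) * ((((g0 * (g' : ℕ) : ℕ) : ℤ) * e i) % W) / W :=
        Int.ediv_nonneg (by positivity) hWz.le
      have h2 : (Q : ℤ) * ((((g0 * (g : ℕ) : ℕ) : ℤ) * e i) % W) / W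
          = (Q : ℤ) * ((((g0 * (g' : ℕ) : ℕ) : ℤ) * e i) % W) / W := by omega
      -- Euclidean division identities
      have e1 := Int.emod_add_mul_ediv (((g0 * (g : ℕ) : ℕ) : ℤ) * e i) W
      have e2 := Int.emod_add_mul_ediv (((g0 * (g' : ℕ) : ℕ) : ℤ) * e i) W
      set m1 := (((g0 * (g : ℕ) : ℕ) : ℤ) * e i) % W
      set m2 := (((g0 * (g' : ℕ) : ℕ) : ℤ) * e i) % W
      set k1 := ((g0 * (g : ℕ) : ℕ) : ℤ) * e i / W
      set k2 := ((g0 * (g' : ℕ) : ℕ) : ℤ) * e i / W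
      have e3 := Int.emod_add_mul_ediv ((Q : ℤ) * m1) W
      have e4 := Int.emod_add_mul_ediv ((Q : ℤ) * m2) W
      have e5 : 0 ≤ ((Q : ℤ) * m1) % W := Int.emod_nonneg _ hWz.ne'
      have e6 : ((Q : ℤ) * m1) % W < W := Int.emod_lt_of_pos _ hWz
      have e7 : 0 ≤ ((Q : ℤ) * m2) % W := Int.emod_nonneg _ hWz.ne'
      have e8 : ((Q : ℤ) * m2) % W < W := Int.emod_lt_of_pos _ hWz
      have h3 : ((g0 * (g' : ℕ) - g0 * (g : ℕ) : ℕ) : ℤ) * e i - W * (k2 - k1) = m2 - m1 := by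
        rw [Nat.cast_sub hle]
        linear_combination e1 - e2
      rw [h3]
      have hQz : (0 : ℤ) ≤ Q := by positivity
      rw [show (Q : ℤ) = |(Q : ℤ)| from (abs_of_nonneg hQz).symm, ← abs_mul, abs_lt]
      rw [h2] at e3
      constructor
      · have : (m2 - m1) * (Q : ℤ) = ((Q : ℤ) * m2) % W - ((Q : ℤ) * m1) % W := by
          linear_combination e3 - e4
        rw [this]; omega
      · have : (m2 - m1) * (Q : ℤ) = ((Q : ℤ) * m2) % W - ((Q : ℤ) * m1) % W := by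
          linear_combination e3 - e4
        rw [this]; omega
    · -- congruence
      set f : ι → ℤ := fun i => ((g0 * (g' : ℕ) : ℕ) : ℤ) * e i / W -
        ((g0 * (g : ℕ) : ℕ) : ℤ) * e i / W with hf
      have h1 : w b' * ∏ i, u i ^ (f i) = w b := by
        rw [hf]
        simp only [zpow_sub]
        rw [Finset.prod_mul_distrib, Finset.prod_inv_distrib]
        have h2 : w b * ∏ i, u i ^ (((g0 * (g : ℕ) : ℕ) : ℤ) * e i / W) =
            w b' * ∏ i, u i ^ (((g0 * (g' : ℕ) : ℕ) : ℤ) * e i / W) := hF1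
        rw [← mul_assoc, ← h2, mul_assoc, mul_inv_cancel, mul_one]
      have h3 : w b' * ∏ i, u i ^ (f i).toNat = w b * ∏ i, u i ^ (-f i).toNat := by
        have h4 : ∏ i, u i ^ (f i) = (∏ i, u i ^ (f i).toNat) * (∏ i, u i ^ (-f i).toNat)⁻¹ := by
          rw [← Finset.prod_inv_distrib, ← Finset.prod_mul_distrib]
          refine Finset.prod_congr rfl ?_
          intro i _
          rw [← zpow_natCast, ← zpow_natCast, ← zpow_neg, ← zpow_add]
          congr 1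
          omega
        rw [h4, ← mul_assoc, mul_inv_eq_iff_eq_mul] at h1
        exact h1
      rw [← ZMod.intCast_zmod_eq_zero_iff_dvd]
      have h5 := congrArg (fun v : (ZMod q)ˣ => (v : ZMod q)) h3
      simp only [Units.val_mul, Units.coe_prod, Units.val_pow_eq_pow_val] at h5
      rw [hwval, hwval] at h5
      unfold posP negP
      push_cast
      push_cast at h5
      rw [sub_eq_zero]
      exact h5
  rcases lt_trichotomy x1.1 x2.1 with h | h | h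
  · exact key x1 x2 h hF
  · exfalso
    have hF1 := congrArg Prod.fst hF
    have h1 : w x1.2 * ∏ i, u i ^ (((g0 * (x1.1 : ℕ) : ℕ) : ℤ) * e i / W) =
        w x2.2 * ∏ i, u i ^ (((g0 * (x2.1 : ℕ) : ℕ) : ℤ) * e i / W) := hF1
    rw [h] at h1
    have h2 := mul_right_cancel h1
    have h3 := congrArg (fun v : (ZMod q)ˣ => (v : ZMod q)) h2
    simp only [hwval] at h3
    rw [ZMod.natCast_eq_natCast_iff', Nat.mod_eq_of_lt, Nat.mod_eq_of_lt] at h3
    · apply hne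
      refine Prod.ext h (Fin.ext ?_)
      omega
    · have := x2.2.2
      omega
    · have := x1.2.2
      omega
  · exact key x2 x1 h hF.symm

end Pool.Agent.Lib.AbcQ
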