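import Mathlib
import Pool.Agent.Lib.AbcE.TheoremE
import Pool.Agent.Lib.AbcH.ThmE3
import Pool.Agent.Lib.AbcQ.Core2
import Pool.Agent.Lib.AbcQ.PigeonB

/-!
# Theorem P, version with exponents

`z = s * ∏ p i ^ e i`, `s = 1` or `-1`, is congruent to `1` modulo `q ^ u`, and its height is
essentially `u log q`. Then `u` is small compared to the number `G` of multiples which the
pigeonhole principle needs to find `γ`, `f`, `b1`, `b2` with `γ e ≈ u f` and
`b2 * posP p f` congruent to `b1 * negP p f` modulo `q`.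
-/

namespace Pool.Agent.Lib.AbcQ

open Finset Pool.Agent.AbcE Pool.Agent.Lib.AbcH

variable {ι : Type*} [Fintype ι]

theorem log_posP (p : ι → ℕ) (hp : ∀ i, 0 < p i) (f : ι → ℤ) :
    Real.log (posP p f) = ∑ i, ((f i).toNat : ℝ) * Real.log (p i) := by
  unfold posP
  exact log_prod_pow p hp _

theorem log_negP (p : ι → ℕ) (hp : ∀ i, 0 < p i) (f : ι → ℤ) :
    Real.log (negP p f) = ∑ i, ((-f i).toNat : ℝ) * Real.log (p i) := by
  unfold negP
  exact log_prod_pow p hp _

/-- comparison of the positive parts -/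
theorem toNat_cmp (x y : ℤ) (α β c : ℝ) (hα : 0 ≤ α) (hβ : 0 ≤ β) (hc : 0 ≤ c)
    (h : α * x ≤ β * y + c) : α * (x.toNat : ℝ) ≤ β * (y.toNat : ℝ) + c := by
  have h1 : ((x.toNat : ℕ) : ℝ) = max (x : ℝ) 0 := by
    have : ((x.toNat : ℕ) : ℤ) = max x 0 := by omega
    exact_mod_cast this
  have h2 : (y : ℝ) ≤ ((y.toNat : ℕ) : ℝ) := by
    have : y ≤ ((y.toNat : ℕ) : ℤ) := Int.self_le_toNat y
    exact_mod_cast this
  have h3 : (0 : ℝ) ≤ ((y.toNat : ℕ) : ℝ) := Nat.cast_nonneg _
  rw [h1]
  rcases le_total (x : ℝ) 0 with h4 | h4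
  · rw [max_eq_right h4, mul_zero]
    positivity
  · rw [max_eq_left h4]
    refine h.trans ?_
    gcongr

theorem sum_cmp (p : ι → ℕ) (hp : ∀ i, 0 < p i) (v w : ι → ℕ) (α β c : ℝ)
    (h : ∀ i, α * (v i : ℝ) ≤ β * (w i : ℝ) + c) :
    α * ∑ i, (v i : ℝ) * Real.log (p i) ≤
      β * ∑ i, (w i : ℝ) * Real.log (p i) + c * ∑ i, Real.log (p i) := by
  rw [Finset.mul_sum, Finset.mul_sum, Finset.mul_sum, ← Finset.sum_add_distrib]
  refine Finset.sum_le_sum fun i _ => ?_
  have h1 : 0 ≤ Real.log (p i) := Real.log_natCast_nonneg _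
  have h2 := mul_le_mul_of_nonneg_right (h i) h1
  linarith

theorem posP_coprime_negP {p : ι → ℕ} (hp : ∀ i, (p i).Prime) (hinj : Function.Injective p)
    (f : ι → ℤ) : Nat.Coprime (posP p f) (negP p f) := by
  unfold posP negP
  refine Nat.Coprime.prod_left fun i _ => Nat.Coprime.prod_right fun j _ => ?_
  by_cases hij : i = j
  · subst hij
    rcases le_total 0 (f i) with h | h
    · have : (-f i).toNat = 0 := by omega
      rw [this, pow_zero]
      exact Nat.coprime_one_right _
    · have : (f i).toNat = 0 := by omega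
      rw [this, pow_zero]
      exact Nat.coprime_one_left _
  · refine Nat.Coprime.pow _ _ ?_
    rw [Nat.coprime_primes (hp i) (hp j)]
    exact fun h => hij (hinj h)

/-- **Theorem P**, version with exponents. -/
theorem thmPexp (p : ι → ℕ) (hp : ∀ i, (p i).Prime) (hinj : Function.Injective p)
    (e : ι → ℤ) (q u : ℕ) (hq : q.Prime) (hcop : ∀ i, (p i).Coprime q) (s : ℤ)
    (hs : s = 1 ∨ s = -1) (hne : (posP p e : ℤ) ≠ s * negP p e)
    (hdvd : ((q ^ u : ℕ) : ℤ) ∣ (posP p e : ℤ) - s * negP p e)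
    (κ ω : ℝ) (hκ : 0 < κ) (hω : 0 < ω) (hκω : 2 * κ + ω ≤ 1 / 2)
    (k Q H G : ℕ) (hk : 16 ≤ ω * k) (hQ : 0 < Q) (hH : 1 ≤ H) (hHq : H < q)
    (hHκ : Real.log H ≤ κ * Real.log q)
    (hG : Q ^ Fintype.card ι * (q - 1) < (G + 1) * H)
    (hLQ : ∑ i, Real.log (p i) ≤ Q * (ω / 200 * Real.log q))
    (hlam : 120 * ((k : ℝ) + 3) ≤ ω * Real.log q)
    (hZ1 : Real.log (posP p e) ≤ (1 + ω / 4) * (u * Real.log q))
    (hZ2 : Real.log (negP p e) ≤ (1 + ω / 4) * (u * Real.log q)) :
    u ≤ 100 * k ^ 2 * G := by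
  classical
  by_contra hcon
  have hcon := not_le.1 hcon
  set N : ℕ := u with hN
  have hpos : ∀ i, 0 < p i := fun i => (hp i).pos
  set lam : ℝ := Real.log q with hlamdef
  have hlam0 : 0 < lam := Real.log_pos (by exact_mod_cast hq.one_lt)
  have hω2 : ω ≤ 1 / 2 := by linarith
  have hκ4 : κ ≤ 1 / 4 := by linarith
  have hk32R : (32 : ℝ) ≤ k := by
    by_contra h
    have h1 : (k : ℝ) < 32 := not_le.1 h
    have h2 : ω * k < ω * 32 := mul_lt_mul_of_pos_left h1 hω
    linarith
  have hk32 : 32 ≤ k := by exact_mod_cast hk32R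
  have hk0 : 0 < k := by omega
  have hN00 : 0 < N := by omega
  obtain ⟨γ, b1, b2, hγk, hγG, hb1, hb1H, hb2, hb2H, f, hf, hfM⟩ :=
    pigeonB p q hq hcop e N Q k H G hN00 hQ hk0 hH hHq hG
  have hγ0 : 0 < γ := by omega
  have hNγ : 100 * k * γ ≤ N := by
    calc 100 * k * γ ≤ 100 * k * (k * G) := Nat.mul_le_mul_left _ hγG
      _ = 100 * k ^ 2 * G := by ring
      _ ≤ N := hcon.le
  have hNpos : 0 < N := by omega
  -- real versions
  have hγR : (0 : ℝ) < γ := by exact_mod_cast hγ0
  have hNR : (0 : ℝ) < N := by exact_mod_cast hNpos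
  have hkR : (0 : ℝ) < k := by exact_mod_cast hk0
  have hQR : (0 : ℝ) < Q := by exact_mod_cast hQ
  have hγkR : (k : ℝ) ≤ γ := by exact_mod_cast hγk
  have hNγR : 100 * (k : ℝ) * γ ≤ N := by exact_mod_cast hNγ
  set L : ℝ := ∑ i, Real.log (p i) with hL
  have hL0 : 0 ≤ L := Finset.sum_nonneg fun i _ => Real.log_natCast_nonneg _
  set La : ℝ := ω / 200 * lam with hLa
  have hLa0 : 0 ≤ La := by positivity
  -- comparison of `γ e` and `N f`
  have hkey1 : ∀ i, (γ : ℝ) * e i ≤ N * f i + N / Q := by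
    intro i
    have h1 : |(γ : ℝ) * e i - N * f i| * Q < N := by exact_mod_cast hf i
    have h2 : |(γ : ℝ) * e i - N * f i| < N / Q := by rwa [lt_div_iff₀ hQR]
    have h3 := (abs_lt.1 h2).2
    linarith
  have hkey2 : ∀ i, (N : ℝ) * f i ≤ γ * e i + N / Q := by
    intro i
    have h1 : |(γ : ℝ) * e i - N * f i| * Q < N := by exact_mod_cast hf i
    have h2 : |(γ : ℝ) * e i - N * f i| < N / Q := by rwa [lt_div_iff₀ hQR]
    have h3 := (abs_lt.1 h2).1
    linarith
  have hNQ0 : (0 : ℝ) ≤ N / Q := by positivity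
  have hNQL : (N : ℝ) / Q * L ≤ N * La := by
    rw [div_mul_eq_mul_div, div_le_iff₀ hQR]
    have : (N : ℝ) * L ≤ N * (Q * La) := mul_le_mul_of_nonneg_left hLQ hNR.le
    linarith
  have hup1 : (N : ℝ) * Real.log (posP p f) ≤ γ * Real.log (posP p e) + N * La := by
    rw [log_posP p hpos f, log_posP p hpos e]
    have h1 := sum_cmp p hpos (fun i => (f i).toNat) (fun i => (e i).toNat) N γ (N / Q)
      (fun i => toNat_cmp _ _ _ _ _ hNR.le hγR.le hNQ0 (hkey2 i))
    linarith
  have hup2 : (N : ℝ) * Real.log (negP p f) ≤ γ * Real.log (negP p e) + N * La := by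
    rw [log_negP p hpos f, log_negP p hpos e]
    have h1 := sum_cmp p hpos (fun i => (-f i).toNat) (fun i => (-e i).toNat) N γ (N / Q)
      (fun i => toNat_cmp _ _ _ _ _ hNR.le hγR.le hNQ0 (by
        push_cast
        have := hkey1 i
        linarith))
    linarith
  have hlow1 : (γ : ℝ) * Real.log (posP p e) ≤ N * Real.log (posP p f) + N * La := by
    rw [log_posP p hpos f, log_posP p hpos e]
    have h1 := sum_cmp p hpos (fun i => (e i).toNat) (fun i => (f i).toNat) γ N (N / Q)
      (fun i => toNat_cmp _ _ _ _ _ hγR.le hNR.le hNQ0 (hkey1 i))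
    linarith
  have hlow2 : (γ : ℝ) * Real.log (negP p e) ≤ N * Real.log (negP p f) + N * La := by
    rw [log_negP p hpos f, log_negP p hpos e]
    have h1 := sum_cmp p hpos (fun i => (-e i).toNat) (fun i => (-f i).toNat) γ N (N / Q)
      (fun i => toNat_cmp _ _ _ _ _ hγR.le hNR.le hNQ0 (by
        push_cast
        have := hkey2 i
        linarith))
    linarith
  -- heights of `β`
  have hBp : Real.log (posP p f) ≤ (1 + ω / 4) * (γ * lam) + La := by
    have h1 : (N : ℝ) * Real.log (posP p f) ≤ N * ((1 + ω / 4) * (γ * lam) + La) := by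
      have h2 := mul_le_mul_of_nonneg_left hZ1 hγR.le
      have h3 : (γ : ℝ) * ((1 + ω / 4) * (N * lam)) = N * ((1 + ω / 4) * (γ * lam)) := by ring
      rw [mul_add]
      linarith
    exact le_of_mul_le_mul_left h1 hNR
  have hBn : Real.log (negP p f) ≤ (1 + ω / 4) * (γ * lam) + La := by
    have h1 : (N : ℝ) * Real.log (negP p f) ≤ N * ((1 + ω / 4) * (γ * lam) + La) := by
      have h2 := mul_le_mul_of_nonneg_left hZ2 hγR.le
      have h3 : (γ : ℝ) * ((1 + ω / 4) * (N * lam)) = N * ((1 + ω / 4) * (γ * lam)) := by ring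
      rw [mul_add]
      linarith
    exact le_of_mul_le_mul_left h1 hNR
  -- the modulus
  set M : ℕ := q ^ N with hM
  have hMpos : 0 < M := pow_pos hq.pos _
  have hMR : (0 : ℝ) < M := by exact_mod_cast hMpos
  have hlogM : Real.log M = N * lam := by
    rw [hM]
    push_cast
    rw [Real.log_pow]
  have hq1 : (0.69 : ℝ) ≤ lam := by
    have h1 : Real.log 2 ≤ Real.log (q : ℝ) :=
      Real.log_le_log (by norm_num) (by exact_mod_cast hq.two_le)
    have := Real.log_two_gt_d9
    linarith
  -- lower bound of the height of `z`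
  have hzlow : (N : ℝ) * lam - 0.7 ≤ Real.log (posP p e) + Real.log (negP p e) := by
    have hpp : 0 < posP p e := posP_pos hpos e
    have hnp : 0 < negP p e := negP_pos hpos e
    have h1 : (posP p e : ℤ) - s * negP p e ≠ 0 := sub_ne_zero.2 hne
    have h2 : M ≤ ((posP p e : ℤ) - s * negP p e).natAbs := by
      refine Nat.le_of_dvd (Int.natAbs_pos.2 h1) ?_
      have h20 := Int.natAbs_dvd_natAbs.2 hdvd
      rw [Int.natAbs_natCast] at h20
      exact h20
    have h3 : ((posP p e : ℤ) - s * negP p e).natAbs ≤ posP p e + negP p e := by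
      rcases hs with h | h <;> rw [h] <;> omega
    have h4 : posP p e + negP p e ≤ 2 * (posP p e * negP p e) := by
      nlinarith only [hpp, hnp]
    have h5 : M ≤ 2 * (posP p e * negP p e) := h2.trans (h3.trans h4)
    have h6 : (M : ℝ) ≤ 2 * (posP p e * negP p e) := by exact_mod_cast h5
    have h7 := Real.log_le_log hMR h6
    have hppR : (0 : ℝ) < posP p e := by exact_mod_cast hpp
    have hnpR : (0 : ℝ) < negP p e := by exact_mod_cast hnp
    rw [Real.log_mul (by norm_num) (by positivity), Real.log_mul hppR.ne' hnpR.ne', hlogM] at h7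
    have := Real.log_two_lt_d9
    linarith
  set Bp := posP p f with hBpdef
  set Bn := negP p f with hBndef
  have hBppos : 0 < Bp := posP_pos hpos f
  have hBnpos : 0 < Bn := negP_pos hpos f
  have hlogb1 : Real.log b1 ≤ κ * lam := by
    refine (Real.log_le_log (by exact_mod_cast hb1) ?_).trans hHκ
    exact_mod_cast hb1H
  have hlogb2 : Real.log b2 ≤ κ * lam := by
    refine (Real.log_le_log (by exact_mod_cast hb2) ?_).trans hHκ
    exact_mod_cast hb2H
  set B1 : ℕ := b2 * Bp with hB1
  set B2 : ℕ := b1 * Bn with hB2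
  have hB1pos : 0 < B1 := Nat.mul_pos hb2 hBppos
  have hB2pos : 0 < B2 := Nat.mul_pos hb1 hBnpos
  have hneB : B1 ≠ B2 := by
    intro heq
    have hc := posP_coprime_negP hp hinj f
    have h1 : Bp ∣ b1 := by
      have : Bp ∣ b1 * Bn := by
        rw [← hB2, ← heq]
        exact Dvd.intro_left _ rfl
      exact Nat.Coprime.dvd_of_dvd_mul_right hc this
    have h2 : Bn ∣ b2 := by
      have : Bn ∣ b2 * Bp := by
        rw [← hB1, heq]
        exact Dvd.intro_left _ rfl
      exact Nat.Coprime.dvd_of_dvd_mul_right hc.symm this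
    have h3 : Real.log Bp ≤ κ * lam := by
      refine (Real.log_le_log (by exact_mod_cast hBppos) ?_).trans hlogb1
      exact_mod_cast Nat.le_of_dvd hb1 h1
    have h4 : Real.log Bn ≤ κ * lam := by
      refine (Real.log_le_log (by exact_mod_cast hBnpos) ?_).trans hlogb2
      exact_mod_cast Nat.le_of_dvd hb2 h2
    -- `γ (N lam - 0.7) ≤ N (2 κ lam + 2 La)`
    have h5 : (γ : ℝ) * (N * lam - 0.7) ≤ N * (2 * (κ * lam) + 2 * La) := by
      have e1 := mul_le_mul_of_nonneg_left hzlow hγR.le
      have e2 := mul_le_mul_of_nonneg_left h3 hNR.le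
      have e3 := mul_le_mul_of_nonneg_left h4 hNR.le
      linarith
    have h6 : (1 : ℝ) ≤ γ := by exact_mod_cast hγ0
    have h7 : (N : ℝ) * lam * 1 ≤ N * lam * γ := by
      apply mul_le_mul_of_nonneg_left h6 (by positivity)
    have h8 : 2 * (κ * lam) + 2 * La ≤ lam / 2 := by
      have e1 : (2 * κ + ω) * lam ≤ 1 / 2 * lam := mul_le_mul_of_nonneg_right hκω hlam0.le
      have e2 : 0 ≤ ω * lam := by positivity
      rw [hLa]
      linarith
    have h9 : (N : ℝ) * (2 * (κ * lam) + 2 * La) ≤ N * (lam / 2) :=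
      mul_le_mul_of_nonneg_left h8 hNR.le
    have h10 : 0.7 * (γ : ℝ) ≤ 0.007 * N := by
      have : 100 * (1 : ℝ) * γ ≤ 100 * k * γ := by gcongr; linarith
      linarith
    have h11 : (N : ℝ) * 0.69 ≤ N * lam := mul_le_mul_of_nonneg_left hq1 hNR.le
    linarith
  -- `D`, `a`, `d`
  set D : ℕ := N / (2 * γ) with hD
  set a : ℕ := N / k + 1 with ha
  set d : ℕ := (N + 3 * a) / (D + 1) with hd
  have h2γ : 0 < 2 * γ := by omega
  have hD1 : (2 * γ) * D ≤ N := Nat.mul_div_le _ _
  have hD2 : N < (2 * γ) * (D + 1) := Nat.lt_mul_div_succ _ h2γ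
  have hd1 : d * (D + 1) ≤ N + 3 * a := Nat.div_mul_le_self _ _
  have hd2 : N + 3 * a < (D + 1) * (d + 1) := Nat.lt_mul_div_succ _ (Nat.succ_pos D)
  have ha1 : N < k * a := Nat.lt_mul_div_succ _ hk0
  have ha2 : k * a ≤ N + k := by
    have : k * (N / k) ≤ N := Nat.mul_div_le _ _
    calc k * a = k * (N / k) + k := by rw [ha]; ring
      _ ≤ N + k := by omega
  have hNk : 100 * k * k ≤ N := (Nat.mul_le_mul_left _ hγk).trans hNγ
  have haN : a ≤ N := by
    have h1 : k * a ≤ k * N := by nlinarith only [ha2, hNk, hk32]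
    exact Nat.le_of_mul_le_mul_left h1 hk0
  have hdγ : d ≤ 8 * γ := by
    have h1 : d * N ≤ (8 * γ) * N := by
      calc d * N ≤ d * ((2 * γ) * (D + 1)) := Nat.mul_le_mul_left _ hD2.le
        _ = (2 * γ) * (d * (D + 1)) := by ring
        _ ≤ (2 * γ) * (N + 3 * a) := Nat.mul_le_mul_left _ hd1
        _ ≤ (2 * γ) * (4 * N) := Nat.mul_le_mul_left _ (by omega)
        _ = (8 * γ) * N := by ring
    exact Nat.le_of_mul_le_mul_right h1 hNpos
  have hkD : 2 * (k * D) ≤ N := by
    calc 2 * (k * D) = (2 * k) * D := by ring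
      _ ≤ (2 * γ) * D := Nat.mul_le_mul_right _ (by omega)
      _ ≤ N := hD1
  have hkd : 100 * (k * d) ≤ 8 * N := by
    calc 100 * (k * d) ≤ 100 * (k * (8 * γ)) := by gcongr
      _ = 8 * (100 * k * γ) := by ring
      _ ≤ 8 * N := by omega
  have hDda : D + d < a := by
    have h1 : k * (D + d) < k * a := by
      have : k * (D + d) = k * D + k * d := by ring
      omega
    exact Nat.lt_of_mul_lt_mul_left h1
  have hDγ : (D + 1) * γ ≤ N := by
    have h1 : (D + 1) * γ = D * γ + γ := by ring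
    have h2 : (2 * γ) * D = 2 * (D * γ) := by ring
    have h3 : 2 * γ ≤ N := by
      have : 2 * γ ≤ 100 * k * γ := Nat.mul_le_mul_right _ (by omega)
      omega
    omega
  -- the exponents `m l`
  set m : ℕ → ℕ := fun l => l * N / γ with hm
  have hmstep : ∀ l < d, m l + D < m (l + 1) := by
    intro l _
    have h1 : m l + (D + 1) ≤ m (l + 1) := by
      simp only [hm]
      rw [← Nat.add_mul_div_right _ _ hγ0]
      apply Nat.div_le_div_right
      calc l * N + (D + 1) * γ ≤ l * N + N := by omega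
        _ = (l + 1) * N := by ring
    omega
  have hmmono : ∀ l ≤ d, m l ≤ m d := by
    intro l hl
    simp only [hm]
    exact Nat.div_le_div_right (Nat.mul_le_mul_right _ hl)
  have hmd : m d ≤ 2 * (N + 3 * a) := by
    have h1 : γ * m d ≤ γ * (2 * (N + 3 * a)) := by
      calc γ * m d ≤ d * N := Nat.mul_div_le _ _
        _ ≤ d * ((2 * γ) * (D + 1)) := Nat.mul_le_mul_left _ hD2.le
        _ = (2 * γ) * (d * (D + 1)) := by ring
        _ ≤ (2 * γ) * (N + 3 * a) := Nat.mul_le_mul_left _ hd1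
        _ = γ * (2 * (N + 3 * a)) := by ring
    exact Nat.le_of_mul_le_mul_left h1 hγ0
  -- the common denominator
  set w : ℕ := d * N / (γ * Q) with hw
  set v : ι → ℕ := fun i => (f i).natAbs + w with hv
  set b : ℕ → ι → ℤ := fun l i => l * e i - m l * f i with hb
  have hkey : ∀ i, |(γ : ℝ) * e i - N * f i| ≤ N / Q := by
    intro i
    rw [abs_le]
    constructor
    · have := hkey2 i
      linarith
    · have := hkey1 i
      linarith
  have hbv : ∀ l ≤ d, ∀ i, |b l i| ≤ v i := by
    intro l hl i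
    have h1 : (γ : ℝ) * b l i = l * (γ * e i - N * f i) + (l * N - γ * m l) * f i := by
      simp only [hb]
      push_cast
      ring
    have h2 : |((l : ℝ) * N - γ * m l)| ≤ γ := by
      have e1 : γ * m l ≤ l * N := Nat.mul_div_le _ _
      have e2 : l * N < γ * (m l + 1) := Nat.lt_mul_div_succ _ hγ0
      have e1' : (γ : ℝ) * m l ≤ l * N := by exact_mod_cast e1
      have e2' : (l : ℝ) * N < γ * (m l + 1) := by exact_mod_cast e2
      rw [abs_of_nonneg (by linarith)]
      linarith
    have h3 : (γ : ℝ) * |(b l i : ℝ)| ≤ d * (N / Q) + γ * |(f i : ℝ)| := by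
      have e1 : (γ : ℝ) * |(b l i : ℝ)| = |(γ : ℝ) * b l i| := by rw [abs_mul, abs_of_pos hγR]
      rw [e1, h1]
      refine (abs_add_le _ _).trans ?_
      rw [abs_mul, abs_mul, abs_of_nonneg (Nat.cast_nonneg l)]
      have e4 := hkey i
      have e5 : (l : ℝ) ≤ d := by exact_mod_cast hl
      have e6 := abs_nonneg (f i : ℝ)
      gcongr
    have h4 : |(b l i : ℝ)| - |(f i : ℝ)| ≤ d * N / (γ * Q) := by
      rw [le_div_iff₀ (by positivity)]
      have e1 : (d : ℝ) * (N / Q) * Q = d * N := by field_simp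
      nlinarith only [h3, e1, hQR]
    have h5 : |b l i| - |f i| ≤ (w : ℤ) := by
      have e1 : ((|b l i| - |f i| : ℤ) : ℝ) ≤ (((d * N : ℕ) : ℝ) / ((γ * Q : ℕ) : ℝ)) := by
        push_cast
        exact h4
      have e2 : (|b l i| - |f i| : ℤ) ≤ ⌊(((d * N : ℕ) : ℝ) / ((γ * Q : ℕ) : ℝ))⌋ :=
        Int.le_floor.2 e1
      refine e2.trans ?_
      rw [hw]
      have e3 : ⌊(((d * N : ℕ) : ℝ) / ((γ * Q : ℕ) : ℝ))⌋ = ((d * N / (γ * Q) : ℕ) : ℤ) := by
        rw [← Nat.floor_div_eq_div (K := ℝ) (d * N) (γ * Q)]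
        rw [Int.natCast_floor_eq_floor]
        positivity
      rw [e3]
    have h6 : ((v i : ℕ) : ℤ) = |f i| + w := by
      simp only [hv]
      push_cast
      rw [Int.abs_eq_natAbs]
    rw [h6]
    linarith
  set V : ℕ := ∏ i, p i ^ v i with hV
  set Al : ℕ → ℕ := fun l => ∏ i, p i ^ ((v i : ℤ) + b l i).toNat with hAl
  have hVpos : 0 < V := Finset.prod_pos fun i _ => pow_pos (hpos i) _
  have hAlpos : ∀ l, 0 < Al l := fun l => Finset.prod_pos fun i _ => pow_pos (hpos i) _
  have hAW : ∀ l ≤ d, Al l ≤ V ^ 2 := by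
    intro l hl
    simp only [hAl, hV]
    rw [← Finset.prod_pow]
    refine Finset.prod_le_prod' fun i _ => ?_
    rw [← pow_mul]
    refine Nat.pow_le_pow_right (hpos i) ?_
    have h1 := (abs_le.1 (hbv l hl i)).2
    omega
  have hs2 : s * s = 1 := by rcases hs with h | h <;> rw [h] <;> norm_num
  have hsl : ∀ l : ℕ, |s ^ l| = 1 := by
    intro l
    rw [abs_pow]
    rcases hs with h | h <;> rw [h] <;> simp
  have hrel0 : ∀ l ≤ d, (M : ℤ) ∣ s ^ l * (Al l : ℤ) * Bp ^ m l - V * Bn ^ m l := by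
    intro l hl
    have hid : Al l * Bp ^ m l * negP p e ^ l = V * Bn ^ m l * posP p e ^ l := by
      simp only [hAl, hV, hBpdef, hBndef]
      unfold posP negP
      simp only [← Finset.prod_pow, ← Finset.prod_mul_distrib]
      refine Finset.prod_congr rfl fun i _ => ?_
      simp only [← pow_mul, ← pow_add]
      congr 1
      have h1 := (abs_le.1 (hbv l hl i)).1
      have h2 : 0 ≤ (v i : ℤ) + b l i := by linarith
      zify
      rw [Int.toNat_of_nonneg h2]
      have h3 : ∀ x : ℤ, ((x.toNat : ℤ)) - ((-x).toNat : ℤ) = x := by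
        intro x
        omega
      have h4 := h3 (f i)
      have h5 := h3 (e i)
      simp only [hb]
      linear_combination (m l : ℤ) * h4 - (l : ℤ) * h5
    have h1 : (Al l : ℤ) * Bp ^ m l * negP p e ^ l = V * Bn ^ m l * posP p e ^ l := by
      exact_mod_cast hid
    have h2 : (s ^ l * (Al l : ℤ) * Bp ^ m l - V * Bn ^ m l) * negP p e ^ l
        = V * Bn ^ m l * ((s * (posP p e : ℤ)) ^ l - (negP p e : ℤ) ^ l) := by
      rw [mul_pow]
      linear_combination s ^ l * h1
    have h20 : (M : ℤ) ∣ s * (posP p e : ℤ) - negP p e := by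
      have : s * (posP p e : ℤ) - negP p e = s * ((posP p e : ℤ) - s * negP p e) := by
        linear_combination (negP p e : ℤ) * hs2
      rw [this]
      exact hdvd.mul_left _
    have h3 : (M : ℤ) ∣ (s ^ l * (Al l : ℤ) * Bp ^ m l - V * Bn ^ m l) * negP p e ^ l := by
      rw [h2]
      exact (h20.trans (sub_dvd_pow_sub_pow _ _ _)).mul_left _
    have h4 : IsCoprime (M : ℤ) ((negP p e : ℤ) ^ l) := by
      refine IsCoprime.pow_right ?_
      refine Nat.isCoprime_iff_coprime.2 ?_
      rw [hM]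
      exact (Nat.Coprime.pow_left _ (negP_coprime hcop e).symm)
    exact h4.dvd_of_dvd_mul_right h3
  set A' : ℕ → ℤ := fun l => s ^ l * ((Al l * (b1 ^ m l * b2 ^ (m d - m l)) : ℕ) : ℤ) with hA'
  have hrel : ∀ l ≤ d, (M : ℤ) ∣ A' l * (B1 : ℤ) ^ m l - ((V * b2 ^ m d : ℕ) : ℤ) * (B2 : ℤ) ^ m l := by
    intro l hl
    have h1 : A' l * (B1 : ℤ) ^ m l - ((V * b2 ^ m d : ℕ) : ℤ) * (B2 : ℤ) ^ m l
        = ((b1 : ℤ) ^ m l * (b2 : ℤ) ^ m d) *
          (s ^ l * (Al l : ℤ) * Bp ^ m l - V * Bn ^ m l) := by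
      have e1 : (b2 : ℤ) ^ m d = (b2 : ℤ) ^ (m d - m l) * (b2 : ℤ) ^ m l := by
        rw [← pow_add, Nat.sub_add_cancel (hmmono l hl)]
      simp only [hA', hB1, hB2]
      push_cast
      rw [mul_pow, mul_pow, e1]
      ring
    rw [h1]
    exact (hrel0 l hl).mul_left _
  set HA : ℕ := V ^ 2 * H ^ m d with hHA
  have hA'0 : ∀ l ≤ d, A' l ≠ 0 := by
    intro l _ h0
    have h1 : |A' l| = ((Al l * (b1 ^ m l * b2 ^ (m d - m l)) : ℕ) : ℤ) := by
      simp only [hA']
      rw [abs_mul, hsl l, one_mul, abs_of_nonneg (by positivity)]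
    rw [h0, abs_zero] at h1
    have h2 : 0 < Al l * (b1 ^ m l * b2 ^ (m d - m l)) :=
      Nat.mul_pos (hAlpos l) (Nat.mul_pos (pow_pos hb1 _) (pow_pos hb2 _))
    have h3 : (0 : ℤ) < ((Al l * (b1 ^ m l * b2 ^ (m d - m l)) : ℕ) : ℤ) := by exact_mod_cast h2
    omega
  have hA'le : ∀ l ≤ d, |A' l| ≤ (HA : ℤ) := by
    intro l hl
    have h1 : |A' l| = ((Al l * (b1 ^ m l * b2 ^ (m d - m l)) : ℕ) : ℤ) := by
      simp only [hA']
      rw [abs_mul, hsl l, one_mul, abs_of_nonneg (by positivity)]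
    rw [h1]
    have h2 : Al l * (b1 ^ m l * b2 ^ (m d - m l)) ≤ HA := by
      rw [hHA]
      refine Nat.mul_le_mul (hAW l hl) ?_
      calc b1 ^ m l * b2 ^ (m d - m l) ≤ H ^ m l * H ^ (m d - m l) :=
            Nat.mul_le_mul (Nat.pow_le_pow_left hb1H _) (Nat.pow_le_pow_left hb2H _)
        _ = H ^ m d := by rw [← pow_add, Nat.add_sub_cancel' (hmmono l hl)]
    exact_mod_cast h2
  have hVb : 0 < V * b2 ^ m d := Nat.mul_pos hVpos (pow_pos hb2 _)
  refine core2 m A' D d N (N + 2 * a) (2 * a) M q B1 B2 (V * b2 ^ m d) (D + m d) HA (k + 2)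
    hB1pos hB2pos hVb hA'0 hA'le hmstep (by omega) (by omega) (by omega) ?_ ?_ ?_ hneB hrel
    ?_ ?_ ?_
  · -- Siegel
    have h1 : N + 2 * a ≤ (k + 2) * a := by
      have : (k + 2) * a = k * a + 2 * a := by ring
      omega
    calc (k + 2 + 1) * (N + 2 * a) = (k + 2) * (N + 2 * a) + (N + 2 * a) := by ring
      _ ≤ (k + 2) * (N + 2 * a) + (k + 2) * a := by omega
      _ = (k + 2) * (N + 3 * a) := by ring
      _ ≤ (k + 2) * ((D + 1) * (d + 1)) := Nat.mul_le_mul_left _ hd2.le
  · exact dvd_refl _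
  · rw [hB1, hB2]
    push_cast
    exact hfM
  · -- coprimality
    rw [hM, hB1]
    refine Nat.Coprime.pow_left _ ?_
    refine Nat.Coprime.mul_right ?_ (posP_coprime hcop f).symm
    rw [Nat.Prime.coprime_iff_not_dvd hq]
    intro hd
    have := Nat.le_of_dvd hb2 hd
    omega
  · -- size
    have hmB : 0 < max B1 B2 := lt_max_of_lt_left hB1pos
    have hmBR : (0 : ℝ) < ((max B1 B2 : ℕ) : ℝ) := by exact_mod_cast hmB
    have hVR : (0 : ℝ) < (V : ℝ) := by exact_mod_cast hVpos
    have hHR : (0 : ℝ) < (H : ℝ) := by exact_mod_cast hH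
    have hUpos : (0 : ℝ) < (((D + 1) * (d + 1) : ℕ) : ℝ) := by
      exact_mod_cast (by positivity : 0 < (D + 1) * (d + 1))
    have hgoal : ((((D + 1) * (d + 1) : ℕ) : ℝ) * (2 : ℝ) ^ (D + m d)) ^ (k + 2 + 1) *
        ((max B1 B2 : ℕ) : ℝ) ^ D * ((V : ℝ) ^ 2 * (H : ℝ) ^ m d) < (M : ℝ) := by
      rw [← Real.log_lt_log_iff (by positivity) hMR]
      rw [Real.log_mul (by positivity) (by positivity), Real.log_mul (by positivity) (by positivity),
        Real.log_mul (by positivity) (by positivity), Real.log_pow, Real.log_pow, Real.log_pow,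
        Real.log_pow, Real.log_mul (by positivity) (by positivity), Real.log_pow, hlogM]
      push_cast
      have hD1R : 2 * (γ : ℝ) * D ≤ N := by exact_mod_cast hD1
      have hkDR : 2 * ((k : ℝ) * D) ≤ N := by exact_mod_cast hkD
      have haNR : (a : ℝ) ≤ N := by exact_mod_cast haN
      have ha2R : (k : ℝ) * a ≤ N + k := by exact_mod_cast ha2
      have hmdR : (m d : ℝ) ≤ 2 * (N + 3 * a) := by exact_mod_cast hmd
      have hD0 : (0 : ℝ) ≤ D := Nat.cast_nonneg _
      have hd0 : (0 : ℝ) ≤ d := Nat.cast_nonneg _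
      have hmd0 : (0 : ℝ) ≤ (m d : ℝ) := Nat.cast_nonneg _
      have hNkR : 100 * (k : ℝ) * k ≤ N := by exact_mod_cast hNk
      have hDN : (D : ℝ) ≤ N := by
        have : (1 : ℝ) * D ≤ k * D := by gcongr; linarith
        linarith
      -- everything is compared with `W = N lam`
      set W : ℝ := (N : ℝ) * lam with hW
      have hW0 : 0 < W := by positivity
      -- `1 / k ≤ ω / 16`
      have hkk : ∀ x : ℝ, 0 ≤ x → 16 * x ≤ ω * (k * x) := by
        intro x hx
        have := mul_le_mul_of_nonneg_right hk hx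
        linarith
      have t1 : ((k : ℝ) + 2 + 1) * (Real.log (((D : ℝ) + 1) * (d + 1)) +
          ((D : ℝ) + m d) * Real.log 2) ≤ ω * W / 8 := by
        have h1 : (0 : ℝ) < ((D : ℝ) + 1) * (d + 1) := by positivity
        have h2 := Real.log_le_sub_one_of_pos h1
        have h3 : ((D : ℝ) + 1) * (d + 1) ≤ 6 * N := by
          have e1 : (D + 1) * (d + 1) ≤ 6 * N := by
            have : (D + 1) * (d + 1) = d * (D + 1) + (D + 1) := by ring
            have e2 : D + 1 ≤ 2 * N := by
              have : D ≤ N := by exact_mod_cast hDN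
              omega
            omega
          exact_mod_cast e1
        have h4 : ((D : ℝ) + m d) * Real.log 2 ≤ ((D : ℝ) + m d) * 1 := by
          apply mul_le_mul_of_nonneg_left _ (by positivity)
          have := Real.log_two_lt_d9
          linarith
        have h5 : (D : ℝ) + m d ≤ 9 * N := by linarith
        have h6 : Real.log (((D : ℝ) + 1) * (d + 1)) + ((D : ℝ) + m d) * Real.log 2 ≤ 15 * N := by
          linarith
        calc ((k : ℝ) + 2 + 1) * (Real.log (((D : ℝ) + 1) * (d + 1)) +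
              ((D : ℝ) + m d) * Real.log 2)
            ≤ ((k : ℝ) + 2 + 1) * (15 * N) := mul_le_mul_of_nonneg_left h6 (by positivity)
          _ = 120 * ((k : ℝ) + 3) * N / 8 := by ring
          _ ≤ ω * lam * N / 8 := by gcongr
          _ = ω * W / 8 := by rw [hW]; ring
      have hDlam : 32 * (D * lam) ≤ ω * W := by
        have h1 := hkk (D * lam) (by positivity)
        have h2 : (2 * (k * D)) * lam ≤ N * lam := mul_le_mul_of_nonneg_right hkDR hlam0.le
        have h3 : ω * (k * (D * lam)) ≤ ω * (W / 2) := by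
          apply mul_le_mul_of_nonneg_left _ hω.le
          rw [hW]
          linarith
        linarith
      have hb1R : (b1 : ℝ) ≠ 0 := by
        have : b1 ≠ 0 := by omega
        exact_mod_cast this
      have hb2R : (b2 : ℝ) ≠ 0 := by
        have : b2 ≠ 0 := by omega
        exact_mod_cast this
      have hBpR : (Bp : ℝ) ≠ 0 := by exact_mod_cast hBppos.ne'
      have hBnR : (Bn : ℝ) ≠ 0 := by exact_mod_cast hBnpos.ne'
      have hlogmax : Real.log (max (B1 : ℝ) (B2 : ℝ)) ≤
          κ * lam + (1 + ω / 4) * (γ * lam) + La := by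
        have hcast : (max (B1 : ℝ) (B2 : ℝ)) = ((max B1 B2 : ℕ) : ℝ) := by push_cast; rfl
        rw [hcast]
        have e1 : Real.log (B1 : ℝ) ≤ κ * lam + (1 + ω / 4) * (γ * lam) + La := by
          rw [hB1]
          push_cast
          rw [Real.log_mul hb2R hBpR]
          linarith
        have e2 : Real.log (B2 : ℝ) ≤ κ * lam + (1 + ω / 4) * (γ * lam) + La := by
          rw [hB2]
          push_cast
          rw [Real.log_mul hb1R hBnR]
          linarith
        rcases max_choice B1 B2 with h | h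
        · rw [h]; exact e1
        · rw [h]; exact e2
      have t2 : (D : ℝ) * Real.log (max (B1 : ℝ) (B2 : ℝ)) ≤ W / 2 + ω * W / 8 + ω * W / 100 := by
        have h1 : (D : ℝ) * Real.log (max (B1 : ℝ) (B2 : ℝ)) ≤
            D * (κ * lam + (1 + ω / 4) * (γ * lam) + La) :=
          mul_le_mul_of_nonneg_left hlogmax hD0
        have h2 : (D : ℝ) * (κ * lam) ≤ 1 / 4 * (D * lam) := by
          have : κ * (D * lam) ≤ 1 / 4 * (D * lam) :=
            mul_le_mul_of_nonneg_right hκ4 (by positivity)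
          linarith
        have h3 : (D : ℝ) * ((1 + ω / 4) * (γ * lam)) ≤ (1 + ω / 4) * (W / 2) := by
          have e1 : 2 * (γ : ℝ) * D * lam ≤ N * lam := mul_le_mul_of_nonneg_right hD1R hlam0.le
          have e2 : (1 + ω / 4) * ((D : ℝ) * γ * lam) ≤ (1 + ω / 4) * (W / 2) := by
            apply mul_le_mul_of_nonneg_left _ (by positivity)
            rw [hW]
            linarith
          linarith
        have h4 : (D : ℝ) * La ≤ 1 / 400 * (D * lam) := by
          rw [hLa]
          have : ω * (D * lam) ≤ 1 / 2 * (D * lam) :=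
            mul_le_mul_of_nonneg_right hω2 (by positivity)
          linarith
        have h5 : (1 + ω / 4) * (W / 2) = W / 2 + ω * W / 8 := by ring
        have h6 : (D : ℝ) * (κ * lam + (1 + ω / 4) * (γ * lam) + La) =
            D * (κ * lam) + D * ((1 + ω / 4) * (γ * lam)) + D * La := by ring
        have h7 : 0 ≤ ω * W := by positivity
        linarith
      have hγW : 1600 * (γ * lam) ≤ ω * W := by
        have h1 := hkk (γ * lam) (by positivity)
        have h2 : 100 * (k : ℝ) * γ * lam ≤ N * lam := mul_le_mul_of_nonneg_right hNγR hlam0.le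
        have h3 : ω * (k * (γ * lam)) ≤ ω * (W / 100) := by
          apply mul_le_mul_of_nonneg_left _ hω.le
          rw [hW]
          linarith
        linarith
      have hlamW : lam ≤ γ * lam := by
        have h6 : (1 : ℝ) ≤ γ := by exact_mod_cast hγ0
        have := mul_le_mul_of_nonneg_right h6 hlam0.le
        linarith
      have t3 : 2 * Real.log (V : ℝ) ≤ ω * W / 10 := by
        have hlogV : Real.log (V : ℝ) = Real.log Bp + Real.log Bn + w * L := by
          rw [hV, log_prod_pow p hpos v, hBpdef, hBndef, log_posP_add hpos f, hL, Finset.mul_sum,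
            ← Finset.sum_add_distrib]
          refine Finset.sum_congr rfl fun i _ => ?_
          simp only [hv]
          push_cast
          rw [Nat.cast_natAbs]
          push_cast
          ring
        have hwQ : (w : ℝ) * Q ≤ 8 * N := by
          have e3 : γ * Q * w ≤ d * N := Nat.mul_div_le _ _
          have e4 : d * N ≤ (8 * γ) * N := Nat.mul_le_mul_right _ hdγ
          have e5 : γ * (w * Q) ≤ γ * (8 * N) := by
            calc γ * (w * Q) = γ * Q * w := by ring
              _ ≤ d * N := e3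
              _ ≤ (8 * γ) * N := e4
              _ = γ * (8 * N) := by ring
          have e6 := Nat.le_of_mul_le_mul_left e5 hγ0
          exact_mod_cast e6
        have hwL : (w : ℝ) * L ≤ ω * W / 25 := by
          calc (w : ℝ) * L ≤ w * (Q * La) := mul_le_mul_of_nonneg_left hLQ (Nat.cast_nonneg _)
            _ = w * Q * La := by ring
            _ ≤ 8 * N * La := mul_le_mul_of_nonneg_right hwQ hLa0
            _ = ω * W / 25 := by rw [hLa, hW]; ring
        have h1 : (1 + ω / 4) * (γ * lam) ≤ 9 / 8 * (γ * lam) := by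
          apply mul_le_mul_of_nonneg_right _ (by positivity)
          linarith
        have h2 : La ≤ 1 / 400 * lam := by
          rw [hLa]
          apply mul_le_mul_of_nonneg_right _ hlam0.le
          linarith
        rw [hlogV]
        linarith
      have t4 : (m d : ℝ) * Real.log (H : ℝ) ≤ 2 * κ * W + ω * W / 10 := by
        have h1 : (m d : ℝ) * Real.log (H : ℝ) ≤ (2 * (N + 3 * a)) * (κ * lam) := by
          have e1 : (0 : ℝ) ≤ κ * lam := by positivity
          calc (m d : ℝ) * Real.log (H : ℝ) ≤ m d * (κ * lam) :=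
                mul_le_mul_of_nonneg_left hHκ hmd0
            _ ≤ _ := mul_le_mul_of_nonneg_right hmdR e1
        have h2 : κ * (a * lam) ≤ 1 / 4 * (a * lam) :=
          mul_le_mul_of_nonneg_right hκ4 (by positivity)
        have h3 := hkk (a * lam) (by positivity)
        have h4 : (k : ℝ) * a * lam ≤ (N + k) * lam := mul_le_mul_of_nonneg_right ha2R hlam0.le
        have h5 : ω * (k * (a * lam)) ≤ ω * ((N + k) * lam) := by
          apply mul_le_mul_of_nonneg_left _ hω.le
          linarith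
        have h6 : ω * ((N + k) * lam) = ω * W + ω * (k * lam) := by rw [hW]; ring
        have h7 : ω * ((k : ℝ) * lam) ≤ ω * (W / 1000) := by
          apply mul_le_mul_of_nonneg_left _ hω.le
          have e1 : 100 * (32 : ℝ) * k ≤ N := by
            refine le_trans ?_ hNkR
            gcongr
          have e2 : 100 * (32 : ℝ) * k * lam ≤ N * lam := mul_le_mul_of_nonneg_right e1 hlam0.le
          rw [hW]
          have e3 : (0 : ℝ) ≤ k * lam := by positivity
          linarith
        have h8 : (2 * ((N : ℝ) + 3 * a)) * (κ * lam) = 2 * κ * W + 6 * (κ * (a * lam)) := by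
          rw [hW]; ring
        have h9 : 0 ≤ ω * W := by positivity
        linarith
      have t5 : (2 * κ + ω) * W ≤ 1 / 2 * W := mul_le_mul_of_nonneg_right hκω hW0.le
      have t6 : 0 < ω * W := by positivity
      linarith
    exact_mod_cast hgoal
  · -- zero estimate
    have h1 : (d + 1) * D + (d + 1) = d * (D + 1) + (D + 1) := by ring
    omega

end Pool.Agent.Lib.AbcQ
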