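import Mathlib
import Pool.Agent.Lib.AbcH.Main
import Pool.Agent.Lib.Pabc9.FromE
import Pool.Agent.Lib.AbcQ.ThmPexp

/-!
# Theorem P

If `Z1 / Z2` is congruent to `s = 1` or `-1` modulo `p ^ u`, its height is essentially `u log p`
and `p` is not too small compared to the radical, then `u ≤ K p ^ (1 - κ) T ^ η`, for every
`κ < 1 / 4`.
-/

namespace Pool.Agent.Lib.AbcQ

open Finset Pool.Agent.AbcE Pool.Agent.Lib.AbcH

/-- **Theorem P**. -/
theorem thmP (theta kappa eta : ℝ) (htheta : 0 < theta) (hkappa : 0 < kappa)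
    (hkappa4 : kappa < 1 / 4) (heta : 0 < eta) :
    ∃ delta : ℝ, 0 < delta ∧ ∃ K : ℝ, 0 < K ∧ ∃ p0 : ℕ, ∀ (p u Z1 Z2 : ℕ) (s : ℤ) (T : ℝ),
      p.Prime → p0 ≤ p → 0 < Z1 → 0 < Z2 → Nat.Coprime Z1 Z2 → (s = 1 ∨ s = -1) →
      (Z1 : ℤ) ≠ s * Z2 → ((p ^ u : ℕ) : ℤ) ∣ (Z1 : ℤ) - s * Z2 →
      Real.log Z1 ≤ (1 + delta) * (u * Real.log p) →
      Real.log Z2 ≤ (1 + delta) * (u * Real.log p) →
      ∏ q ∈ (Z1 * Z2).primeFactors, (q : ℝ) ≤ T → T ^ theta ≤ p →
      (u : ℝ) ≤ K * (p : ℝ) ^ (1 - kappa) * T ^ eta := by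
  set ω : ℝ := 1 / 2 - 2 * kappa with hω
  have hω0 : 0 < ω := by rw [hω]; linarith
  obtain ⟨k, hk⟩ := exists_nat_ge (16 / ω)
  have hk16 : 16 ≤ ω * k := by
    rw [div_le_iff₀ hω0] at hk
    linarith
  obtain ⟨Q0, hQ0⟩ := exists_nat_ge (200 / (theta * ω))
  set Q : ℕ := Q0 + 1 with hQ
  have hQpos : 0 < Q := by omega
  have hQR : 200 / (theta * ω) ≤ Q := by
    refine hQ0.trans ?_
    rw [hQ]; push_cast; linarith
  have hQ1 : (1 : ℝ) ≤ (Q : ℝ) := by exact_mod_cast hQpos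
  obtain ⟨K2, hK2, hcard⟩ := pow_card_le (Q : ℝ) eta hQ1 heta
  obtain ⟨p0, hp0⟩ := exists_nat_ge (Real.exp (120 * ((k : ℝ) + 3) / ω))
  have hkR : (0 : ℝ) < k := by
    by_contra h
    have h1 : (k : ℝ) ≤ 0 := not_lt.1 h
    have h2 : ω * k ≤ 0 := mul_nonpos_of_nonneg_of_nonpos hω0.le h1
    linarith
  refine ⟨ω / 4, by positivity, 200 * (k : ℝ) ^ 2 * K2, by positivity, p0, ?_⟩
  intro q u Z1 Z2 s T hq hqp0 h1 h2 hcop hs hne hdvd hZ1 hZ2 hT hTq
  rcases Nat.eq_zero_or_pos u with hu0 | hu0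
  · rw [hu0]
    have hT0 : 0 ≤ T := le_trans (Finset.prod_nonneg fun p _ => Nat.cast_nonneg p) hT
    have : 0 ≤ K2 := by linarith
    simp only [Nat.cast_zero]
    positivity
  have hq0R : (0 : ℝ) < q := by exact_mod_cast hq.pos
  have hq2R : (2 : ℝ) ≤ q := by exact_mod_cast hq.two_le
  have hlam0 : 0 < Real.log q := Real.log_pos (by linarith)
  set S := (Z1 * Z2).primeFactors with hS
  have hS1 : Z1.primeFactors ⊆ S := Nat.primeFactors_mono (Dvd.intro _ rfl) (by positivity)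
  have hS2 : Z2.primeFactors ⊆ S := Nat.primeFactors_mono (Dvd.intro_left _ rfl) (by positivity)
  have hSp : ∀ q ∈ S, q.Prime := fun q hq => Nat.prime_of_mem_primeFactors hq
  have hprodS1 : 1 ≤ ∏ p ∈ S, (p : ℝ) := by
    rw [← Nat.cast_prod]
    exact_mod_cast Nat.succ_le_of_lt (Finset.prod_pos fun q hq => (hSp q hq).pos)
  have hT1 : 1 ≤ T := hprodS1.trans hT
  have hT0 : 0 < T := by linarith
  -- one of the two exponents vanishes
  have hz : ∀ q, Z1.factorization q = 0 ∨ Z2.factorization q = 0 := by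
    intro q
    by_contra hcon
    push Not at hcon
    have a1 : q ∈ Z1.primeFactors := by
      rw [← Nat.support_factorization, Finsupp.mem_support_iff]; exact hcon.1
    have a2 : q ∈ Z2.primeFactors := by
      rw [← Nat.support_factorization, Finsupp.mem_support_iff]; exact hcon.2
    exact Finset.disjoint_left.1 (Nat.Coprime.disjoint_primeFactors hcop) a1 a2
  set e : {q // q ∈ S} → ℤ := fun q => (Z1.factorization q : ℤ) - Z2.factorization q with he
  have hpos : ∀ q, (e q).toNat = Z1.factorization q := by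
    intro q
    rcases hz q with h | h <;> simp only [he] <;> omega
  have hneg : ∀ q, (-e q).toNat = Z2.factorization q := by
    intro q
    rcases hz q with h | h <;> simp only [he] <;> omega
  have hposP : posP (fun q : {q // q ∈ S} => (q : ℕ)) e = Z1 := by
    unfold posP
    simp only [hpos]
    exact Pool.Agent.Lib.Pabc9.prod_pow_eq h1.ne' hS1
  have hnegP : negP (fun q : {q // q ∈ S} => (q : ℕ)) e = Z2 := by
    unfold negP
    simp only [hneg]
    exact Pool.Agent.Lib.Pabc9.prod_pow_eq h2.ne' hS2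
  have hqdvd : (q : ℤ) ∣ (Z1 : ℤ) - s * Z2 := by
    refine dvd_trans ?_ hdvd
    exact Int.natCast_dvd_natCast.2 (dvd_pow_self q hu0.ne')
  have hs2 : s * s = 1 := by rcases hs with h | h <;> rw [h] <;> norm_num
  have hcopM : ∀ r : {q // q ∈ S}, (r : ℕ).Coprime q := by
    rintro ⟨r, hr⟩
    have hrp := hSp r hr
    simp only
    rw [Nat.coprime_primes hrp hq]
    rintro rfl
    have hr12 : r ∣ Z1 * Z2 := Nat.dvd_of_mem_primeFactors hr
    rcases (Nat.Prime.dvd_mul hrp).1 hr12 with h' | h'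
    · have h3 : (r : ℤ) ∣ s * (Z2 : ℤ) := by
        have := dvd_sub (Int.natCast_dvd_natCast.2 h') hqdvd
        simpa using this
      have h4 : (r : ℤ) ∣ (Z2 : ℤ) := by
        have h5 := h3.mul_left s
        rw [← mul_assoc, hs2, one_mul] at h5
        exact h5
      have h2' := Int.natCast_dvd_natCast.1 h4
      exact Nat.not_coprime_of_dvd_of_dvd hrp.one_lt h' h2' hcop
    · have h3 : (r : ℤ) ∣ (Z1 : ℤ) := by
        have := dvd_add hqdvd ((Int.natCast_dvd_natCast.2 h').mul_left s)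
        simpa using this
      have h1' := Int.natCast_dvd_natCast.1 h3
      exact Nat.not_coprime_of_dvd_of_dvd hrp.one_lt h1' h' hcop
  -- `H` and `G`
  have hx1 : 1 ≤ (q : ℝ) ^ kappa := Real.one_le_rpow (by linarith) hkappa.le
  set H : ℕ := ⌊(q : ℝ) ^ kappa⌋₊ with hH
  have hH1 : 1 ≤ H := by
    rw [hH, Nat.one_le_floor_iff]
    exact hx1
  have hHle : (H : ℝ) ≤ (q : ℝ) ^ kappa := Nat.floor_le (by positivity)
  have hHlt : (q : ℝ) ^ kappa < (H : ℝ) + 1 := Nat.lt_floor_add_one _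
  have hH1R : (1 : ℝ) ≤ H := by exact_mod_cast hH1
  have hHlog : Real.log H ≤ kappa * Real.log q := by
    have h3 := Real.log_le_log (by linarith) hHle
    rwa [Real.log_rpow hq0R] at h3
  have hHq : H < q := by
    have h3 : (q : ℝ) ^ kappa < (q : ℝ) ^ (1 : ℝ) :=
      Real.rpow_lt_rpow_of_exponent_lt (by linarith) (by linarith)
    rw [Real.rpow_one] at h3
    exact_mod_cast hHle.trans_lt h3
  set P : ℕ := Q ^ Fintype.card {q // q ∈ S} with hP
  set G : ℕ := P * (q - 1) / H with hG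
  have hG1 : P * (q - 1) < (G + 1) * H := by
    have h3 := Nat.lt_mul_div_succ (P * (q - 1)) (show 0 < H by omega)
    have h4 : H * (P * (q - 1) / H + 1) = (G + 1) * H := mul_comm _ _
    rw [h4] at h3
    exact h3
  have hG2 : (G : ℝ) ≤ 2 * P * (q : ℝ) ^ (1 - kappa) := by
    have h3 : G * H ≤ P * (q - 1) := Nat.div_mul_le_self _ _
    have h4 : G * H ≤ P * q := h3.trans (Nat.mul_le_mul_left _ (Nat.sub_le _ _))
    have h5 : (G : ℝ) * H ≤ P * q := by exact_mod_cast h4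
    have h6 : (q : ℝ) ^ kappa ≤ 2 * H := by linarith
    have h7 : (q : ℝ) = (q : ℝ) ^ (1 - kappa) * (q : ℝ) ^ kappa := by
      rw [← Real.rpow_add hq0R]
      simp
    have h8 : (0 : ℝ) ≤ (q : ℝ) ^ (1 - kappa) := by positivity
    have h9 : (G : ℝ) * H ≤ (2 * P * (q : ℝ) ^ (1 - kappa)) * H := by
      calc (G : ℝ) * H ≤ P * q := h5
        _ = P * (q : ℝ) ^ (1 - kappa) * (q : ℝ) ^ kappa := by
            rw [mul_assoc, ← h7]
        _ ≤ P * (q : ℝ) ^ (1 - kappa) * (2 * H) :=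
            mul_le_mul_of_nonneg_left h6 (by positivity)
        _ = _ := by ring
    exact le_of_mul_le_mul_right h9 (by linarith)
  have hlogT : theta * Real.log T ≤ Real.log q := by
    have h3 := Real.log_le_log (Real.rpow_pos_of_pos hT0 _) hTq
    rwa [Real.log_rpow hT0] at h3
  have hlogS : ∑ r : {q // q ∈ S}, Real.log (r : ℕ) ≤ Q * (ω / 200 * Real.log q) := by
    rw [Finset.sum_coe_sort S (fun q : ℕ => Real.log (q : ℕ))]
    have h5 : ∑ q ∈ S, Real.log (q : ℝ) = Real.log (∏ p ∈ S, (p : ℝ)) := by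
      rw [Real.log_prod]
      intro q hq
      have := (hSp q hq).pos
      positivity
    have h6 : Real.log (∏ p ∈ S, (p : ℝ)) ≤ Real.log T := Real.log_le_log (by linarith) hT
    rw [h5]
    refine h6.trans ?_
    rw [div_le_iff₀ (by positivity)] at hQR
    -- `200 ≤ Q theta ω`
    have h7 : 0 ≤ Real.log T := Real.log_nonneg hT1
    have h8 : 200 * Real.log T ≤ Q * (theta * ω) * Real.log T :=
      mul_le_mul_of_nonneg_right hQR h7
    have h9 : Q * (ω * (theta * Real.log T)) ≤ Q * (ω * Real.log q) := by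
      gcongr
    have h10 : Q * (theta * ω) * Real.log T = Q * (ω * (theta * Real.log T)) := by ring
    have h11 : (Q : ℝ) * (ω / 200 * Real.log q) = Q * (ω * Real.log q) / 200 := by ring
    rw [h11]
    linarith
  have hlam : 120 * ((k : ℝ) + 3) ≤ ω * Real.log q := by
    have h3 : Real.exp (120 * ((k : ℝ) + 3) / ω) ≤ q := hp0.trans (by exact_mod_cast hqp0)
    have h4 := Real.log_le_log (Real.exp_pos _) h3
    rw [Real.log_exp, div_le_iff₀ hω0] at h4
    linarith
  have key := thmPexp (ι := {q // q ∈ S}) (fun q => (q : ℕ)) (fun q => hSp q q.2)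
    Subtype.val_injective e q u hq hcopM s hs (by rw [hposP, hnegP]; exact hne)
    (by rw [hposP, hnegP]; exact hdvd) kappa ω hkappa hω0 (by rw [hω]; linarith) k Q H G hk16
    hQpos hH1 hHq hHlog hG1 hlogS hlam (by rw [hposP]; exact hZ1) (by rw [hnegP]; exact hZ2)
  have keyR : (u : ℝ) ≤ 100 * (k : ℝ) ^ 2 * G := by exact_mod_cast key
  have hPle : (P : ℝ) ≤ K2 * T ^ eta := by
    rw [hP, Fintype.card_coe]
    push_cast
    refine (hcard S fun p hp => (hSp p hp).one_le).trans ?_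
    have : (∏ p ∈ S, (p : ℝ)) ^ eta ≤ T ^ eta :=
      Real.rpow_le_rpow (by linarith) hT heta.le
    have hK20 : 0 ≤ K2 := by linarith
    gcongr
  have hqk : (0 : ℝ) ≤ (q : ℝ) ^ (1 - kappa) := by positivity
  calc (u : ℝ) ≤ 100 * (k : ℝ) ^ 2 * G := keyR
    _ ≤ 100 * (k : ℝ) ^ 2 * (2 * P * (q : ℝ) ^ (1 - kappa)) := by gcongr
    _ ≤ 100 * (k : ℝ) ^ 2 * (2 * (K2 * T ^ eta) * (q : ℝ) ^ (1 - kappa)) := by gcongr
    _ = 200 * (k : ℝ) ^ 2 * K2 * (q : ℝ) ^ (1 - kappa) * T ^ eta := by ring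

end Pool.Agent.Lib.AbcQ
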