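import Mathlib
import Pool.Agent.Lib.AbcQ.Final
import Pool.Agent.Lib.AbcQ.ThmP
import Pool.Agent.Lib.AbcO.HInf
import Pool.Agent.Lib.AbcH.Main3

/-!
# Theorem Q: every abc-triple has `log c ≤ K rad (abc) ^ (1 / 4 + ε)`
-/

namespace Pool.Agent.Lib.AbcQ

open Filter Topology Pool.Agent.Lib.AbcH Pool.Agent.Lib.AbcO

theorem thmP_holds : ThmP := fun theta kappa eta h1 h2 h3 h4 => thmP theta kappa eta h1 h2 h3 h4

/-- **Every abc-triple** has `log c ≤ K rad (abc) ^ (1 / 4 + ε)`. -/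
theorem q_abs (ε : ℝ) (hε : 0 < ε) : ∃ K : ℝ, 0 < K ∧ ∀ a b c : ℕ, AbcTriple a b c →
    Real.log c ≤ K * (rad (a * b * c) : ℝ) ^ (1 / 4 + ε) :=
  quarter_abs thmE1 hInf thmP_holds ε hε

/-- Every abc-triple composed of primes of `r` has `log c ≤ K r ^ (1 / 4 + ε)`. -/
theorem q_r (ε : ℝ) (hε : 0 < ε) :
    ∃ K : ℝ, 0 < K ∧ ∀ r : ℕ, 0 < r → high r (K * (r : ℝ) ^ (1 / 4 + ε)) = ∅ :=
  quarter thmE1 hInf thmP_holds ε hε

/-- The form with the third and the fourth largest prime factor. -/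
theorem q_P (ε : ℝ) (hε : 0 < ε) :
    ∃ K : ℝ, 0 < K ∧ ∀ (r : ℕ) (P Q : ℝ), 0 < r → 1 ≤ P → 0 ≤ Q → exc r P ≤ 3 → exc r Q ≤ 2 →
      high r (K * (r : ℝ) ^ ε * max P (Q ^ (3 / 4 : ℝ))) = ∅ :=
  quarter_P thmE1 hInf thmP_holds ε hε

/-- The mean theorem for `0 < s < 8 / 3`. -/
theorem q_mean (s : ℝ) (hs : 0 < s) (hs2 : s < 8 / 3) :
    Summable (fun t : allT => Real.log t.1.2.2 ^ s / rad (t.1.1 * t.1.2.1 * t.1.2.2)) ∧
    Tendsto (fun Y : ℕ => (∑ r ∈ Finset.Icc 1 Y, ∑' t : triples r, Real.log t.1.2.2 ^ s) / Y) atTop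
      (𝓝 (∑' t : allT, Real.log t.1.2.2 ^ s / rad (t.1.1 * t.1.2.1 * t.1.2.2))) := by
  set η : ℝ := (8 / 3 - s) / (8 * s) with hη
  have hη0 : 0 < η := by
    rw [hη]
    apply div_pos <;> linarith
  have hlt : s * (1 / 4 + η) < 2 / 3 := by
    rw [hη]
    have : s * (1 / 4 + (8 / 3 - s) / (8 * s)) = s / 4 + (8 / 3 - s) / 8 := by
      field_simp
    rw [this]
    linarith
  obtain ⟨K, hK, h⟩ := q_abs η hη0
  exact mean_of s (1 / 4 + η) hs (by positivity) hlt ⟨K, fun t ht => h t.1 t.2.1 t.2.2 ht⟩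

end Pool.Agent.Lib.AbcQ
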