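import Mathlib
import Pool.Agent.Lib.AbcQ.Member
import Pool.Agent.Lib.AbcQ.ThmP
import Pool.Agent.Lib.AbcO.HInf
import Pool.Agent.Lib.AbcH.Main3

/-!
# The member form with exponent `3 / 4`
-/

namespace Pool.Agent.Lib.AbcQ

open Pool.Agent.Lib.AbcH Pool.Agent.Lib.AbcO

theorem thmPk_quarter : ThmPk (1 / 4) :=
  fun theta kappa eta h1 h2 h3 h4 => thmP theta kappa eta h1 h2 h3 h4

/-- `log c` is at most `K rad (abc) ^ ε` times the power `3 / 4` of the radical of each member. -/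
theorem q_members (ε : ℝ) (hε : 0 < ε) : ∃ K : ℝ, 0 < K ∧ ∀ a b c : ℕ, AbcTriple a b c →
    Real.log c ≤ K * (rad (a * b * c) : ℝ) ^ ε * (rad a : ℝ) ^ ((1 : ℝ) - 1 / 4) ∧
    Real.log c ≤ K * (rad (a * b * c) : ℝ) ^ ε * (rad b : ℝ) ^ ((1 : ℝ) - 1 / 4) ∧
    Real.log c ≤ K * (rad (a * b * c) : ℝ) ^ ε * (rad c : ℝ) ^ ((1 : ℝ) - 1 / 4) :=
  members_abs (1 / 4) (by norm_num) (by norm_num) thmE1 hInf thmPk_quarter ε hε

end Pool.Agent.Lib.AbcQ
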