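import Mathlib
import Pool.Agent.Lib.AbcH1.ZeroEst1

/-!
# A zero estimate in one variable, orders depending on the point
-/

namespace Pool.Agent.AbcQ

open Polynomial Finset Pool.Agent.AbcH1

/-- **Zero estimate**, the order `N s` depends on the point. -/
theorem zeroEstN (m : ℕ → ℕ) (D d S : ℕ) (N : Fin S → ℕ) (hm : ∀ l < d, m l + D < m (l + 1))
    (c : ℕ → ℕ → ℚ) (hc : ∃ j ≤ D, ∃ l ≤ d, c j l ≠ 0)
    (x : Fin S → ℚ) (y : Fin S → ℕ → ℚ) (hx : Function.Injective x) (hx0 : ∀ s, x s ≠ 0)
    (hy0 : ∀ s, ∀ l ≤ d, y s l ≠ 0)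
    (hv : ∀ s, ∀ k < N s, ∑ j ∈ range (D + 1), ∑ l ∈ range (d + 1),
      c j l * ((j + m l).choose k : ℚ) * x s ^ j * y s l = 0) :
    ∑ s, (N s - d) ≤ (d + 1) * D := by
  classical
  set L : Finset ℕ := (range (d + 1)).filter (fun l => ent m D c 0 l ≠ 0) with hL
  set k := L.card with hk
  have hLne : L.Nonempty := by
    obtain ⟨j, hj, l, hl, hjl⟩ := hc
    refine ⟨l, ?_⟩
    rw [hL, Finset.mem_filter, Finset.mem_range]
    refine ⟨by omega, ?_⟩
    intro h0
    have h1 : (ent m D c 0 l).coeff j = 0 := by rw [h0, coeff_zero]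
    rw [coeff_ent, if_pos hj] at h1
    simp at h1
    exact hjl h1
  have hk0 : 0 < k := Finset.card_pos.2 hLne
  have hkd : k ≤ d + 1 := by
    calc k ≤ (range (d + 1)).card := Finset.card_le_card (Finset.filter_subset _ _)
      _ = d + 1 := Finset.card_range _
  set e : Fin k → ℕ := fun i => L.orderEmbOfFin hk.symm i with he
  have heinj : Function.Injective e := (L.orderEmbOfFin hk.symm).injective
  have heL : ∀ i, e i ∈ L := fun i => L.orderEmbOfFin_mem hk.symm i
  have hec : ∀ i, ent m D c 0 (e i) ≠ 0 := fun i => (Finset.mem_filter.1 (heL i)).2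
  have hed : ∀ i, e i ≤ d := fun i => by
    have h := (Finset.mem_filter.1 (heL i)).1
    rw [Finset.mem_range] at h
    omega
  set W := (Matrix.of fun (q i : Fin k) => ent m D c q (e i)).det with hW
  have hW0 : W ≠ 0 := det_ent_ne_zero m D d hm c k e hed heinj hec
  have hWdeg : W.natDegree ≤ k * D := natDegree_det_ent_le m D c k e
  have hdvd : ∀ s : Fin S, (X - C (x s)) ^ (N s - d) ∣ W := by
    intro s
    set ρ : ℕ → ℚ := fun l => y s l / x s ^ (m l) with hρ
    refine dvd_det_ent m D c d (N s) k hkd hk0 e (x s) ρ (hx0 s)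
      (fun i => div_ne_zero (hy0 s _ (hed i)) (pow_ne_zero _ (hx0 s))) ?_
    -- rewrite the sum over `Fin k` as a sum over `range (d+1)`
    have h1 : ∑ i : Fin k, C (ρ (e i)) * (X ^ (m (e i)) * ent m D c 0 (e i))
        = ∑ l ∈ range (d + 1), C (ρ l) * (X ^ (m l) * ent m D c 0 l) := by
      have h2 : ∑ l ∈ L, C (ρ l) * (X ^ (m l) * ent m D c 0 l)
          = ∑ l ∈ range (d + 1), C (ρ l) * (X ^ (m l) * ent m D c 0 l) := by
        rw [hL, Finset.sum_filter]
        refine Finset.sum_congr rfl ?_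
        intro l _
        by_cases h : ent m D c 0 l = 0
        · simp [h]
        · simp [h]
      rw [← h2]
      have h3 : L = Finset.univ.map (L.orderEmbOfFin hk.symm).toEmbedding := by
        ext l
        simp only [Finset.mem_map, Finset.mem_univ, true_and, RelEmbedding.coe_toEmbedding]
        constructor
        · intro hl
          have := Finset.range_orderEmbOfFin L hk.symm
          have hl' : l ∈ Set.range (L.orderEmbOfFin hk.symm) := by
            rw [this]
            exact hl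
          obtain ⟨i, hi⟩ := hl'
          exact ⟨i, hi⟩
        · rintro ⟨i, rfl⟩
          exact L.orderEmbOfFin_mem hk.symm i
      conv_rhs => rw [h3]
      rw [Finset.sum_map]
      rfl
    rw [h1]
    set F : ℚ[X] := ∑ l ∈ range (d + 1), C (ρ l) * (X ^ (m l) * ent m D c 0 l) with hF
    have hF2 : F = ∑ j ∈ range (D + 1), ∑ l ∈ range (d + 1),
        C (c j l * ρ l) * X ^ (j + m l) := by
      rw [hF, Finset.sum_comm]
      refine Finset.sum_congr rfl ?_
      intro l _
      unfold ent
      rw [Finset.mul_sum, Finset.mul_sum]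
      refine Finset.sum_congr rfl ?_
      intro j _
      rw [pow_add, pow_zero, mul_one, C_mul]
      ring
    rw [X_sub_C_pow_dvd_iff]
    rw [X_pow_dvd_iff]
    intro q hq
    rw [← taylor_apply, taylor_coeff]
    rw [hF2]
    simp only [map_sum, eval_finsetSum]
    have hv' := hv s q hq
    have hxs := hx0 s
    have h4 : ∀ j l : ℕ, (eval (x s)) ((hasseDeriv q) (C (c j l * ρ l) * X ^ (j + m l)))
        = (x s ^ q)⁻¹ * (c j l * ((j + m l).choose q : ℚ) * x s ^ j * y s l) := by
      intro j l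
      rw [C_mul_X_pow_eq_monomial, hasseDeriv_monomial, eval_monomial]
      rcases lt_or_ge (j + m l) q with hlt | hge
      · rw [Nat.choose_eq_zero_of_lt hlt]
        simp
      · have h5 : x s ^ (j + m l - q) = x s ^ (j + m l) * (x s ^ q)⁻¹ := by
          rw [eq_mul_inv_iff_mul_eq₀ (pow_ne_zero _ hxs), ← pow_add, Nat.sub_add_cancel hge]
        rw [h5, hρ, pow_add]
        have h6 : x s ^ (m l) ≠ 0 := pow_ne_zero _ hxs
        field_simp
    simp only [h4]
    simp only [← Finset.mul_sum]
    rw [hv', mul_zero]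
  have hprod : ∏ s : Fin S, (X - C (x s)) ^ (N s - d) ∣ W := by
    refine Finset.prod_dvd_of_coprime ?_ (fun s _ => hdvd s)
    intro s _ t _ hst
    refine IsCoprime.pow ?_
    exact isCoprime_X_sub_C_of_isUnit_sub (sub_ne_zero.2 (fun h => hst (hx h))).isUnit
  have hdeg := natDegree_le_of_dvd hprod hW0
  rw [natDegree_prod _ _ (fun s _ => pow_ne_zero _ (X_sub_C_ne_zero _))] at hdeg
  simp only [natDegree_pow, natDegree_X_sub_C, mul_one] at hdeg
  calc ∑ s, (N s - d) ≤ W.natDegree := hdeg
    _ ≤ k * D := hWdeg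
    _ ≤ (d + 1) * D := Nat.mul_le_mul_right _ hkd

end Pool.Agent.AbcQ
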